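import Pool.Agent.Q49.RB.Bin

set_option autoImplicit false

/-! Integrality for large arguments gives integrality. -/

namespace Pool.Agent.Q49.RB

open Finset

theorem integral_step {ι : Type} [Fintype ι] {n : ℕ} {w : ι → ℤ} {x : ι → ℂ} (k : ℤ) :
    ∑ i, (w i : ℂ) * bin ((k + 1 : ℤ) + x i) (n + 1) =
      ∑ i, (w i : ℂ) * bin (k + x i) (n + 1) + ∑ i, (w i : ℂ) * bin (k + x i) n := by
  rw [← sum_add_distrib]
  refine sum_congr rfl fun i _ => ?_
  have : ((k + 1 : ℤ) : ℂ) + x i = ((k : ℂ) + x i) + 1 := by push_cast; ring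
  rw [this, bin_pascal]
  ring

theorem integral_of_large {ι : Type} [Fintype ι] (n : ℕ) (w : ι → ℤ) (x : ι → ℂ) (K : ℤ)
    (h : ∀ k : ℤ, K ≤ k → ∃ z : ℤ, ∑ i, (w i : ℂ) * bin (k + x i) n = z) :
    Integral n w x := by
  induction n with
  | zero =>
    intro k
    refine ⟨∑ i, w i, ?_⟩
    push_cast
    exact sum_congr rfl fun i _ => by rw [bin_zero, mul_one]
  | succ n ih =>
    have h1 : Integral n w x := by
      refine ih fun k hk => ?_
      obtain ⟨z1, h1⟩ := h (k + 1) (by omega)
      obtain ⟨z2, h2⟩ := h k hk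
      refine ⟨z1 - z2, ?_⟩
      have := integral_step (n := n) (w := w) (x := x) k
      push_cast
      rw [← h1, ← h2, this]
      ring
    have h2 : ∀ j : ℕ, ∃ z : ℤ, ∑ i, (w i : ℂ) * bin ((K - j : ℤ) + x i) (n + 1) = z := by
      intro j
      induction j with
      | zero =>
        obtain ⟨z, hz⟩ := h K le_rfl
        exact ⟨z, by simpa using hz⟩
      | succ j ihj =>
        obtain ⟨z, hz⟩ := ihj
        obtain ⟨y, hy⟩ := h1 (K - (j + 1 : ℕ))
        have := integral_step (n := n) (w := w) (x := x) (K - (j + 1 : ℕ))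
        have e : K - ((j + 1 : ℕ) : ℤ) + 1 = K - j := by push_cast; ring
        rw [e, hz, hy] at this
        refine ⟨z - y, ?_⟩
        push_cast at this ⊢
        rw [this]
        ring
    intro k
    rcases le_or_gt K k with hk | hk
    · exact h k hk
    · obtain ⟨j, hj⟩ := Int.eq_ofNat_of_zero_le (show 0 ≤ K - k by omega)
      obtain ⟨z, hz⟩ := h2 j
      have e : K - (j : ℤ) = k := by omega
      rw [e] at hz
      exact ⟨z, hz⟩

end Pool.Agent.Q49.RB
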