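import Pool.Agent.Q49.RB.Size

set_option autoImplicit false

/-! Chern classes and Chern roots. -/

namespace Pool.Agent.Q49.RB

open Finset Polynomial

variable {r : ℕ} {c : ℕ → ℤ} {δ : Fin r → ℂ}

theorem c_zero (h : ∏ i, (1 + C (δ i) * X) = ∑ j ∈ range (r + 1), C ((c j : ℤ) : ℂ) * X ^ j) :
    c 0 = 1 := by
  have h1 := congrArg (Polynomial.eval 0) h
  rw [eval_prod, eval_finsetSum, sum_range_succ'] at h1
  simp at h1
  exact_mod_cast h1.symm

theorem root_eq (h : ∏ i, (1 + C (δ i) * X) = ∑ j ∈ range (r + 1), C ((c j : ℤ) : ℂ) * X ^ j)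
    (i : Fin r) (hi : δ i ≠ 0) : ∑ j ∈ range (r + 1), (c j : ℂ) * (-(δ i)⁻¹) ^ j = 0 := by
  have h1 := congrArg (Polynomial.eval (-(δ i)⁻¹)) h
  rw [eval_prod, eval_finsetSum, prod_eq_zero (mem_univ i)] at h1
  · rw [h1]
    refine sum_congr rfl fun j _ => ?_
    simp
  · simp only [eval_add, eval_one, eval_mul, eval_C, eval_X]
    field_simp
    ring

theorem root_bound (h : ∏ i, (1 + C (δ i) * X) = ∑ j ∈ range (r + 1), C ((c j : ℤ) : ℂ) * X ^ j)
    (M : ℝ) (hM0 : 0 ≤ M) (hM : ∀ j, 1 ≤ j → j ≤ r → |(c j : ℝ)| ≤ M ^ j) (i : Fin r) :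
    ‖δ i‖ ≤ 2 * M := by
  by_contra hcon
  push Not at hcon
  have hpos : 0 < ‖δ i‖ := by linarith
  have hi : δ i ≠ 0 := norm_pos_iff.1 hpos
  have h1 := root_eq h i hi
  rw [sum_range_succ', c_zero h] at h1
  simp only [pow_zero, Int.cast_one, mul_one] at h1
  have h2 : ‖∑ j ∈ range r, (c (j + 1) : ℂ) * (-(δ i)⁻¹) ^ (j + 1)‖ = 1 := by
    rw [eq_neg_of_add_eq_zero_left h1, norm_neg, norm_one]
  have h3 : ‖∑ j ∈ range r, (c (j + 1) : ℂ) * (-(δ i)⁻¹) ^ (j + 1)‖ ≤
      ∑ j ∈ range r, (1 / 2 : ℝ) ^ (j + 1) := by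
    refine (norm_sum_le _ _).trans (sum_le_sum fun j hj => ?_)
    rw [mem_range] at hj
    rw [norm_mul, norm_pow, norm_neg, norm_inv, Complex.norm_intCast]
    have h4 := hM (j + 1) (by omega) (by omega)
    calc |(c (j + 1) : ℝ)| * ‖δ i‖⁻¹ ^ (j + 1) ≤ M ^ (j + 1) * ‖δ i‖⁻¹ ^ (j + 1) :=
          mul_le_mul_of_nonneg_right h4 (by positivity)
      _ = (M * ‖δ i‖⁻¹) ^ (j + 1) := by rw [mul_pow]
      _ ≤ (1 / 2 : ℝ) ^ (j + 1) := by
          refine pow_le_pow_left₀ (by positivity) ?_ _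
          rw [← div_eq_mul_inv, div_le_div_iff₀ hpos (by norm_num)]
          linarith
  have h4 : ∀ s : ℕ, ∑ j ∈ range s, (1 / 2 : ℝ) ^ (j + 1) = 1 - (1 / 2) ^ s := by
    intro s
    induction s with
    | zero => simp
    | succ s ih =>
      rw [sum_range_succ, ih]
      ring
  rw [h4, h2] at h3
  have : (0 : ℝ) < (1 / 2) ^ r := by positivity
  linarith

theorem root_integral
    (h : ∏ i, (1 + C (δ i) * X) = ∑ j ∈ range (r + 1), C ((c j : ℤ) : ℂ) * X ^ j)
    (i : Fin r) : IsIntegral ℤ (δ i) := by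
  by_cases hi : δ i = 0
  · rw [hi]
    exact isIntegral_zero
  have hr : 1 ≤ r := by
    have := i.2
    omega
  set q : ℤ[X] := ∑ j ∈ range r, C ((-1) ^ (j + 1) * c (j + 1)) * X ^ (r - 1 - j) with hq
  have hdeg : q.degree < r := by
    rw [← Polynomial.mem_degreeLT, hq]
    refine sum_mem fun j hj => ?_
    rw [mem_range] at hj
    rw [Polynomial.mem_degreeLT]
    refine (degree_C_mul_X_pow_le _ _).trans_lt ?_
    exact_mod_cast (by omega : r - 1 - j < r)
  refine ⟨X ^ r + q, monic_X_pow_add hdeg, ?_⟩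
  rw [eval₂_add, eval₂_X_pow, hq, eval₂_finsetSum]
  have h1 := root_eq h i hi
  rw [sum_range_succ', c_zero h] at h1
  simp only [pow_zero, Int.cast_one, mul_one] at h1
  have h2 : δ i ^ r * (∑ j ∈ range r, (c (j + 1) : ℂ) * (-(δ i)⁻¹) ^ (j + 1) + 1) = 0 := by
    rw [h1, mul_zero]
  rw [mul_add, mul_one, mul_sum] at h2
  rw [add_comm, ← h2]
  congr 1
  refine sum_congr rfl fun j hj => ?_
  rw [mem_range] at hj
  rw [eval₂_mul, eval₂_C, eval₂_X_pow]
  have e : r = (r - 1 - j) + (j + 1) := by omega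
  have e2 : δ i ^ r = δ i ^ (r - 1 - j) * δ i ^ (j + 1) := by
    rw [← pow_add, ← e]
  rw [e2]
  have e3 : δ i ^ (j + 1) * (-(δ i)⁻¹) ^ (j + 1) = (-1) ^ (j + 1) := by
    rw [← mul_pow]
    congr 1
    field_simp
  simp only [algebraMap_int_eq, eq_intCast]
  push_cast
  linear_combination (-(δ i ^ (r - 1 - j)) * (c (j + 1) : ℂ)) * e3

theorem sum_root (h : ∏ i, (1 + C (δ i) * X) = ∑ j ∈ range (r + 1), C ((c j : ℤ) : ℂ) * X ^ j)
    (hr : 1 ≤ r) : ∑ i, δ i = c 1 := by
  have h1 := congrArg (fun p : ℂ[X] => (Polynomial.derivative p).eval 0) h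
  simp only [derivative_prod_finset, derivative_sum] at h1
  rw [eval_finsetSum, eval_finsetSum] at h1
  have h2 : ∀ i : Fin r, Polynomial.eval 0 ((∏ j ∈ univ.erase i, (1 + C (δ j) * X)) *
      derivative (1 + C (δ i) * X)) = δ i := by
    intro i
    rw [eval_mul, eval_prod]
    simp
  simp only [h2] at h1
  rw [h1, sum_eq_single 1]
  · simp
  · intro j _ hj
    rcases j with _ | _ | j
    · simp
    · exact absurd rfl hj
    · simp
  · intro hn
    rw [mem_range] at hn
    omega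

theorem int_prod (h : ∏ i, (1 + C (δ i) * X) = ∑ j ∈ range (r + 1), C ((c j : ℤ) : ℂ) * X ^ j)
    (d : Fin r → ℤ) (hd : ∀ i, δ i = d i) :
    ∏ i, (1 + C (d i) * X) = ∑ j ∈ range (r + 1), C (c j) * (X : ℤ[X]) ^ j := by
  apply Polynomial.map_injective (Int.castRingHom ℂ) Int.cast_injective
  rw [Polynomial.map_prod, Polynomial.map_sum]
  have e1 : ∏ i, Polynomial.map (Int.castRingHom ℂ) (1 + C (d i) * X) =
      ∏ i, (1 + C (δ i) * X) := by
    refine prod_congr rfl fun i _ => ?_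
    rw [hd]
    simp
  rw [e1, h]
  refine sum_congr rfl fun j _ => ?_
  simp

/-- a zero Chern root kills the alternating sum -/
theorem alt_zero (i0 : Fin r) (hi0 : δ i0 = 0) (g : ℂ → ℂ) :
    ∑ S : Finset (Fin r), sg S * g (∑ i ∈ S, δ i) = 0 := by
  classical
  refine sum_involution (fun S _ => if i0 ∈ S then S.erase i0 else insert i0 S) ?_ ?_ ?_ ?_
  · intro S _
    by_cases h : i0 ∈ S
    · simp only [h, if_true]
      have e1 : ∑ i ∈ S.erase i0, δ i = ∑ i ∈ S, δ i := by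
        rw [← add_sum_erase S δ h, hi0, zero_add]
      have e2 : sg (S.erase i0) = -sg S := by
        unfold sg
        rw [← card_erase_add_one h, pow_succ]
        ring
      rw [e1, e2]
      ring
    · simp only [h, if_false]
      have e1 : ∑ i ∈ insert i0 S, δ i = ∑ i ∈ S, δ i := by
        rw [sum_insert h, hi0, zero_add]
      have e2 : sg (insert i0 S) = -sg S := by
        unfold sg
        rw [card_insert_of_notMem h, pow_succ]
        ring
      rw [e1, e2]
      ring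
  · intro S _ _ hS
    by_cases h : i0 ∈ S
    · simp only [h, if_true] at hS
      rw [← hS] at h
      simp at h
    · simp only [h, if_false] at hS
      apply h
      rw [← hS]
      exact mem_insert_self _ _
  · intro S _
    exact mem_univ _
  · intro S _
    by_cases h : i0 ∈ S
    · simp only [h, if_true]
      rw [if_neg (by simp)]
      exact insert_erase h
    · simp only [h, if_false]
      rw [if_pos (mem_insert_self _ _)]
      exact erase_insert h

end Pool.Agent.Q49.RB
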