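import Pool.Agent.Q49.RB.Law7

set_option autoImplicit false

/-!
# The discriminant -15 and the decomposition of a discriminant
-/

namespace Pool.Agent.Q49.RB

open Finset

theorem sqf_neg {a : ℤ} (h : Squarefree a) : Squarefree (-a) := fun x hx =>
  h x ((Int.dvd_neg).1 hx)

/-- every discriminant is a fundamental one times a square -/
theorem exists_fund (c₁ c₂ : ℤ) : ∃ δ d : ℤ, IsFund δ ∧ c₁ ^ 2 - 4 * c₂ = δ * d ^ 2 := by
  by_cases h0 : c₁ ^ 2 - 4 * c₂ = 0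
  · exact ⟨1, 0, Or.inl ⟨rfl, squarefree_one⟩, by rw [h0]; ring⟩
  obtain ⟨a, b, hab, ha⟩ := Nat.sq_mul_squarefree (c₁ ^ 2 - 4 * c₂).natAbs
  obtain ⟨s, hs, hΔ⟩ : ∃ s : ℤ, Squarefree s ∧ c₁ ^ 2 - 4 * c₂ = s * b ^ 2 := by
    rcases Int.natAbs_eq (c₁ ^ 2 - 4 * c₂) with h | h
    · refine ⟨a, Int.squarefree_natCast.2 ha, ?_⟩
      rw [h, ← hab]
      push_cast
      ring
    · refine ⟨-a, sqf_neg (Int.squarefree_natCast.2 ha), ?_⟩
      rw [h, ← hab]
      push_cast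
      ring
  have h4 : s % 4 ≠ 0 := by
    intro h
    have h1 : (2 : ℤ) * 2 ∣ s := by
      rw [show (2 : ℤ) * 2 = 4 by norm_num]
      exact Int.dvd_of_emod_eq_zero h
    have := hs 2 h1
    rw [Int.isUnit_iff] at this
    omega
  rcases (by omega : s % 4 = 1 ∨ s % 4 = 2 ∨ s % 4 = 3) with h | h
  · exact ⟨s, b, Or.inl ⟨h, hs⟩, hΔ⟩
  · have hb : Even b := by
      by_contra hodd
      rw [Nat.not_even_iff_odd] at hodd
      obtain ⟨q, hq⟩ := hodd
      have hq' : (b : ℤ) = 2 * q + 1 := by exact_mod_cast hq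
      have h1 : s * b ^ 2 = s + 4 * (s * (q ^ 2 + q)) := by rw [hq']; ring
      have h2 : (c₁ ^ 2) % 4 = 0 ∨ (c₁ ^ 2) % 4 = 1 := by
        rcases Int.even_or_odd' c₁ with ⟨r, hr | hr⟩
        · left
          have : c₁ ^ 2 = 4 * r ^ 2 := by rw [hr]; ring
          omega
        · right
          have : c₁ ^ 2 = 4 * (r ^ 2 + r) + 1 := by rw [hr]; ring
          omega
      omega
    obtain ⟨q, hq⟩ := hb
    refine ⟨4 * s, q, Or.inr ⟨s, rfl, h, hs⟩, ?_⟩
    rw [hΔ, hq]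
    push_cast
    ring

theorem fund15 : IsFund (-15) := by
  left
  refine ⟨by norm_num, ?_⟩
  have h : Squarefree (15 : ℤ) := by
    rw [← Int.squarefree_natAbs]
    norm_num
    have : (15 : ℕ) = 3 * 5 := rfl
    rw [this, Nat.squarefree_mul (by norm_num)]
    exact ⟨Nat.prime_three.squarefree, Nat.prime_five.squarefree⟩
  exact sqf_neg h

theorem dvd15 {p : ℕ} (hp : p.Prime) : (p : ℤ) ∣ -15 ↔ p = 3 ∨ p = 5 := by
  constructor
  · intro h
    have h1 : p ∣ 3 * 5 := by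
      have := (Int.dvd_neg.1 h)
      exact_mod_cast this
    rcases hp.dvd_mul.1 h1 with h2 | h2
    · exact Or.inl ((Nat.prime_dvd_prime_iff_eq hp Nat.prime_three).1 h2)
    · exact Or.inr ((Nat.prime_dvd_prime_iff_eq hp Nat.prime_five).1 h2)
  · rintro (rfl | rfl) <;> decide

theorem jac15 {p : ℕ} (hp : p.Prime) (hp2 : p ≠ 2) (h3 : p ≠ 3) (h5 : p ≠ 5) :
    (p % 15 = 7 ∨ p % 15 = 11 ∨ p % 15 = 13 ∨ p % 15 = 14) ∧ jacobiSym (-15) p = -1 ∨
    ¬ (p % 15 = 7 ∨ p % 15 = 11 ∨ p % 15 = 13 ∨ p % 15 = 14) ∧ jacobiSym (-15) p = 1 := by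
  have hodd : Odd p := hp.odd_of_ne_two hp2
  have h1 := jacobiSym.mod_right (-15) hodd
  norm_num at h1
  have hp3 : p % 3 ≠ 0 := fun h => by
    have := (Nat.prime_dvd_prime_iff_eq Nat.prime_three hp).1 (Nat.dvd_of_mod_eq_zero h)
    omega
  have hp5 : p % 5 ≠ 0 := fun h => by
    have := (Nat.prime_dvd_prime_iff_eq Nat.prime_five hp).1 (Nat.dvd_of_mod_eq_zero h)
    omega
  have hp2' : p % 2 = 1 := Nat.odd_iff.1 hodd
  have hlt : p % 60 < 60 := Nat.mod_lt _ (by norm_num)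
  rw [h1]
  have e15 : p % 15 = (p % 60) % 15 := by omega
  have e3 : p % 3 = (p % 60) % 3 := by omega
  have e5 : p % 5 = (p % 60) % 5 := by omega
  have e2 : p % 2 = (p % 60) % 2 := by omega
  rw [e15]
  rw [e3] at hp3
  rw [e5] at hp5
  rw [e2] at hp2'
  generalize p % 60 = r at *
  interval_cases r <;> first | omega | (left; constructor <;> norm_num; done) |
    (right; constructor <;> norm_num; done)

theorem inert15 {p : ℕ} (hp : p.Prime) :
    InertAt (-15) p ↔ (p % 15 = 7 ∨ p % 15 = 11 ∨ p % 15 = 13 ∨ p % 15 = 14) := by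
  haveI : Fact p.Prime := ⟨hp⟩
  by_cases hd : (p : ℤ) ∣ -15
  · have h1 := not_inert_of_dvd fund15 hp hd
    rcases (dvd15 hp).1 hd with h | h
    · subst h
      exact ⟨fun h => absurd h h1, fun h => by norm_num at h⟩
    · subst h
      exact ⟨fun h => absurd h h1, fun h => by norm_num at h⟩
  have h35 : p ≠ 3 ∧ p ≠ 5 := ⟨fun h => hd ((dvd15 hp).2 (Or.inl h)), fun h => hd ((dvd15 hp).2 (Or.inr h))⟩
  by_cases hp2 : p = 2
  · subst hp2
    constructor
    · intro h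
      exact absurd ⟨30, by norm_num⟩ (h 0)
    · intro h
      norm_num at h
  have hne : ((-15 : ℤ) : ZMod p) ≠ 0 := by
    rw [Ne, ZMod.intCast_zmod_eq_zero_iff_dvd]
    exact hd
  rcases jac15 hp hp2 h35.1 h35.2 with ⟨h1, h2⟩ | ⟨h1, h2⟩
  · refine ⟨fun _ => h1, fun _ x hx => ?_⟩
    have h3 := sq_of_root fund15 x hx
    rw [← jacobiSym.legendreSym.to_jacobiSym] at h2
    have := (legendreSym.eq_one_iff p hne).2 h3
    rw [this] at h2
    norm_num at h2
  · refine ⟨fun h => ?_, fun h => absurd h h1⟩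
    rw [← jacobiSym.legendreSym.to_jacobiSym] at h2
    exact absurd h (root_of_sq fund15 hp hp2 ((legendreSym.eq_one_iff p hne).1 h2))

end Pool.Agent.Q49.RB
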