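import Mathlib

set_option autoImplicit false

/-!
# Integrality of Riemann-Roch polynomials and integer valued polynomials
-/

namespace Pool.Agent.Q49.RB

open Polynomial Finset

/-- the binomial coefficient `x (x - 1) ⋯ (x - m + 1) / m!` -/
noncomputable def bin (x : ℂ) (m : ℕ) : ℂ := (∏ i ∈ range m, (x - i)) / (m.factorial : ℂ)

/-- the values of `∑ w_i bin (k + x_i) n` at all integers `k` are integers -/
def Integral {ι : Type} [Fintype ι] (n : ℕ) (w : ι → ℤ) (x : ι → ℂ) : Prop :=
  ∀ k : ℤ, ∃ z : ℤ, ∑ i, (w i : ℂ) * bin (k + x i) n = z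

theorem bin_zero (x : ℂ) : bin x 0 = 1 := by simp [bin]

theorem bin_succ (x : ℂ) (m : ℕ) : bin x (m + 1) = bin x m * (x - m) / (m + 1) := by
  have h : ((m : ℂ) + 1) ≠ 0 := by exact_mod_cast Nat.succ_ne_zero m
  unfold bin
  rw [prod_range_succ, Nat.factorial_succ]
  push_cast
  field_simp

/-- Pascal's rule -/
theorem bin_pascal (x : ℂ) (m : ℕ) : bin (x + 1) (m + 1) = bin x (m + 1) + bin x m := by
  induction m with
  | zero =>
    rw [bin_succ, bin_succ]
    simp [bin_zero]
  | succ m ih =>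
    have h2 : ((m : ℂ) + 1 + 1) ≠ 0 := by exact_mod_cast Nat.succ_ne_zero (m + 1)
    have h1 : ((m : ℂ) + 1) ≠ 0 := by exact_mod_cast Nat.succ_ne_zero m
    rw [bin_succ (x + 1) (m + 1), ih, bin_succ x (m + 1)]
    have h3 : bin x (m + 1) * (m + 1) = bin x m * (x - m) := by
      rw [bin_succ]
      field_simp
    push_cast
    field_simp
    linear_combination (-1 : ℂ) * h3

theorem bin_nat (N k : ℕ) : bin (N : ℂ) k = (N.choose k : ℂ) := by
  induction N generalizing k with
  | zero =>
    cases k with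
    | zero => simp [bin]
    | succ k =>
      simp only [bin, Nat.choose_zero_succ, Nat.cast_zero, prod_range_succ']
      simp
  | succ N ih =>
    cases k with
    | zero => simp [bin]
    | succ k =>
      push_cast
      rw [bin_pascal, ih, ih, Nat.choose_succ_succ]
      push_cast
      ring

theorem Integral.pred {ι : Type} [Fintype ι] {n : ℕ} {w : ι → ℤ} {x : ι → ℂ}
    (h : Integral (n + 1) w x) : Integral n w x := by
  intro k
  obtain ⟨z1, h1⟩ := h (k + 1)
  obtain ⟨z2, h2⟩ := h k
  refine ⟨z1 - z2, ?_⟩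
  push_cast
  rw [← h1, ← h2, ← sum_sub_distrib]
  refine sum_congr rfl fun i _ => ?_
  have : ((k + 1 : ℤ) : ℂ) + x i = ((k : ℂ) + x i) + 1 := by push_cast; ring
  rw [this, bin_pascal]
  ring

theorem Integral.le {ι : Type} [Fintype ι] {n m : ℕ} {w : ι → ℤ} {x : ι → ℂ}
    (h : Integral n w x) (hm : m ≤ n) : Integral m w x := by
  obtain ⟨d, rfl⟩ := Nat.exists_eq_add_of_le hm
  clear hm
  induction d with
  | zero => exact h
  | succ d ih => exact ih h.pred

/-- `bin` as a polynomial -/
noncomputable def binP (m : ℕ) : ℂ[X] :=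
  C (1 / (m.factorial : ℂ)) * ∏ i ∈ range m, (X - C (i : ℂ))

theorem binP_eval (m : ℕ) (x : ℂ) : (binP m).eval x = bin x m := by
  unfold binP bin
  rw [eval_mul, eval_C, eval_prod]
  simp [div_eq_inv_mul]

/-- **Integer valued polynomials take integral values.** -/
theorem Integral.poly {ι : Type} [Fintype ι] {n : ℕ} {w : ι → ℤ} {x : ι → ℂ}
    (h : Integral n w x) (f : ℂ[X]) (hf : f.natDegree ≤ n)
    (hi : ∀ N : ℕ, ∃ z : ℤ, f.eval (N : ℂ) = z) :
    ∃ z : ℤ, ∑ i, (w i : ℂ) * f.eval (x i) = z := by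
  classical
  set a : ℕ → ℂ := fun k => (fwdDiff (1 : ℂ))^[k] f.eval 0 with ha
  have ha1 : ∀ k, ∃ z : ℤ, a k = z := by
    intro k
    have h1 := fwdDiff_iter_eq_sum_shift (1 : ℂ) f.eval k 0
    choose z hz using hi
    refine ⟨∑ j ∈ range (k + 1), ((-1 : ℤ) ^ (k - j) * k.choose j) * z j, ?_⟩
    rw [ha]
    simp only
    rw [h1]
    push_cast
    refine sum_congr rfl fun j _ => ?_
    have h2 : (0 : ℂ) + j • (1 : ℂ) = (j : ℂ) := by simp
    rw [h2, hz j]
    simp
  have ha2 : ∀ k, f.natDegree < k → a k = 0 := by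
    intro k hk
    have := Polynomial.fwdDiff_iter_eq_zero_of_degree_lt hk
    rw [ha]
    simp only
    rw [this]
    rfl
  have hfe : f = ∑ k ∈ range (n + 1), C (a k) * binP k := by
    refine Polynomial.eq_of_infinite_eval_eq _ _ ?_
    refine Set.Infinite.mono (s := Set.range fun N : ℕ => (N : ℂ)) ?_
      (Set.infinite_range_of_injective Nat.cast_injective)
    rintro _ ⟨N, rfl⟩
    simp only [Set.mem_ofPred_eq]
    have h1 := shift_eq_sum_fwdDiff_iter (1 : ℂ) f.eval N 0
    have h2 : (0 : ℂ) + N • (1 : ℂ) = (N : ℂ) := by simp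
    rw [h2] at h1
    rw [h1, eval_finsetSum]
    simp only [eval_mul, eval_C, binP_eval, bin_nat]
    have h3 : ∀ k, (N.choose k) • (fwdDiff (1 : ℂ))^[k] f.eval 0 = a k * (N.choose k : ℂ) := by
      intro k
      rw [nsmul_eq_mul, mul_comm]
    simp only [h3]
    rcases le_total (N + 1) (n + 1) with hle | hle
    · refine sum_subset (range_mono hle) fun k _ hk => ?_
      rw [mem_range, not_lt] at hk
      rw [Nat.choose_eq_zero_of_lt (by omega)]
      simp
    · symm
      refine sum_subset (range_mono hle) fun k _ hk => ?_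
      rw [mem_range, not_lt] at hk
      rw [ha2 k (by omega), zero_mul]
  choose z hz using ha1
  have h4 : ∀ k ∈ range (n + 1), ∃ y : ℤ, ∑ i, (w i : ℂ) * bin (x i) k = y := by
    intro k hk
    have := h.le (m := k) (by rw [mem_range] at hk; omega) 0
    simpa using this
  choose! y hy using h4
  refine ⟨∑ k ∈ range (n + 1), z k * y k, ?_⟩
  rw [hfe]
  simp only [eval_finsetSum, eval_mul, eval_C, binP_eval]
  simp only [mul_sum]
  rw [sum_comm]
  push_cast
  refine sum_congr rfl fun k hk => ?_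
  rw [← hy k hk, mul_sum, ← hz k]
  refine sum_congr rfl fun i _ => by ring

end Pool.Agent.Q49.RB
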