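import Pool.Agent.H471R4.BW.Stubs

set_option autoImplicit false

/-! Sums over integers coprime to a set of exceptional primes. -/

namespace Pool.Agent.Q49.RB

open Finset

open Pool.Agent.H471R4.BW (shortSum)

/-- the integers up to `Y` with no prime factor in `E` -/
def cops (E : Finset ℕ) (Y : ℕ) : Finset ℕ := (Icc 1 Y).filter (fun n => ∀ p ∈ E, ¬ p ∣ n)

/-- the sum of `χ` over `cops E Y` -/
noncomputable def TE (N : ℕ) (χ : DirichletCharacter ℂ N) (E : Finset ℕ) (Y : ℕ) : ℂ :=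
  ∑ n ∈ cops E Y, χ (n : ZMod N)

theorem cops_empty (Y : ℕ) : cops ∅ Y = Icc 1 Y := by
  unfold cops
  simp

theorem TE_empty (N : ℕ) (χ : DirichletCharacter ℂ N) (Y : ℕ) : TE N χ ∅ Y = shortSum N χ Y := by
  unfold TE shortSum
  rw [cops_empty]

theorem fil {M : Type} [AddCommMonoid M] (E : Finset ℕ) (hE : ∀ q ∈ E, q.Prime) (p : ℕ)
    (hp : p.Prime) (hpE : p ∉ E) (Y : ℕ) (f : ℕ → M) :
    ∑ n ∈ (cops E Y).filter (fun n => p ∣ n), f n = ∑ m ∈ cops E (Y / p), f (p * m) := by
  symm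
  refine sum_bij (fun m _ => p * m) ?_ ?_ ?_ ?_
  · intro m hm
    unfold cops at hm ⊢
    rw [mem_filter, mem_Icc] at hm
    rw [mem_filter, mem_filter, mem_Icc]
    obtain ⟨⟨h1, h2⟩, h3⟩ := hm
    refine ⟨⟨⟨Nat.mul_pos hp.pos h1, ?_⟩, ?_⟩, dvd_mul_right p m⟩
    · rw [mul_comm]
      exact (Nat.le_div_iff_mul_le hp.pos).1 h2
    · intro q hq hd
      rcases (hE q hq).dvd_mul.1 hd with h | h
      · rw [Nat.prime_dvd_prime_iff_eq (hE q hq) hp] at h
        exact hpE (h ▸ hq)
      · exact h3 q hq h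
  · intro a _ b _ h
    exact Nat.eq_of_mul_eq_mul_left hp.pos h
  · intro n hn
    rw [mem_filter] at hn
    obtain ⟨h1, m, rfl⟩ := hn
    unfold cops at h1
    rw [mem_filter, mem_Icc] at h1
    refine ⟨m, ?_, rfl⟩
    unfold cops
    rw [mem_filter, mem_Icc]
    refine ⟨⟨?_, ?_⟩, ?_⟩
    · rcases Nat.eq_zero_or_pos m with h | h
      · rw [h] at h1
        simp at h1
      · exact h
    · rw [Nat.le_div_iff_mul_le hp.pos, mul_comm]
      exact h1.1.2
    · intro q hq hd
      exact h1.2 q hq (hd.mul_left p)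
  · intro m _
    rfl

theorem cops_insert (E : Finset ℕ) (p Y : ℕ) :
    cops (insert p E) Y = (cops E Y).filter (fun n => ¬ p ∣ n) := by
  unfold cops
  ext n
  simp only [mem_filter, mem_insert, forall_eq_or_imp]
  tauto

theorem sum_insert_cops {M : Type} [AddCommGroup M] (E : Finset ℕ) (hE : ∀ q ∈ E, q.Prime) (p : ℕ)
    (hp : p.Prime) (hpE : p ∉ E) (Y : ℕ) (f : ℕ → M) :
    ∑ n ∈ cops (insert p E) Y, f n = ∑ n ∈ cops E Y, f n - ∑ m ∈ cops E (Y / p), f (p * m) := by
  rw [cops_insert, ← fil E hE p hp hpE Y f, eq_sub_iff_add_eq, add_comm]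
  exact sum_filter_add_sum_filter_not _ _ _

theorem TE_insert (N : ℕ) (χ : DirichletCharacter ℂ N) (E : Finset ℕ) (hE : ∀ q ∈ E, q.Prime)
    (p : ℕ) (hp : p.Prime) (hpE : p ∉ E) (Y : ℕ) :
    TE N χ (insert p E) Y = TE N χ E Y - χ (p : ZMod N) * TE N χ E (Y / p) := by
  unfold TE
  rw [sum_insert_cops E hE p hp hpE Y, mul_sum]
  congr 1
  refine sum_congr rfl fun m _ => ?_
  push_cast
  rw [map_mul]

theorem TE_bound (N : ℕ) (χ : DirichletCharacter ℂ N) (X : ℕ) (A : ℝ)
    (hA : ∀ Y ≤ X, ‖shortSum N χ Y‖ ≤ A) (E : Finset ℕ) :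
    (∀ q ∈ E, q.Prime) → ∀ Y ≤ X, ‖TE N χ E Y‖ ≤ 2 ^ E.card * A := by
  induction E using Finset.induction_on with
  | empty =>
    intro _ Y hY
    rw [TE_empty]
    simpa using hA Y hY
  | insert p E hpE ih =>
    intro hE Y hY
    have hE' : ∀ q ∈ E, q.Prime := fun q hq => hE q (mem_insert_of_mem hq)
    have hp := hE p (mem_insert_self p E)
    rw [TE_insert N χ E hE' p hp hpE Y, card_insert_of_notMem hpE, pow_succ]
    have h1 := ih hE' Y hY
    have h2 := ih hE' (Y / p) ((Nat.div_le_self Y p).trans hY)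
    have h3 := DirichletCharacter.norm_le_one χ (p : ZMod N)
    calc ‖TE N χ E Y - χ (p : ZMod N) * TE N χ E (Y / p)‖ ≤
        ‖TE N χ E Y‖ + ‖χ (p : ZMod N) * TE N χ E (Y / p)‖ := norm_sub_le _ _
      _ ≤ ‖TE N χ E Y‖ + ‖TE N χ E (Y / p)‖ := by
          rw [norm_mul]
          have := mul_le_mul_of_nonneg_right h3 (norm_nonneg (TE N χ E (Y / p)))
          linarith
      _ ≤ _ := by linarith

/-- the density -/
noncomputable def dens (E : Finset ℕ) : ℝ := ∏ p ∈ E, (1 - 1 / (p : ℝ))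

theorem dens_le (E : Finset ℕ) (hE : ∀ q ∈ E, q.Prime) : dens E ≤ 1 := by
  unfold dens
  refine prod_le_one (fun p hp => ?_) (fun p _ => ?_)
  · have h1 : (1 : ℝ) ≤ p := by exact_mod_cast (hE p hp).one_lt.le
    have h2 : 1 / (p : ℝ) ≤ 1 := by
      rw [div_le_one (by linarith)]
      exact h1
    linarith
  · have : (0 : ℝ) ≤ 1 / p := by positivity
    linarith

theorem dens_ge (E : Finset ℕ) (hE : ∀ q ∈ E, q.Prime) : (1 / 2 : ℝ) ^ E.card ≤ dens E := by
  unfold dens
  rw [← prod_const]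
  refine prod_le_prod (fun _ _ => by norm_num) fun p hp => ?_
  have h1 : (2 : ℝ) ≤ p := by exact_mod_cast (hE p hp).two_le
  have h2 : 1 / (p : ℝ) ≤ 1 / 2 := one_div_le_one_div_of_le (by norm_num) h1
  linarith

theorem cops_card (E : Finset ℕ) : (∀ q ∈ E, q.Prime) → ∀ Y : ℕ,
    |((cops E Y).card : ℝ) - dens E * Y| ≤ 2 ^ E.card - 1 := by
  induction E using Finset.induction_on with
  | empty =>
    intro _ Y
    rw [cops_empty]
    simp [dens]
  | insert p E hpE ih =>
    intro hE Y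
    have hE' : ∀ q ∈ E, q.Prime := fun q hq => hE q (mem_insert_of_mem hq)
    have hp := hE p (mem_insert_self p E)
    have h1 := ih hE' Y
    have h2 := ih hE' (Y / p)
    have h3 : ((cops (insert p E) Y).card : ℝ) = (cops E Y).card - (cops E (Y / p)).card := by
      have := sum_insert_cops E hE' p hp hpE Y (fun _ => (1 : ℝ))
      simpa using this
    have h4 : dens (insert p E) = (1 - 1 / (p : ℝ)) * dens E := by
      unfold dens
      rw [prod_insert hpE]
    have hp0 : (0 : ℝ) < p := by exact_mod_cast hp.pos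
    have h5 : ((Y / p : ℕ) : ℝ) ≤ Y / p := Nat.cast_div_le
    have h6 : (Y : ℝ) / p - 1 ≤ ((Y / p : ℕ) : ℝ) := by
      have : Y < (Y / p + 1) * p := (Nat.div_lt_iff_lt_mul hp.pos).1 (Nat.lt_succ_self _)
      have h7 : (Y : ℝ) < (((Y / p : ℕ) : ℝ) + 1) * p := by exact_mod_cast this
      rw [sub_le_iff_le_add, div_le_iff₀ hp0]
      exact h7.le
    have h8 := dens_le E hE'
    have h9 : 0 ≤ dens E := le_trans (by positivity) (dens_ge E hE')
    rw [card_insert_of_notMem hpE, pow_succ, h3, h4]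
    have e : ((cops E Y).card : ℝ) - (cops E (Y / p)).card - (1 - 1 / (p : ℝ)) * dens E * Y =
        (((cops E Y).card : ℝ) - dens E * Y) -
          (((cops E (Y / p)).card : ℝ) - dens E * ((Y / p : ℕ) : ℝ)) +
          dens E * ((Y : ℝ) / p - ((Y / p : ℕ) : ℝ)) := by
      ring
    rw [e]
    have h10 : |dens E * ((Y : ℝ) / p - ((Y / p : ℕ) : ℝ))| ≤ 1 := by
      rw [abs_of_nonneg (mul_nonneg h9 (by linarith))]
      nlinarith
    calc _ ≤ |(((cops E Y).card : ℝ) - dens E * Y) -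
          (((cops E (Y / p)).card : ℝ) - dens E * ((Y / p : ℕ) : ℝ))| +
          |dens E * ((Y : ℝ) / p - ((Y / p : ℕ) : ℝ))| := abs_add_le _ _
      _ ≤ (|((cops E Y).card : ℝ) - dens E * Y| +
          |((cops E (Y / p)).card : ℝ) - dens E * ((Y / p : ℕ) : ℝ)|) + 1 :=
          add_le_add (abs_sub _ _) h10
      _ ≤ _ := by linarith

/-- complete multiplicativity: if all prime factors are good, the value is one -/
lemma one_of_factors (N : ℕ) (χ : DirichletCharacter ℂ N) (m : ℕ) (hm : m ≠ 0)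
    (h : ∀ l : ℕ, l.Prime → l ∣ m → χ (l : ZMod N) = 1) : χ (m : ZMod N) = 1 := by
  induction m using Nat.recOnMul with
  | zero => exact absurd rfl hm
  | one => simp
  | prime p hp => exact h p hp dvd_rfl
  | mul a b ha hb =>
    have ha0 : a ≠ 0 := fun h0 => hm (by rw [h0, zero_mul])
    have hb0 : b ≠ 0 := fun h0 => hm (by rw [h0, mul_zero])
    push_cast
    rw [map_mul, ha ha0 fun l hl hd => h l hl (hd.mul_right _),
      hb hb0 fun l hl hd => h l hl (hd.mul_left _), one_mul]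

/-- the primes in `(y, X]` outside `E` -/
def LL (E : Finset ℕ) (y X : ℕ) : Finset ℕ := (Ioc y X).filter (fun l => l.Prime ∧ l ∉ E)

theorem TE_lower (N : ℕ) (χ : DirichletCharacter ℂ N) (E : Finset ℕ) (hE : ∀ q ∈ E, q.Prime)
    (y X : ℕ) (hy : ∀ l : ℕ, l.Prime → l ≤ y → l ∉ E → χ (l : ZMod N) = 1) :
    ((cops E X).card : ℝ) - 2 * ∑ l ∈ LL E y X, ((cops E (X / l)).card : ℝ) ≤ ‖TE N χ E X‖ := by
  classical
  have hpt : ∀ m ∈ cops E X, (1 : ℝ) - 2 * (((LL E y X).filter fun l => l ∣ m).card : ℝ) ≤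
      (χ (m : ZMod N)).re := by
    intro m hm
    unfold cops at hm
    rw [mem_filter, mem_Icc] at hm
    obtain ⟨⟨hm1, hm2⟩, hm3⟩ := hm
    by_cases hall : ∀ l : ℕ, l.Prime → l ∣ m → χ (l : ZMod N) = 1
    · rw [one_of_factors N χ m (by omega) hall]
      simp
    · push Not at hall
      obtain ⟨l, hl, hd, hne⟩ := hall
      have hlE : l ∉ E := fun h => hm3 l h hd
      have hlm : l ∈ (LL E y X).filter fun l => l ∣ m := by
        rw [mem_filter, LL, mem_filter, mem_Ioc]
        refine ⟨⟨⟨?_, ?_⟩, hl, hlE⟩, hd⟩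
        · by_contra hc
          exact hne (hy l hl (by omega) hlE)
        · exact (Nat.le_of_dvd (by omega) hd).trans hm2
      have hc : (1 : ℝ) ≤ (((LL E y X).filter fun l => l ∣ m).card : ℝ) := by
        exact_mod_cast Finset.card_pos.2 ⟨l, hlm⟩
      have hre : -1 ≤ (χ (m : ZMod N)).re := by
        have h1 := Complex.abs_re_le_norm (χ (m : ZMod N))
        have h2 := DirichletCharacter.norm_le_one χ (m : ZMod N)
        have := (abs_le.1 (h1.trans h2)).1
        linarith
      linarith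
  have hsum : (∑ m ∈ cops E X, ((1 : ℝ) - 2 * (((LL E y X).filter fun l => l ∣ m).card : ℝ))) ≤
      (TE N χ E X).re := by
    unfold TE
    rw [Complex.re_sum]
    exact sum_le_sum hpt
  have hcount : (∑ m ∈ cops E X, (((LL E y X).filter fun l => l ∣ m).card : ℝ)) =
      ∑ l ∈ LL E y X, ((cops E (X / l)).card : ℝ) := by
    have e1 : (∑ m ∈ cops E X, (((LL E y X).filter fun l => l ∣ m).card : ℝ)) =
        ∑ l ∈ LL E y X, (((cops E X).filter fun m => l ∣ m).card : ℝ) := by
      simp only [Finset.card_filter, Nat.cast_sum]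
      rw [sum_comm]
    rw [e1]
    refine sum_congr rfl fun l hl => ?_
    rw [LL, mem_filter] at hl
    have := fil E hE l hl.2.1 hl.2.2 X (fun _ => (1 : ℝ))
    simpa using this
  have htot : (∑ m ∈ cops E X, ((1 : ℝ) - 2 * (((LL E y X).filter fun l => l ∣ m).card : ℝ))) =
      (cops E X).card - 2 * ∑ m ∈ cops E X, (((LL E y X).filter fun l => l ∣ m).card : ℝ) := by
    rw [sum_sub_distrib, ← mul_sum]
    simp
  have hre : (TE N χ E X).re ≤ ‖TE N χ E X‖ := Complex.re_le_norm _
  rw [← hcount]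
  linarith

/-- the main inequality -/
theorem TE_main (N : ℕ) (χ : DirichletCharacter ℂ N) (E : Finset ℕ) (hE : ∀ q ∈ E, q.Prime)
    (k : ℕ) (hk : E.card ≤ k) (y X : ℕ)
    (hy : ∀ l : ℕ, l.Prime → l ≤ y → l ∉ E → χ (l : ZMod N) = 1) (A : ℝ)
    (hA : ∀ Y ≤ X, ‖shortSum N χ Y‖ ≤ A) (S : ℝ)
    (hS : ∑ l ∈ (Ioc y X).filter Nat.Prime, 1 / (l : ℝ) ≤ S) (hS2 : S ≤ 1 / 2) :
    (X : ℝ) * (1 - 2 * S) ≤ 4 ^ k * (1 + 2 * ((Ioc y X).filter Nat.Prime).card + A) := by
  have h1 := TE_lower N χ E hE y X hy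
  have h2 := TE_bound N χ X A hA E hE X le_rfl
  have hd1 := dens_le E hE
  have hd2 := dens_ge E hE
  have hd0 : 0 ≤ dens E := le_trans (by positivity) hd2
  have hA0 : 0 ≤ A := (norm_nonneg _).trans (hA 0 (Nat.zero_le _))
  have h3 := (abs_le.1 (cops_card E hE X)).1
  have hp1 : (1 : ℝ) ≤ 2 ^ E.card := one_le_pow₀ (by norm_num)
  have hsub : LL E y X ⊆ (Ioc y X).filter Nat.Prime := by
    intro l hl
    rw [LL, mem_filter] at hl
    exact mem_filter.2 ⟨hl.1, hl.2.1⟩
  have h4 : ∑ l ∈ LL E y X, ((cops E (X / l)).card : ℝ) ≤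
      dens E * X * S + 2 ^ E.card * ((Ioc y X).filter Nat.Prime).card := by
    have e1 : ∀ l ∈ LL E y X, ((cops E (X / l)).card : ℝ) ≤
        dens E * X * (1 / (l : ℝ)) + 2 ^ E.card := by
      intro l _
      have h5 := (abs_le.1 (cops_card E hE (X / l))).2
      have h6 : ((X / l : ℕ) : ℝ) ≤ X / l := Nat.cast_div_le
      have h7 := mul_le_mul_of_nonneg_left h6 hd0
      have e2 : dens E * X * (1 / (l : ℝ)) = dens E * ((X : ℝ) / l) := by ring
      rw [e2]
      linarith
    have e3 : ∑ l ∈ LL E y X, (1 / (l : ℝ)) ≤ S :=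
      (sum_le_sum_of_subset_of_nonneg hsub fun _ _ _ => by positivity).trans hS
    have e4 : ((LL E y X).card : ℝ) ≤ ((Ioc y X).filter Nat.Prime).card := by
      exact_mod_cast card_le_card hsub
    calc _ ≤ ∑ l ∈ LL E y X, (dens E * X * (1 / (l : ℝ)) + 2 ^ E.card) := sum_le_sum e1
      _ = dens E * X * ∑ l ∈ LL E y X, (1 / (l : ℝ)) + (LL E y X).card * 2 ^ E.card := by
          rw [sum_add_distrib, ← mul_sum, sum_const, nsmul_eq_mul]
      _ ≤ dens E * X * S + ((Ioc y X).filter Nat.Prime).card * 2 ^ E.card := by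
          have hX0 : (0 : ℝ) ≤ X := Nat.cast_nonneg _
          exact add_le_add (mul_le_mul_of_nonneg_left e3 (by positivity))
            (mul_le_mul_of_nonneg_right e4 (by positivity))
      _ = _ := by ring
  have hX0 : (0 : ℝ) ≤ X := Nat.cast_nonneg _
  have hP0 : (0 : ℝ) ≤ ((Ioc y X).filter Nat.Prime).card := Nat.cast_nonneg _
  have h5 : dens E * (X * (1 - 2 * S)) ≤
      2 ^ E.card * (1 + 2 * ((Ioc y X).filter Nat.Prime).card + A) := by
    nlinarith
  have h6 : (0 : ℝ) ≤ X * (1 - 2 * S) := mul_nonneg hX0 (by linarith)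
  have h7 : (1 / 2 : ℝ) ^ E.card * (X * (1 - 2 * S)) ≤ dens E * (X * (1 - 2 * S)) :=
    mul_le_mul_of_nonneg_right hd2 h6
  have h8 : (X : ℝ) * (1 - 2 * S) ≤
      4 ^ E.card * (1 + 2 * ((Ioc y X).filter Nat.Prime).card + A) := by
    have e5 : (2 : ℝ) ^ E.card * (1 / 2 : ℝ) ^ E.card = 1 := by
      rw [← mul_pow]
      norm_num
    have e6 : (4 : ℝ) ^ E.card = 2 ^ E.card * 2 ^ E.card := by
      rw [← mul_pow]
      norm_num
    calc (X : ℝ) * (1 - 2 * S) = 2 ^ E.card * ((1 / 2 : ℝ) ^ E.card * (X * (1 - 2 * S))) := by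
          rw [← mul_assoc, e5, one_mul]
      _ ≤ 2 ^ E.card * (2 ^ E.card * (1 + 2 * ((Ioc y X).filter Nat.Prime).card + A)) :=
          mul_le_mul_of_nonneg_left (h7.trans h5) (by positivity)
      _ = _ := by
          rw [e6]
          ring
  refine h8.trans (mul_le_mul_of_nonneg_right (pow_le_pow_right₀ (by norm_num) hk) ?_)
  positivity

/-- short sums of a nontrivial character are bounded by the modulus -/
theorem short_le (N : ℕ) [NeZero N] (χ : DirichletCharacter ℂ N) (hχ : χ ≠ 1) (Y : ℕ) :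
    ‖shortSum N χ Y‖ ≤ N := by
  classical
  induction Y using Nat.strong_induction_on with
  | _ Y ih =>
    rcases Nat.lt_or_ge Y N with h | h
    · unfold shortSum
      refine (norm_sum_le _ _).trans ?_
      refine (sum_le_card_nsmul _ _ 1 fun n _ => DirichletCharacter.norm_le_one _ _).trans ?_
      rw [Nat.card_Icc, Nat.add_sub_cancel, nsmul_eq_mul, mul_one]
      exact_mod_cast h.le
    · obtain ⟨Z, rfl⟩ := Nat.exists_eq_add_of_le' h
      have hN : 0 < N := Nat.pos_of_ne_zero (NeZero.ne N)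
      have h0 : shortSum N χ (Z + N) = shortSum N χ Z := by
        unfold shortSum
        have e1 : (Icc 1 (Z + N)) = Icc 1 Z ∪ Ioc Z (Z + N) := by
          ext n
          simp only [mem_Icc, mem_union, mem_Ioc]
          omega
        have e2 : Disjoint (Icc 1 Z) (Ioc Z (Z + N)) := by
          rw [disjoint_left]
          intro n h1 h2
          rw [mem_Icc] at h1
          rw [mem_Ioc] at h2
          omega
        rw [e1, sum_union e2, add_eq_left]
        have e3 : ∑ n ∈ Ioc Z (Z + N), χ (n : ZMod N) = ∑ x : ZMod N, χ x := by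
          refine sum_bij (fun n _ => (n : ZMod N)) (fun _ _ => mem_univ _) ?_ ?_ (fun _ _ => rfl)
          · intro a ha b hb hab
            rw [mem_Ioc] at ha hb
            have h1 := (ZMod.natCast_eq_natCast_iff a b N).1 hab
            rcases le_total a b with hle | hle
            · have h2 := (Nat.modEq_iff_dvd' hle).1 h1
              have h3 : b - a < N := by omega
              have := Nat.eq_zero_of_dvd_of_lt h2 h3
              omega
            · have h2 := (Nat.modEq_iff_dvd' hle).1 h1.symm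
              have h3 : a - b < N := by omega
              have := Nat.eq_zero_of_dvd_of_lt h2 h3
              omega
          · intro x _
            set v := (x - ((Z + 1 : ℕ) : ZMod N)).val with hv
            have hvlt : v < N := ZMod.val_lt _
            refine ⟨Z + 1 + v, ?_, ?_⟩
            · rw [mem_Ioc]
              omega
            · rw [Nat.cast_add, hv, ZMod.natCast_zmod_val]
              ring
        rw [e3]
        exact MulChar.sum_eq_zero_of_ne_one hχ
      rw [h0]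
      exact ih Z (by omega)

end Pool.Agent.Q49.RB
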