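import Pool.Agent.Q49.RB.Burg
import Pool.Agent.Q49.RB.Vin
import Pool.Agent.Helper923.HMertens

set_option autoImplicit false

/-! The least nonresidue with exceptional primes. -/

namespace Pool.Agent.Q49.RB

open Finset Filter

open Pool.Agent.H471R4.BW (shortSum)

theorem pi_small (c : ℝ) (hc : 0 < c) : ∃ X0 : ℕ, ∀ X : ℕ, X0 ≤ X →
    (Nat.primeCounting X : ℝ) ≤ c * X := by
  have h1 := Chebyshev.eventually_primeCounting_le (ε := 1) one_pos
  have h2 : ∀ᶠ x : ℝ in atTop, (Real.log 4 + 1) / c ≤ Real.log x :=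
    Real.tendsto_log_atTop.eventually_ge_atTop _
  have h3 := tendsto_natCast_atTop_atTop.eventually (h1.and (h2.and (eventually_gt_atTop 1)))
  obtain ⟨X0, hX0⟩ := eventually_atTop.1 h3
  refine ⟨X0, fun X hX => ?_⟩
  obtain ⟨h4, h5, h6⟩ := hX0 X hX
  rw [Nat.floor_natCast] at h4
  refine h4.trans ?_
  have hlog : 0 < Real.log X := Real.log_pos h6
  rw [div_le_iff₀ hc] at h5
  rw [div_le_iff₀ hlog]
  nlinarith

theorem card_primes_le (y X : ℕ) : (((Ioc y X).filter Nat.Prime).card : ℝ) ≤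
    Nat.primeCounting X := by
  have h2 : Nat.primeCounting X = ((range (X + 1)).filter Nat.Prime).card := by
    rw [Nat.primeCounting, Nat.primeCounting', Nat.count_eq_card_filter_range]
  rw [h2]
  have : (Ioc y X).filter Nat.Prime ⊆ (range (X + 1)).filter Nat.Prime := by
    intro l hl
    rw [mem_filter, mem_Ioc] at hl
    rw [mem_filter, mem_range]
    exact ⟨by omega, hl.2⟩
  exact_mod_cast card_le_card this

/-- the ratio is smaller than `e^{1/2}` -/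
theorem NR_rho (ε : ℝ) (hε : 0 < ε) :
    Real.log ((1 / 4 + 3 * (ε / 4)) / (1 / (4 * Real.exp (1 / 2)) + ε)) < 1 / 2 := by
  have hs : 1 < Real.exp (1 / 2) := Real.one_lt_exp_iff.mpr (by norm_num)
  have hs0 : 0 < Real.exp (1 / 2) := Real.exp_pos _
  rw [Real.log_lt_iff_lt_exp (by positivity), div_lt_iff₀ (by positivity)]
  have e1 : Real.exp (1 / 2) * (1 / (4 * Real.exp (1 / 2)) + ε) =
      1 / 4 + Real.exp (1 / 2) * ε := by
    field_simp
  rw [e1]
  nlinarith [mul_pos (sub_pos.mpr hs) hε]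

theorem short_trivial (N : ℕ) (χ : DirichletCharacter ℂ N) (Y : ℕ) : ‖shortSum N χ Y‖ ≤ Y := by
  unfold shortSum
  refine (norm_sum_le _ _).trans ?_
  refine (sum_le_card_nsmul _ _ 1 fun n _ => DirichletCharacter.norm_le_one _ _).trans ?_
  rw [Nat.card_Icc, Nat.add_sub_cancel, nsmul_eq_mul, mul_one]

theorem NR (ε0 : ℝ) (hε0 : 0 < ε0) (k : ℕ) : ∃ y0 : ℕ, ∀ (m : ℕ) [NeZero m]
    (ψ : DirichletCharacter ℂ 8), Odd m → Squarefree m → m.primeFactors.card ≤ k →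
    chi m ψ ≠ 1 → ∀ (E : Finset ℕ) (y : ℕ), (∀ q ∈ E, q.Prime) → E.card ≤ k → y0 ≤ y →
    (∀ l : ℕ, l.Prime → l ≤ y → l ∉ E → chi m ψ (l : ZMod (8 * m)) = 1) →
    (y : ℝ) ≤ ((8 * m : ℕ) : ℝ) ^ (1 / (4 * Real.exp (1 / 2)) + ε0) := by
  obtain ⟨ε, hεdef⟩ : ∃ ε, ε = min ε0 (1 / 16) := ⟨_, rfl⟩
  have hε : 0 < ε := by rw [hεdef]; exact lt_min hε0 (by norm_num)
  have hεle : ε ≤ ε0 := by rw [hεdef]; exact min_le_left _ _
  have hε16 : ε ≤ 1 / 16 := by rw [hεdef]; exact min_le_right _ _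
  have hrho := NR_rho ε hε
  obtain ⟨b, hb⟩ : ∃ b, b = 1 / (4 * Real.exp (1 / 2)) + ε := ⟨_, rfl⟩
  have hb0 : 0 < b := by rw [hb]; positivity
  have hb1 : b ≤ 1 / 4 := by
    have h1 : (3 / 2 : ℝ) ≤ Real.exp (1 / 2) := by
      have := Real.add_one_le_exp (1 / 2 : ℝ)
      linarith
    have h2 : 1 / (4 * Real.exp (1 / 2)) ≤ 1 / 6 := by
      apply one_div_le_one_div_of_le (by norm_num)
      linarith
    rw [hb]
    linarith
  rw [← hb] at hrho
  obtain ⟨γ, hγ⟩ : ∃ γ, γ = 1 / 2 - Real.log ((1 / 4 + 3 * (ε / 4)) / b) := ⟨_, rfl⟩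
  have hγ0 : 0 < γ := by rw [hγ]; linarith
  have hγ1 : γ ≤ 1 / 2 := by
    have : 0 ≤ Real.log ((1 / 4 + 3 * (ε / 4)) / b) := by
      apply Real.log_nonneg
      rw [one_le_div hb0]
      linarith
    rw [hγ]
    linarith
  obtain ⟨C, hC0, hC⟩ := Pool.Agent.Helper923.HMertens.mertens_ratio
  have h4k : (0 : ℝ) < 4 ^ k := by positivity
  obtain ⟨δ, hδdef⟩ : ∃ δ, δ = min 1 (γ / (4 * 4 ^ k)) := ⟨_, rfl⟩
  have hδ0 : 0 < δ := by rw [hδdef]; exact lt_min one_pos (by positivity)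
  have hδ1 : δ ≤ 1 := by rw [hδdef]; exact min_le_left _ _
  have hδ2 : 4 ^ k * δ ≤ γ / 4 := by
    have h1 : δ ≤ γ / (4 * 4 ^ k) := by rw [hδdef]; exact min_le_right _ _
    rw [le_div_iff₀ (by positivity)] at h1
    linarith
  obtain ⟨X0, hX0⟩ := pi_small (γ / (8 * 4 ^ k)) (by positivity)
  obtain ⟨N0, hN0⟩ := burg δ (ε / 4) hδ0 hδ1 (by positivity) k
  -- the threshold for the modulus
  have hev : ∀ᶠ x : ℝ in atTop, 1 ≤ x ∧ 1 / δ ≤ x ^ (ε / 4) ∧ 2 ≤ x ^ (ε / 4) ∧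
      max (X0 : ℝ) (4 * 4 ^ k / γ) ≤ x ^ (1 / 4 : ℝ) :=
    (eventually_ge_atTop 1).and (((tendsto_rpow_atTop (by positivity)).eventually_ge_atTop _).and
      (((tendsto_rpow_atTop (by positivity)).eventually_ge_atTop _).and
      ((tendsto_rpow_atTop (by norm_num)).eventually_ge_atTop _)))
  obtain ⟨N2, hN2⟩ := eventually_atTop.1 (tendsto_natCast_atTop_atTop.eventually hev)
  obtain ⟨N1, hN1⟩ : ∃ N1, N1 = max N0 N2 := ⟨_, rfl⟩
  -- the threshold for y
  obtain ⟨y1, hy1⟩ := eventually_atTop.1 ((tendsto_natCast_atTop_atTop.eventually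
    (Real.tendsto_log_atTop.eventually_ge_atTop (2 * C / γ + 1))) : ∀ᶠ y : ℕ in atTop,
      2 * C / γ + 1 ≤ Real.log (y : ℝ))
  refine ⟨max 2 (max y1 (4 ^ k * (1 + N1) + 1)), fun m _ ψ hodd hsq hmk hne E y hE hEk hy hgood => ?_⟩
  have hy2 : 2 ≤ y := (le_max_left _ _).trans hy
  have hyy1 : y1 ≤ y := ((le_max_left _ _).trans (le_max_right _ _)).trans hy
  have hyy2 : 4 ^ k * (1 + N1) + 1 ≤ y := ((le_max_right _ _).trans (le_max_right _ _)).trans hy
  rcases Nat.lt_or_ge (8 * m) N1 with hN | hN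
  · exfalso
    have h1 := TE_main (8 * m) (chi m ψ) E hE k hEk y y hgood (8 * m : ℕ)
      (fun Y _ => short_le (8 * m) (chi m ψ) hne Y) 0 (by simp) (by norm_num)
    rw [Finset.Ioc_self, Finset.filter_empty, Finset.card_empty] at h1
    have h2 : (((8 * m : ℕ)) : ℝ) ≤ N1 := by exact_mod_cast hN.le
    have h3 : ((4 ^ k * (1 + N1) + 1 : ℕ) : ℝ) ≤ y := by exact_mod_cast hyy2
    push_cast at h1 h2 h3
    nlinarith
  have hNN0 : N0 ≤ 8 * m := by
    rw [hN1] at hN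
    exact (le_max_left _ _).trans hN
  have hNN2 : N2 ≤ 8 * m := by
    rw [hN1] at hN
    exact (le_max_right _ _).trans hN
  obtain ⟨hNr1, hNδ, hN2', hNX⟩ := hN2 (8 * m) hNN2
  have hburg := hN0 m ψ hodd hsq hmk hNN0
  obtain ⟨N, hNdef⟩ : ∃ N : ℕ, N = 8 * m := ⟨_, rfl⟩
  obtain ⟨R, hR⟩ : ∃ R : ℝ, R = ((8 * m : ℕ) : ℝ) := ⟨_, rfl⟩
  rw [← hR] at hNr1 hNδ hN2' hNX hburg ⊢
  have hRpos : 0 < R := by linarith
  by_contra hcon
  push Not at hcon
  have hyb : R ^ b < y := by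
    refine lt_of_le_of_lt ?_ hcon
    exact Real.rpow_le_rpow_of_exponent_le hNr1 (by rw [hb]; linarith)
  have hypos : (0 : ℝ) < y := by
    have : (2 : ℝ) ≤ y := by exact_mod_cast hy2
    linarith
  have hlogR : 0 ≤ Real.log R := Real.log_nonneg hNr1
  have hlogy : b * Real.log R < Real.log y := by
    have := Real.log_lt_log (Real.rpow_pos_of_pos hRpos b) hyb
    rwa [Real.log_rpow hRpos] at this
  -- X
  obtain ⟨X, hXdef⟩ : ∃ X : ℕ, X = ⌈R ^ (1 / 4 + 2 * (ε / 4))⌉₊ := ⟨_, rfl⟩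
  have hX1 : R ^ (1 / 4 + 2 * (ε / 4)) ≤ X := by rw [hXdef]; exact Nat.le_ceil _
  have hXpow : (X : ℝ) ≤ R ^ (1 / 4 + 3 * (ε / 4)) := by
    have h1 : (X : ℝ) ≤ R ^ (1 / 4 + 2 * (ε / 4)) + 1 := by
      rw [hXdef]; exact (Nat.ceil_lt_add_one (by positivity)).le
    have h2 : (1 : ℝ) ≤ R ^ (1 / 4 + 2 * (ε / 4)) := Real.one_le_rpow hNr1 (by positivity)
    have h4 : R ^ (1 / 4 + 3 * (ε / 4)) = R ^ (ε / 4) * R ^ (1 / 4 + 2 * (ε / 4)) := by
      rw [← Real.rpow_add hRpos]; congr 1; ring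
    rw [h4]
    nlinarith
  have hX2 : (X : ℝ) ≤ Real.sqrt R := by
    rw [Real.sqrt_eq_rpow]
    exact hXpow.trans (Real.rpow_le_rpow_of_exponent_le hNr1 (by linarith))
  have hX3 : max (X0 : ℝ) (4 * 4 ^ k / γ) ≤ X :=
    hNX.trans ((Real.rpow_le_rpow_of_exponent_le hNr1 (by linarith)).trans hX1)
  have hX4 : X0 ≤ X := by exact_mod_cast (le_max_left _ _).trans hX3
  have hX5 : 4 * 4 ^ k / γ ≤ X := (le_max_right _ _).trans hX3
  rw [div_le_iff₀ hγ0] at hX5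
  have hXpos : (0 : ℝ) < X := by
    have h2 : (1 : ℝ) ≤ R ^ (1 / 4 + 2 * (ε / 4)) := Real.one_le_rpow hNr1 (by positivity)
    linarith
  have hXposN : 0 < X := by exact_mod_cast hXpos
  -- uniform bound for the short sums
  have hA : ∀ Y ≤ X, ‖shortSum (8 * m) (chi m ψ) Y‖ ≤ δ * X := by
    intro Y hY
    have hYX : (Y : ℝ) ≤ X := by exact_mod_cast hY
    rcases le_or_gt (R ^ (1 / 4 + ε / 4)) (Y : ℝ) with h | h
    · exact (hburg Y h (hYX.trans hX2)).trans (mul_le_mul_of_nonneg_left hYX hδ0.le)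
    · refine (short_trivial _ _ Y).trans (h.le.trans ?_)
      have h4 : R ^ (1 / 4 + 2 * (ε / 4)) = R ^ (ε / 4) * R ^ (1 / 4 + ε / 4) := by
        rw [← Real.rpow_add hRpos]; congr 1; ring
      have h5 : 0 ≤ R ^ (1 / 4 + ε / 4) := by positivity
      have h6 : 1 ≤ δ * R ^ (ε / 4) := by
        rw [div_le_iff₀ hδ0] at hNδ
        linarith
      calc R ^ (1 / 4 + ε / 4) ≤ δ * R ^ (ε / 4) * R ^ (1 / 4 + ε / 4) :=
            le_mul_of_one_le_left h5 h6
        _ = δ * R ^ (1 / 4 + 2 * (ε / 4)) := by rw [h4]; ring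
        _ ≤ δ * X := mul_le_mul_of_nonneg_left hX1 hδ0.le
  have hS : ∑ l ∈ (Ioc y X).filter Nat.Prime, 1 / (l : ℝ) ≤ 1 / 2 - γ / 2 := by
    rcases le_or_gt X y with hXy | hXy
    · rw [Finset.Ioc_eq_empty_of_le hXy, Finset.filter_empty, Finset.sum_empty]
      linarith
    · have hm := hC y X hy2 hXy.le
      have hm2 := (abs_le.mp hm).2
      have hlogypos : 0 < Real.log y := by
        apply Real.log_pos
        exact_mod_cast (by omega : 1 < y)
      have hlogX : Real.log X ≤ (1 / 4 + 3 * (ε / 4)) * Real.log R := by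
        have := Real.log_le_log hXpos hXpow
        rwa [Real.log_rpow hRpos] at this
      have hlogXpos : 0 < Real.log X := by
        apply Real.log_pos
        have : 1 < X := by omega
        exact_mod_cast this
      have hratio : Real.log X / Real.log y ≤ (1 / 4 + 3 * (ε / 4)) / b := by
        rw [div_le_div_iff₀ hlogypos hb0]
        calc Real.log X * b ≤ ((1 / 4 + 3 * (ε / 4)) * Real.log R) * b := by gcongr
          _ = (1 / 4 + 3 * (ε / 4)) * (b * Real.log R) := by ring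
          _ ≤ (1 / 4 + 3 * (ε / 4)) * Real.log y := by gcongr
      have hlr : Real.log (Real.log X / Real.log y) ≤ 1 / 2 - γ := by
        rw [hγ]
        have := Real.log_le_log (div_pos hlogXpos hlogypos) hratio
        linarith
      have hCy : C / Real.log y ≤ γ / 2 := by
        rw [div_le_iff₀ hlogypos]
        have h5 := hy1 y hyy1
        have h6 : 2 * C / γ ≤ Real.log y := by linarith
        rw [div_le_iff₀ hγ0] at h6
        linarith
      linarith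
  have h1 := TE_main (8 * m) (chi m ψ) E hE k hEk y X hgood (δ * X) hA (1 / 2 - γ / 2) hS
    (by linarith)
  have h2 := card_primes_le y X
  have h3 := hX0 X hX4
  have h5 : 4 ^ k * (2 * (((Ioc y X).filter Nat.Prime).card : ℝ)) ≤ γ / 4 * X := by
    have h6 : (((Ioc y X).filter Nat.Prime).card : ℝ) ≤ γ / (8 * 4 ^ k) * X := h2.trans h3
    calc 4 ^ k * (2 * (((Ioc y X).filter Nat.Prime).card : ℝ)) ≤
        4 ^ k * (2 * (γ / (8 * 4 ^ k) * X)) := by gcongr
      _ = γ / 4 * X := by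
          field_simp
          ring
  have h7 : 4 ^ k * (δ * X) ≤ γ / 4 * X := by
    calc 4 ^ k * (δ * X) = (4 ^ k * δ) * X := by ring
      _ ≤ γ / 4 * X := mul_le_mul_of_nonneg_right hδ2 hXpos.le
  nlinarith

end Pool.Agent.Q49.RB
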