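import Pool.Agent.Q49.RB.Crt

set_option autoImplicit false

/-! Quadratic reciprocity: `n ↦ (s / n)` is one of the characters `chi m ψ`. -/

namespace Pool.Agent.Q49.RB

open Finset

open Pool.Agent.H471R4.BW (jchar jchar_apply)

/-- the character modulo four -/
noncomputable def chi4 : DirichletCharacter ℂ 8 where
  toFun x := ((ZMod.χ₄ (ZMod.castHom (by norm_num : 4 ∣ 8) (ZMod 4) x) : ℤ) : ℂ)
  map_one' := by simp
  map_mul' x y := by
    simp only [map_mul]
    push_cast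
    rfl
  map_nonunit' x hx := by
    by_contra hcon
    have h1 : ZMod.χ₄ (ZMod.castHom (by norm_num : 4 ∣ 8) (ZMod 4) x) ≠ 0 := by
      intro h
      apply hcon
      rw [h]
      simp
    have h3 : IsUnit (ZMod.castHom (by norm_num : 4 ∣ 8) (ZMod 4) x) := by
      by_contra h
      exact h1 (MulChar.map_nonunit _ h)
    apply hx
    have hx' : x = ((x.val : ℕ) : ZMod 8) := (ZMod.natCast_zmod_val x).symm
    rw [hx', map_natCast] at h3
    rw [hx']
    rw [ZMod.isUnit_iff_coprime] at h3 ⊢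
    have h5 : Nat.Coprime x.val 2 := Nat.Coprime.coprime_dvd_right (by norm_num) h3
    have h6 : Nat.Coprime x.val (2 ^ 3) := Nat.Coprime.pow_right 3 h5
    simpa using h6

theorem chi4_apply (n : ℕ) : chi4 (n : ZMod 8) = ((ZMod.χ₄ (n : ZMod 4) : ℤ) : ℂ) := by
  have : chi4 (n : ZMod 8) =
      ((ZMod.χ₄ (ZMod.castHom (by norm_num : 4 ∣ 8) (ZMod 4) (n : ZMod 8)) : ℤ) : ℂ) := rfl
  rw [this, map_natCast]

/-- the character `(2 / n)` -/
noncomputable def chi8 : DirichletCharacter ℂ 8 := ZMod.χ₈.ringHomComp (Int.castRingHom ℂ)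

theorem chi8_apply (n : ℕ) : chi8 (n : ZMod 8) = ((ZMod.χ₈ (n : ZMod 8) : ℤ) : ℂ) := rfl

theorem coprime8 {n : ℕ} (hn : Odd n) : Nat.Coprime n 8 := by
  have : Nat.Coprime n (2 ^ 3) := Nat.Coprime.pow_right 3 (Nat.coprime_two_right.2 hn)
  simpa using this

theorem rec (σ : ℤ) (hσ : σ = 1 ∨ σ = -1) (i m : ℕ) (hm : Odd m) :
    ∃ ψ : DirichletCharacter ℂ 8, ∀ n : ℕ, Odd n →
      ((jacobiSym (σ * 2 ^ i * m) n : ℤ) : ℂ) = ψ (n : ZMod 8) * ((jacobiSym (n : ℤ) m : ℤ) : ℂ) := by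
  obtain ⟨e, he⟩ : ∃ e : ℕ, ∀ n : ℕ, Odd n → jacobiSym σ n = (ZMod.χ₄ (n : ZMod 4)) ^ e := by
    rcases hσ with h | h
    · exact ⟨0, fun n _ => by rw [h, jacobiSym.one_left, pow_zero]⟩
    · exact ⟨1, fun n hn => by rw [h, jacobiSym.at_neg_one hn, pow_one]⟩
  refine ⟨chi4 ^ (e + m / 2) * chi8 ^ i, fun n hn => ?_⟩
  have h1 : jacobiSym (σ * 2 ^ i * m) n = (ZMod.χ₄ (n : ZMod 4)) ^ (e + m / 2) *
      (ZMod.χ₈ (n : ZMod 8)) ^ i * jacobiSym (n : ℤ) m := by
    rw [jacobiSym.mul_left, jacobiSym.mul_left, jacobiSym.pow_left, he n hn,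
      jacobiSym.at_two hn, jacobiSym.quadratic_reciprocity' hm hn, qrSign.neg_one_pow hn hm,
      pow_mul, ← ZMod.χ₄_eq_neg_one_pow (Nat.odd_iff.1 hn), pow_add]
    ring
  have hu : IsUnit (n : ZMod 8) := (ZMod.isUnit_iff_coprime n 8).2 (coprime8 hn)
  obtain ⟨u, hu'⟩ := hu
  rw [h1, MulChar.mul_apply, ← hu', MulChar.pow_apply_coe, MulChar.pow_apply_coe, hu',
    chi4_apply, chi8_apply]
  push_cast
  ring

theorem chi_ne_one_of_gt (m : ℕ) [NeZero m] (ψ : DirichletCharacter ℂ 8) (hodd : Odd m)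
    (hsq : Squarefree m) (hm1 : m ≠ 1) : chi m ψ ≠ 1 := by
  intro h
  set p := m.minFac with hp
  have hpp : p.Prime := Nat.minFac_prime hm1
  obtain ⟨m', hm'⟩ : p ∣ m := Nat.minFac_dvd m
  have hco : Nat.Coprime p m' := by
    rw [hm'] at hsq
    exact Nat.coprime_of_squarefree_mul hsq
  have hm0 : m' ≠ 0 := by
    rintro rfl
    exact NeZero.ne m (by rw [hm', mul_zero])
  have hoddp : Odd p := by
    rw [hm', Nat.odd_mul] at hodd
    exact hodd.1
  have hp2 : p ≠ 2 := by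
    rintro h2
    rw [h2] at hoddp
    exact absurd hoddp (by decide)
  have : Fact p.Prime := ⟨hpp⟩
  obtain ⟨a, ha⟩ := FiniteField.exists_nonsquare (F := ZMod p) (by rwa [ZMod.ringChar_zmod_n])
  have hco2 : Nat.Coprime p (8 * m') :=
    Nat.Coprime.mul_right (coprime8 hoddp) hco
  obtain ⟨n, hn1, hn2⟩ := Nat.chineseRemainder hco2 a.val 1
  have hn8 : (n : ZMod 8) = 1 := by
    have h1 : n ≡ 1 [MOD 8] := Nat.ModEq.of_mul_right m' hn2
    have := (ZMod.natCast_eq_natCast_iff n 1 8).2 h1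
    simpa using this
  have hnp : (n : ZMod p) = a := by
    have := (ZMod.natCast_eq_natCast_iff n a.val p).2 hn1
    rwa [ZMod.natCast_zmod_val] at this
  have hj1 : jacobiSym (n : ℤ) p = -1 := by
    rw [← jacobiSym.legendreSym.to_jacobiSym, legendreSym.eq_neg_one_iff]
    push_cast
    rwa [hnp]
  have hj2 : jacobiSym (n : ℤ) m' = 1 := by
    have h1 : n ≡ 1 [MOD m'] := Nat.ModEq.of_mul_left 8 hn2
    rw [jacobiSym.mod_left]
    have h2 : ((n : ℤ) % m') = ((1 : ℤ) % m') := by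
      exact_mod_cast h1
    rw [h2, ← jacobiSym.mod_left, jacobiSym.one_left]
  have hcu : IsUnit (n : ZMod (8 * m)) := by
    rw [ZMod.isUnit_iff_coprime]
    have h1 : Nat.Coprime n (8 * m') := by
      have := hn2.gcd_eq
      rw [Nat.gcd_one_left] at this
      exact this
    have h2 : Nat.Coprime n p := by
      rw [Nat.coprime_comm, Nat.Prime.coprime_iff_not_dvd hpp]
      intro hd
      have h3 : (n : ZMod p) = 0 := (ZMod.natCast_eq_zero_iff n p).2 hd
      rw [hnp] at h3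
      apply ha
      rw [h3]
      exact IsSquare.zero
    rw [hm', show 8 * (p * m') = p * (8 * m') by ring]
    exact Nat.Coprime.mul_right h2 h1
  have h1 := chi_apply m ψ n
  rw [h, MulChar.one_apply hcu, hn8, map_one, one_mul] at h1
  have h2 : jacobiSym (n : ℤ) m = -1 := by
    rw [hm', jacobiSym.mul_right' _ hpp.ne_zero hm0, hj1, hj2]
    norm_num
  rw [h2] at h1
  norm_num at h1

theorem chi_ne_one (m : ℕ) [NeZero m] (ψ : DirichletCharacter ℂ 8) (hodd : Odd m)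
    (hsq : Squarefree m) (σ : ℤ) (hσ : σ = 1 ∨ σ = -1) (i : ℕ) (hi : i = 0 ∨ i = 1)
    (hs : σ * 2 ^ i * m ≠ 1)
    (hψ : ∀ n : ℕ, Odd n →
      ((jacobiSym (σ * 2 ^ i * m) n : ℤ) : ℂ) = ψ (n : ZMod 8) * ((jacobiSym (n : ℤ) m : ℤ) : ℂ)) :
    chi m ψ ≠ 1 := by
  by_cases hm1 : m = 1
  · subst hm1
    intro h
    have key : ∀ n : ℕ, Odd n → jacobiSym (σ * 2 ^ i * ((1 : ℕ) : ℤ)) n = 1 := by
      intro n hn
      have h1 := chi_apply 1 ψ n
      rw [← hψ n hn, h, MulChar.one_apply] at h1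
      · exact_mod_cast h1.symm
      · rw [ZMod.isUnit_iff_coprime, mul_one]
        exact coprime8 hn
    rcases hσ with h1 | h1 <;> rcases hi with h2 | h2 <;> subst h1 <;> subst h2
    · exact hs (by norm_num)
    · have := key 3 (by decide)
      norm_num at this
    · have := key 3 (by decide)
      norm_num at this
    · have := key 5 (by decide)
      norm_num at this
  · exact chi_ne_one_of_gt m ψ hodd hsq hm1

end Pool.Agent.Q49.RB
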