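import Pool.Agent.Q49.RB.Loc3
import Pool.Agent.Q49.RB.NR
import Pool.Agent.Q49.RB.Rec

set_option autoImplicit false

/-! Lower bound for the discriminant of the Chern classes. -/

namespace Pool.Agent.Q49.RB

open Finset

/-- decomposition of a nonzero integer -/
theorem decomp (Δ : ℤ) (h0 : Δ ≠ 0) : ∃ (σ : ℤ) (i m t : ℕ), (σ = 1 ∨ σ = -1) ∧
    (i = 0 ∨ i = 1) ∧ Odd m ∧ Squarefree m ∧ t ≠ 0 ∧ Δ = σ * 2 ^ i * m * (t : ℤ) ^ 2 := by
  obtain ⟨a, b, hab, hsq⟩ := Nat.sq_mul_squarefree Δ.natAbs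
  have hN0 : Δ.natAbs ≠ 0 := Int.natAbs_ne_zero.2 h0
  have hb0 : b ≠ 0 := by
    rintro rfl
    apply hN0
    rw [← hab]
    ring
  obtain ⟨σ, hσ, hσ'⟩ : ∃ σ : ℤ, (σ = 1 ∨ σ = -1) ∧ Δ = σ * Δ.natAbs := by
    rcases Int.natAbs_eq Δ with h | h
    · exact ⟨1, Or.inl rfl, by rw [one_mul]; exact h⟩
    · exact ⟨-1, Or.inr rfl, by rw [neg_one_mul]; exact h⟩
  rcases Nat.even_or_odd a with he | ho
  · obtain ⟨m, hm⟩ := he
    have hm2 : a = 2 * m := by omega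
    refine ⟨σ, 1, m, b, hσ, Or.inr rfl, ?_, ?_, hb0, ?_⟩
    · rw [← Nat.not_even_iff_odd]
      rintro ⟨m', hm'⟩
      have h1 : 2 * 2 ∣ a := ⟨m', by omega⟩
      have h2 := hsq 2 h1
      rw [Nat.isUnit_iff] at h2
      omega
    · exact hsq.squarefree_of_dvd ⟨2, by omega⟩
    · rw [hσ', ← hab, hm2]
      push_cast
      ring
  · refine ⟨σ, 0, a, b, hσ, Or.inl rfl, ho, hsq, hb0, ?_⟩
    rw [hσ', ← hab]
    push_cast
    ring

theorem not_dvd_sigma {p : ℕ} (hp : p.Prime) (hp2 : p ≠ 2) {σ : ℤ} (hσ : σ = 1 ∨ σ = -1) (i : ℕ) :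
    ¬ (p : ℤ) ∣ σ * 2 ^ i := by
  have hpi : Prime (p : ℤ) := Nat.prime_iff_prime_int.1 hp
  intro h
  rcases hpi.dvd_or_dvd h with h | h
  · have h1 : (p : ℤ) ∣ 1 := by
      rcases hσ with h2 | h2
      · rwa [h2] at h
      · rw [h2] at h
        exact (dvd_neg).1 h
    have := Int.le_of_dvd one_pos h1
    have := hp.two_le
    omega
  · have h1 : (p : ℤ) ∣ 2 := hpi.dvd_of_dvd_pow h
    have h2 : p ∣ 2 := by exact_mod_cast h1
    exact hp2 ((Nat.prime_dvd_prime_iff_eq hp Nat.prime_two).1 h2)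

/-- a bad prime divides the discriminant to a high power -/
theorem big (n : ℕ) (c1 c2 : ℤ) (δ : Fin 2 → ℂ) (hs : δ 0 + δ 1 = c1) (hm : δ 0 * δ 1 = c2)
    (hI : Integral n (fun _ : Fin 2 => 1) δ) (σ : ℤ) (i m t : ℕ) (hσ : σ = 1 ∨ σ = -1)
    (hodd : Odd m) (hsq : Squarefree m) (ht : t ≠ 0)
    (hΔ : c1 ^ 2 - 4 * c2 = σ * 2 ^ i * m * (t : ℤ) ^ 2) (p : ℕ) (hp : p.Prime) (hp2 : p ≠ 2)
    (hj : jacobiSym (σ * 2 ^ i * m) p ≠ 1) (hpn : 2 * p ≤ n ∨ p ∣ m) :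
    ∃ v : ℕ, p ^ v ∣ (c1 ^ 2 - 4 * c2).natAbs ∧ n ≤ 2 * p ^ v := by
  haveI : Fact p.Prime := ⟨hp⟩
  have hpi : Prime (p : ℤ) := Nat.prime_iff_prime_int.1 hp
  obtain ⟨j, t', hpt', htj⟩ := Nat.exists_eq_pow_mul_and_not_dvd ht p hp.ne_one
  have hpt'' : ¬ (p : ℤ) ∣ (t' : ℤ) := by exact_mod_cast hpt'
  by_cases hpm : p ∣ m
  · obtain ⟨m', hm'⟩ := hpm
    have hco : Nat.Coprime p m' := by
      rw [hm'] at hsq
      exact Nat.coprime_of_squarefree_mul hsq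
    have hpm' : ¬ (p : ℤ) ∣ (m' : ℤ) := by
      have : ¬ p ∣ m' := (Nat.Prime.coprime_iff_not_dvd hp).1 hco
      exact_mod_cast this
    have hD : c1 ^ 2 - 4 * c2 = (p : ℤ) ^ (2 * j) * (p * (σ * 2 ^ i * m' * (t' : ℤ) ^ 2)) := by
      rw [hΔ, hm', htj]
      push_cast
      ring
    have hpD : ¬ (p : ℤ) ∣ σ * 2 ^ i * m' * (t' : ℤ) ^ 2 := by
      intro h
      rcases hpi.dvd_or_dvd h with h | h
      · rcases hpi.dvd_or_dvd h with h | h
        · exact not_dvd_sigma hp hp2 hσ i h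
        · exact hpm' h
      · exact hpt'' (hpi.dvd_of_dvd_pow h)
    have h1 := ramified n c1 c2 δ hs hm hI hp hp2 j _ hD hpD
    refine ⟨2 * j + 1, ?_, ?_⟩
    · rw [← Int.natCast_dvd_natCast, Int.dvd_natAbs, hD]
      push_cast
      exact ⟨σ * 2 ^ i * m' * (t' : ℤ) ^ 2, by ring⟩
    · have h2 : p * p ^ j ≤ p ^ (2 * j + 1) := by
        rw [← pow_succ']
        exact Nat.pow_le_pow_right hp.pos (by omega)
      omega
  · have hD : c1 ^ 2 - 4 * c2 = (p : ℤ) ^ (2 * j) * (σ * 2 ^ i * m * (t' : ℤ) ^ 2) := by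
      rw [hΔ, htj]
      push_cast
      ring
    have ht0 : ((t' : ℤ) : ZMod p) ≠ 0 := by
      rw [Ne, ZMod.intCast_zmod_eq_zero_iff_dvd]
      exact hpt''
    have hsp : ¬ IsSquare ((σ * 2 ^ i * m : ℤ) : ZMod p) := by
      rw [← legendreSym.eq_neg_one_iff]
      rw [← jacobiSym.legendreSym.to_jacobiSym] at hj
      have hs0 : ((σ * 2 ^ i * m : ℤ) : ZMod p) ≠ 0 := by
        rw [Ne, ZMod.intCast_zmod_eq_zero_iff_dvd]
        intro h
        rcases hpi.dvd_or_dvd h with h | h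
        · exact not_dvd_sigma hp hp2 hσ i h
        · exact hpm (by exact_mod_cast h)
      rcases legendreSym.eq_one_or_neg_one p hs0 with h | h
      · exact absurd h hj
      · exact h
    have hDs : ¬ IsSquare ((σ * 2 ^ i * m * (t' : ℤ) ^ 2 : ℤ) : ZMod p) := by
      rintro ⟨z, hz⟩
      apply hsp
      refine ⟨z * ((t' : ℤ) : ZMod p)⁻¹, ?_⟩
      have h1 : ((σ * 2 ^ i * m * (t' : ℤ) ^ 2 : ℤ) : ZMod p) =
          ((σ * 2 ^ i * m : ℤ) : ZMod p) * ((t' : ℤ) : ZMod p) ^ 2 := by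
        push_cast
        ring
      rw [h1] at hz
      have h2 : ((t' : ℤ) : ZMod p) * ((t' : ℤ) : ZMod p)⁻¹ = 1 := mul_inv_cancel₀ ht0
      calc ((σ * 2 ^ i * m : ℤ) : ZMod p) =
          ((σ * 2 ^ i * m : ℤ) : ZMod p) *
            (((t' : ℤ) : ZMod p) * ((t' : ℤ) : ZMod p)⁻¹) ^ 2 := by
            rw [h2, one_pow, mul_one]
        _ = ((σ * 2 ^ i * m : ℤ) : ZMod p) * ((t' : ℤ) : ZMod p) ^ 2 *
            (((t' : ℤ) : ZMod p)⁻¹) ^ 2 := by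
            rw [mul_pow]
            ring
        _ = z * z * (((t' : ℤ) : ZMod p)⁻¹) ^ 2 := by
            rw [hz]
        _ = _ := by ring
    have h1 := inert n c1 c2 δ hs hm hI hp hp2 j _ hD hDs
    refine ⟨2 * j, ?_, ?_⟩
    · rw [← Int.natCast_dvd_natCast, Int.dvd_natAbs, hD]
      push_cast
      exact ⟨σ * 2 ^ i * m * (t' : ℤ) ^ 2, by ring⟩
    · have hpn' : 2 * p ≤ n := hpn.resolve_right hpm
      have hp1 := hp.two_le
      have hj0 : j ≠ 0 := by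
        rintro rfl
        rw [pow_zero, one_mul] at h1
        omega
      have h2 : p ^ j * (p + 1) ≤ 2 * p ^ (j + 1) := by
        rw [pow_succ]
        nlinarith [Nat.pos_of_ne_zero (pow_ne_zero j hp.ne_zero)]
      have h3 : p ^ (j + 1) ≤ p ^ (2 * j) := Nat.pow_le_pow_right hp.pos (by omega)
      omega

/-- few primes can divide a small number to high powers -/
theorem few (n M : ℕ) (hn : 256 < n) (hM0 : M ≠ 0) (hM : M ≤ n ^ 7) (Q : Finset ℕ)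
    (hQ : ∀ p ∈ Q, p.Prime ∧ ∃ v : ℕ, p ^ v ∣ M ∧ n ≤ 2 * p ^ v) : Q.card ≤ 7 := by
  by_contra hcon
  push Not at hcon
  obtain ⟨R, hRQ, hR⟩ := exists_subset_card_eq (show 8 ≤ Q.card by omega)
  have hQ' : ∀ p, ∃ v : ℕ, p ∈ R → p ^ v ∣ M ∧ n ≤ 2 * p ^ v := by
    intro p
    by_cases h : p ∈ R
    · obtain ⟨v, hv⟩ := (hQ p (hRQ h)).2
      exact ⟨v, fun _ => hv⟩
    · exact ⟨0, fun h' => absurd h' h⟩
  choose v hv using hQ'
  have h1 : ∏ p ∈ R, p ^ v p ∣ M := by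
    refine Finset.prod_dvd_of_isRelPrime ?_ fun p hp => (hv p hp).1
    intro p hp q hq hpq
    have h2 := (Nat.coprime_primes (hQ p (hRQ hp)).1 (hQ q (hRQ hq)).1).2 hpq
    exact (Nat.coprime_iff_isRelPrime).1 (Nat.Coprime.pow _ _ h2)
  have h2 : ∏ p ∈ R, p ^ v p ≤ M := Nat.le_of_dvd (Nat.pos_of_ne_zero hM0) h1
  have h3 : ∏ _p ∈ R, n ≤ ∏ p ∈ R, 2 * p ^ v p := prod_le_prod' fun p hp => (hv p hp).2
  rw [prod_const, hR, prod_mul_distrib, prod_const, hR] at h3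
  have h4 : n ^ 8 ≤ 2 ^ 8 * n ^ 7 := h3.trans (Nat.mul_le_mul_left _ (h2.trans hM))
  have h5 : n ^ 8 = n * n ^ 7 := by ring
  rw [h5] at h4
  have h6 : 0 < n ^ 7 := by positivity
  have h7 := Nat.le_of_mul_le_mul_right h4 h6
  omega

theorem T1core (n : ℕ) (hn : 256 < n) (c1 c2 : ℤ) (δ : Fin 2 → ℂ) (hs : δ 0 + δ 1 = c1)
    (hm : δ 0 * δ 1 = c2) (hI : Integral n (fun _ : Fin 2 => 1) δ)
    (hns : ¬ IsSquare (c1 ^ 2 - 4 * c2)) (hle : (c1 ^ 2 - 4 * c2).natAbs ≤ n ^ 7) :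
    ∃ (m : ℕ) (_ : NeZero m) (ψ : DirichletCharacter ℂ 8), Odd m ∧ Squarefree m ∧
      m.primeFactors.card ≤ 8 ∧ chi m ψ ≠ 1 ∧ m ≤ (c1 ^ 2 - 4 * c2).natAbs ∧
      ∃ E : Finset ℕ, (∀ q ∈ E, q.Prime) ∧ E.card ≤ 8 ∧
        ∀ l : ℕ, l.Prime → l ≤ n / 2 → l ∉ E → chi m ψ (l : ZMod (8 * m)) = 1 := by
  classical
  have h0 : c1 ^ 2 - 4 * c2 ≠ 0 := by
    intro h
    exact hns (by rw [h]; exact IsSquare.zero)
  obtain ⟨σ, i, m, t, hσ, hi, hodd, hsq, ht, hΔ⟩ := decomp _ h0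
  have hm0 : m ≠ 0 := by
    rintro rfl
    exact absurd hodd (by decide)
  have hmz : NeZero m := ⟨hm0⟩
  obtain ⟨ψ, hψ⟩ := rec σ hσ i m hodd
  have hs1 : σ * 2 ^ i * (m : ℤ) ≠ 1 := by
    intro h
    apply hns
    rw [hΔ, h, one_mul]
    exact ⟨t, by ring⟩
  have hne := chi_ne_one m ψ hodd hsq σ hσ i hi hs1 hψ
  set Q : Finset ℕ := ((range (n / 2 + 1)) ∪ m.primeFactors).filter
    (fun p => p.Prime ∧ p ≠ 2 ∧ jacobiSym (σ * 2 ^ i * m) p ≠ 1) with hQ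
  have hQ7 : Q.card ≤ 7 := by
    refine few n (c1 ^ 2 - 4 * c2).natAbs hn (Int.natAbs_ne_zero.2 h0) hle Q fun p hp => ?_
    rw [hQ, mem_filter, mem_union, mem_range] at hp
    obtain ⟨h1, h2, h3, h4⟩ := hp
    refine ⟨h2, big n c1 c2 δ hs hm hI σ i m t hσ hodd hsq ht hΔ p h2 h3 h4 ?_⟩
    rcases h1 with h | h
    · left
      omega
    · right
      exact Nat.dvd_of_mem_primeFactors h
  have hsub : m.primeFactors ⊆ Q := by
    intro p hp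
    have hpp := Nat.prime_of_mem_primeFactors hp
    have hpd := Nat.dvd_of_mem_primeFactors hp
    rw [hQ, mem_filter, mem_union]
    refine ⟨Or.inr hp, hpp, ?_, ?_⟩
    · rintro rfl
      obtain ⟨c, hc⟩ := hpd
      rw [hc] at hodd
      exact absurd hodd (by simp)
    · haveI : Fact p.Prime := ⟨hpp⟩
      rw [← jacobiSym.legendreSym.to_jacobiSym]
      have h1 : legendreSym p (σ * 2 ^ i * m) = 0 := by
        rw [legendreSym.eq_zero_iff, ZMod.intCast_zmod_eq_zero_iff_dvd]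
        exact Dvd.dvd.mul_left (by exact_mod_cast hpd) _
      rw [h1]
      norm_num
  refine ⟨m, hmz, ψ, hodd, hsq, ((card_le_card hsub).trans hQ7).trans (by norm_num), hne, ?_,
    insert 2 Q, ?_, ?_, ?_⟩
  · refine Nat.le_of_dvd (Int.natAbs_pos.2 h0) ?_
    rw [← Int.natCast_dvd_natCast, Int.dvd_natAbs, hΔ]
    exact ⟨σ * 2 ^ i * (t : ℤ) ^ 2, by ring⟩
  · intro q hq
    rw [mem_insert] at hq
    rcases hq with h | h
    · rw [h]
      exact Nat.prime_two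
    · rw [hQ, mem_filter] at h
      exact h.2.1
  · exact (card_insert_le _ _).trans (by omega)
  · intro l hl hln hlE
    rw [mem_insert, not_or] at hlE
    have hlo : Odd l := hl.odd_of_ne_two hlE.1
    rw [chi_apply, ← hψ l hlo]
    by_contra hcon
    apply hlE.2
    rw [hQ, mem_filter, mem_union, mem_range]
    refine ⟨Or.inl (by omega), hl, hlE.1, fun h => hcon ?_⟩
    rw [h]
    norm_num

theorem exp_half_bounds : (3 / 2 : ℝ) ≤ Real.exp (1 / 2) ∧ Real.exp (1 / 2) ≤ 7 / 4 := by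
  constructor
  · have := Real.add_one_le_exp (1 / 2 : ℝ)
    linarith
  · have h1 : Real.exp (1 / 2) * Real.exp (1 / 2) = Real.exp 1 := by
      rw [← Real.exp_add]
      norm_num
    have h2 := Real.exp_one_lt_d9
    have h3 := Real.exp_pos (1 / 2)
    nlinarith

/-- **Lower bound for the discriminant.** -/
theorem T1num (ε : ℝ) (hε : 0 < ε) : ∃ n0 : ℕ, ∀ n : ℕ, n0 ≤ n → ∀ (c1 c2 : ℤ) (δ : Fin 2 → ℂ),
    δ 0 + δ 1 = c1 → δ 0 * δ 1 = c2 → Integral n (fun _ : Fin 2 => 1) δ →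
    ¬ IsSquare (c1 ^ 2 - 4 * c2) →
    (n : ℝ) ^ (4 * Real.exp (1 / 2) - ε) ≤ |((c1 ^ 2 - 4 * c2 : ℤ) : ℝ)| := by
  obtain ⟨hq1, hq2⟩ := exp_half_bounds
  obtain ⟨ε1, hε1⟩ : ∃ ε1, ε1 = min ε 1 := ⟨_, rfl⟩
  have hε10 : 0 < ε1 := by rw [hε1]; exact lt_min hε one_pos
  have hε11 : ε1 ≤ 1 := by rw [hε1]; exact min_le_right _ _
  have hε1le : ε1 ≤ ε := by rw [hε1]; exact min_le_left _ _
  obtain ⟨q, hq⟩ : ∃ q, q = 4 * Real.exp (1 / 2) := ⟨_, rfl⟩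
  have hq6 : 6 ≤ q := by rw [hq]; linarith
  have hq7 : q ≤ 7 := by rw [hq]; linarith
  obtain ⟨y0, hy0⟩ := NR (ε1 / 98) (by positivity) 8
  have hev : ∀ᶠ x : ℝ in Filter.atTop, 24 < x ^ (ε1 / 14) :=
    (tendsto_rpow_atTop (by positivity)).eventually_gt_atTop _
  obtain ⟨n1, hn1⟩ := Filter.eventually_atTop.1 (tendsto_natCast_atTop_atTop.eventually hev)
  refine ⟨max n1 (max 257 (2 * y0)), fun n hn c1 c2 δ hs hm hI hns => ?_⟩
  have hnn1 : n1 ≤ n := (le_max_left _ _).trans hn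
  have hn257 : 257 ≤ n := ((le_max_left _ _).trans (le_max_right _ _)).trans hn
  have hny : 2 * y0 ≤ n := ((le_max_right _ _).trans (le_max_right _ _)).trans hn
  have hnR : (257 : ℝ) ≤ n := by exact_mod_cast hn257
  have hn1' : (1 : ℝ) ≤ n := by linarith
  have hnpos : (0 : ℝ) < n := by linarith
  by_contra hcon
  push Not at hcon
  obtain ⟨D, hD⟩ : ∃ D : ℕ, D = (c1 ^ 2 - 4 * c2).natAbs := ⟨_, rfl⟩
  have hDabs : |((c1 ^ 2 - 4 * c2 : ℤ) : ℝ)| = D := by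
    rw [hD, Nat.cast_natAbs, Int.cast_abs]
  rw [hDabs] at hcon
  have hcon' : (D : ℝ) < (n : ℝ) ^ (q - ε1) := by
    refine lt_of_lt_of_le hcon ?_
    rw [hq]
    exact Real.rpow_le_rpow_of_exponent_le hn1' (by linarith)
  have hle : (c1 ^ 2 - 4 * c2).natAbs ≤ n ^ 7 := by
    rw [← hD]
    have h1 : (n : ℝ) ^ (q - ε1) ≤ (n : ℝ) ^ (7 : ℝ) :=
      Real.rpow_le_rpow_of_exponent_le hn1' (by linarith)
    have h2 : (n : ℝ) ^ (7 : ℝ) = ((n ^ 7 : ℕ) : ℝ) := by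
      push_cast
      exact_mod_cast Real.rpow_natCast (n : ℝ) 7
    rw [h2] at h1
    exact_mod_cast (hcon'.le.trans h1)
  obtain ⟨m, hmz, ψ, hodd, hsq, hmk, hne, hmD, E, hE, hEk, hgood⟩ :=
    T1core n (by omega) c1 c2 δ hs hm hI hns hle
  have hkey := hy0 m ψ hodd hsq hmk hne E (n / 2) hE hEk (by omega) hgood
  rw [← hD] at hmD
  have hmD' : ((8 * m : ℕ) : ℝ) ≤ 8 * (n : ℝ) ^ (q - ε1) := by
    push_cast
    have : (m : ℝ) ≤ D := by exact_mod_cast hmD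
    linarith
  have hb0 : 0 < 1 / (4 * Real.exp (1 / 2)) + ε1 / 98 := by positivity
  have hb1 : 1 / (4 * Real.exp (1 / 2)) + ε1 / 98 ≤ 1 := by
    have : 1 / (4 * Real.exp (1 / 2)) ≤ 1 / 6 := by
      apply one_div_le_one_div_of_le (by norm_num)
      linarith
    linarith
  have h8 : ((8 * m : ℕ) : ℝ) ^ (1 / (4 * Real.exp (1 / 2)) + ε1 / 98) ≤
      8 * (n : ℝ) ^ (1 - ε1 / 14) := by
    calc ((8 * m : ℕ) : ℝ) ^ (1 / (4 * Real.exp (1 / 2)) + ε1 / 98) ≤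
        (8 * (n : ℝ) ^ (q - ε1)) ^ (1 / (4 * Real.exp (1 / 2)) + ε1 / 98) :=
          Real.rpow_le_rpow (Nat.cast_nonneg _) hmD' hb0.le
      _ = 8 ^ (1 / (4 * Real.exp (1 / 2)) + ε1 / 98) *
          (n : ℝ) ^ ((q - ε1) * (1 / (4 * Real.exp (1 / 2)) + ε1 / 98)) := by
          rw [Real.mul_rpow (by norm_num) (by positivity), ← Real.rpow_mul hnpos.le]
      _ ≤ 8 * (n : ℝ) ^ (1 - ε1 / 14) := by
          refine mul_le_mul ?_ ?_ (by positivity) (by norm_num)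
          · calc (8 : ℝ) ^ (1 / (4 * Real.exp (1 / 2)) + ε1 / 98) ≤ 8 ^ (1 : ℝ) :=
                  Real.rpow_le_rpow_of_exponent_le (by norm_num) hb1
              _ = 8 := Real.rpow_one 8
          · apply Real.rpow_le_rpow_of_exponent_le hn1'
            rw [← hq]
            have hq0 : 0 < q := by linarith
            have e1 : (q - ε1) * (1 / q + ε1 / 98) = 1 - ε1 / q + (q - ε1) * (ε1 / 98) := by
              field_simp
            rw [e1]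
            have e2 : ε1 / 7 ≤ ε1 / q := by
              apply div_le_div_of_nonneg_left hε10.le hq0 hq7
            nlinarith
  have hn3 : (n : ℝ) / 3 ≤ ((n / 2 : ℕ) : ℝ) := by
    have h1 : n ≤ 3 * (n / 2) := by omega
    have h2 : (n : ℝ) ≤ 3 * ((n / 2 : ℕ) : ℝ) := by exact_mod_cast h1
    linarith
  have h9 : (n : ℝ) = (n : ℝ) ^ (1 - ε1 / 14) * (n : ℝ) ^ (ε1 / 14) := by
    rw [← Real.rpow_add hnpos]
    simp
  have h10 : (n : ℝ) ≤ 24 * (n : ℝ) ^ (1 - ε1 / 14) := by linarith [hn3.trans (hkey.trans h8)]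
  have h11 := hn1 n hnn1
  have h12 : 0 < (n : ℝ) ^ (1 - ε1 / 14) := Real.rpow_pos_of_pos hnpos _
  nlinarith

end Pool.Agent.Q49.RB
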