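import Pool.Agent.Q49.RB.Crt
import Pool.Agent.H471R4.BW.TUP
import Pool.Agent.H471R4.BW.MOM
import Pool.Agent.H471R4.BW.NU1
import Pool.Agent.H471R4.BW.NU2b
import Pool.Agent.H471R4.BW.SHF
import Pool.Agent.H471R4.BW.HOL
import Pool.Agent.H471R4.BW.BIN

set_option autoImplicit false

/-! The Burgess bound for the characters `chi m ψ`. -/

namespace Pool.Agent.Q49.RB

open Finset Filter

open Pool.Agent.H471R4.BW (jchar Complete Uniq Fam shortSum BIN bfm_core bfm_ev)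

theorem binT : BIN :=
  Pool.Agent.H471R4.BW.bin (Pool.Agent.H471R4.BW.mom Pool.Agent.H471R4.BW.tup)
    Pool.Agent.H471R4.BW.nu1 Pool.Agent.H471R4.BW.nu2b Pool.Agent.H471R4.BW.shf
    Pool.Agent.H471R4.BW.hol

theorem fam_chi (m : ℕ) [NeZero m] (ψ : DirichletCharacter ℂ 8) (hodd : Odd m)
    (hsq : Squarefree m) (k : ℕ) (hk : m.primeFactors.card ≤ k) (κ : ℝ) :
    Fam κ (fun r => 8 * (10 * r * Real.sqrt (((8 * m : ℕ) : ℝ) ^ κ)) ^ k) (8 * m)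
      (chi m ψ) := by
  intro r B hr hB b c hb hc hu
  have hB1 : 1 ≤ B := by
    have := hb ⟨0, by omega⟩
    omega
  refine (complete_chi m ψ hodd hsq k hk r B hr hB1 b c hb hc hu).trans ?_
  refine mul_le_mul_of_nonneg_right ?_ (Real.sqrt_nonneg _)
  refine mul_le_mul_of_nonneg_left ?_ (by norm_num)
  refine pow_le_pow_left₀ (by positivity) ?_ _
  exact mul_le_mul_of_nonneg_left (Real.sqrt_le_sqrt hB) (by positivity)

theorem burg (δ η : ℝ) (hδ : 0 < δ) (hδ1 : δ ≤ 1) (hη : 0 < η) (k : ℕ) :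
    ∃ N0 : ℕ, ∀ (m : ℕ) [NeZero m] (ψ : DirichletCharacter ℂ 8), Odd m → Squarefree m →
      m.primeFactors.card ≤ k → N0 ≤ 8 * m → ∀ X : ℕ,
      ((8 * m : ℕ) : ℝ) ^ (1 / 4 + η) ≤ X → (X : ℝ) ≤ Real.sqrt ((8 * m : ℕ) : ℝ) →
      ‖shortSum (8 * m) (chi m ψ) X‖ ≤ δ * X := by
  obtain ⟨r, hr⟩ := exists_nat_gt (max (1 / η) (k / η))
  have hr1 : 1 / η < r := lt_of_le_of_lt (le_max_left _ _) hr
  have hr2 : k / η < r := lt_of_le_of_lt (le_max_right _ _) hr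
  have hrpos : (0 : ℝ) < r := lt_trans (by positivity) hr1
  have hr0 : 1 ≤ r := by exact_mod_cast hrpos
  have hrη : 1 / (2 * (r : ℝ)) ≤ η := by
    rw [div_lt_iff₀ hη] at hr1
    rw [div_le_iff₀ (by positivity)]
    nlinarith
  have hkη : (1 / (r : ℝ)) * (1 / 2) * k ≤ η / 2 := by
    rw [div_lt_iff₀ hη] at hr2
    have e : (1 / (r : ℝ)) * (1 / 2) * k = k / (2 * r) := by
      field_simp
    rw [e, div_le_div_iff₀ (by positivity) (by norm_num)]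
    nlinarith
  have hκ : 1 / (2 * (r : ℝ)) < 1 / r := by
    rw [div_lt_div_iff₀ (by positivity) (by positivity)]
    nlinarith
  set C : ℝ := 3 * ((r : ℝ) ^ (2 * r) + 8 * (10 * r) ^ k) * 128 with hC
  set c : ℝ := (δ / 2) ^ (2 * r) * δ with hc
  have hev := tendsto_natCast_atTop_atTop.eventually (bfm_ev δ (1 / (2 * (r : ℝ))) (η / 2)
    (1 / (r : ℝ)) C c hδ (by linarith) hκ (by positivity) (by positivity))
  obtain ⟨N0, hN0⟩ := eventually_atTop.1 hev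
  refine ⟨N0, fun m _ ψ hodd hsq hk hN X hX1 hX2 => ?_⟩
  obtain ⟨h3, ha, hb, hc', hd⟩ := hN0 (8 * m) hN
  have hN1 : (1 : ℝ) ≤ ((8 * m : ℕ) : ℝ) := by linarith
  have hNpos : (0 : ℝ) < ((8 * m : ℕ) : ℝ) := by linarith
  refine bfm_core binT δ η (1 / (r : ℝ))
    (fun r' => 8 * (10 * r' * Real.sqrt (((8 * m : ℕ) : ℝ) ^ (1 / (r : ℝ)))) ^ k) hδ hδ1 hη
    (fun r' => by positivity) r hr0 hrη (8 * m) h3 ha hb hc' ?_ (chi m ψ)
    (fam_chi m ψ hodd hsq k hk _) X hX1 hX2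
  have hlog : 0 ≤ Real.log ((8 * m : ℕ) : ℝ) := Real.log_nonneg hN1
  have hη2 : (1 : ℝ) ≤ ((8 * m : ℕ) : ℝ) ^ (η / 2) := Real.one_le_rpow hN1 (by linarith)
  have h5 : (Real.sqrt (((8 * m : ℕ) : ℝ) ^ (1 / (r : ℝ)))) ^ k ≤ ((8 * m : ℕ) : ℝ) ^ (η / 2) := by
    rw [Real.sqrt_eq_rpow, ← Real.rpow_mul hNpos.le, ← Real.rpow_natCast, ← Real.rpow_mul hNpos.le]
    exact Real.rpow_le_rpow_of_exponent_le hN1 hkη
  have h6 : 3 * ((r : ℝ) ^ (2 * r) + 8 * (10 * r *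
      Real.sqrt (((8 * m : ℕ) : ℝ) ^ (1 / (r : ℝ)))) ^ k) * 128 ≤
      C * ((8 * m : ℕ) : ℝ) ^ (η / 2) := by
    rw [mul_pow, hC]
    have h7 : (r : ℝ) ^ (2 * r) ≤ (r : ℝ) ^ (2 * r) * ((8 * m : ℕ) : ℝ) ^ (η / 2) :=
      le_mul_of_one_le_right (by positivity) hη2
    have h8 : (10 * (r : ℝ)) ^ k * (Real.sqrt (((8 * m : ℕ) : ℝ) ^ (1 / (r : ℝ)))) ^ k ≤
        (10 * (r : ℝ)) ^ k * ((8 * m : ℕ) : ℝ) ^ (η / 2) :=
      mul_le_mul_of_nonneg_left h5 (by positivity)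
    nlinarith
  have e9 : ((8 * m : ℕ) : ℝ) ^ η = ((8 * m : ℕ) : ℝ) ^ (η / 2) * ((8 * m : ℕ) : ℝ) ^ (η / 2) := by
    rw [← Real.rpow_add hNpos]
    congr 1
    ring
  calc _ ≤ C * ((8 * m : ℕ) : ℝ) ^ (η / 2) * Real.log ((8 * m : ℕ) : ℝ) :=
        mul_le_mul_of_nonneg_right h6 hlog
    _ = ((8 * m : ℕ) : ℝ) ^ (η / 2) * (C * Real.log ((8 * m : ℕ) : ℝ)) := by ring
    _ ≤ ((8 * m : ℕ) : ℝ) ^ (η / 2) * (c * ((8 * m : ℕ) : ℝ) ^ (η / 2)) :=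
        mul_le_mul_of_nonneg_left hd (by linarith)
    _ = c * ((8 * m : ℕ) : ℝ) ^ η := by
        rw [e9]
        ring

end Pool.Agent.Q49.RB
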