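import Pool.Agent.H471R4.BW.CS0
import Pool.Agent.H471R4.BW.BFM

set_option autoImplicit false

/-! Complete sums modulo `8 m`, `m` odd and squarefree. -/

namespace Pool.Agent.Q49.RB

open Finset

open Pool.Agent.H471R4.BW (jchar jchar_apply Complete Uniq Fam cs0)

/-- complete sum of products of shifts -/
noncomputable def csum (N : ℕ) [NeZero N] (f : ZMod N → ℂ) {r : ℕ} (b c : Fin r → ℕ) : ℂ :=
  ∑ x : ZMod N, (∏ i, f (x + (b i : ZMod N))) * ∏ i, (starRingEnd ℂ) (f (x + (c i : ZMod N)))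

theorem csum_mul (M P : ℕ) [NeZero M] [NeZero P] [NeZero (M * P)] (h : Nat.Coprime M P)
    (f : ZMod M → ℂ) (g : ZMod P → ℂ) (F : ZMod (M * P) → ℂ)
    (hF : ∀ x, F x = f (ZMod.castHom (dvd_mul_right M P) (ZMod M) x) *
      g (ZMod.castHom (dvd_mul_left P M) (ZMod P) x)) {r : ℕ} (b c : Fin r → ℕ) :
    csum (M * P) F b c = csum M f b c * csum P g b c := by
  classical
  set e := ZMod.chineseRemainder h with he
  have h1 : (RingHom.fst (ZMod M) (ZMod P)).comp e.toRingHom =
      ZMod.castHom (dvd_mul_right M P) (ZMod M) := Subsingleton.elim _ _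
  have h2 : (RingHom.snd (ZMod M) (ZMod P)).comp e.toRingHom =
      ZMod.castHom (dvd_mul_left P M) (ZMod P) := Subsingleton.elim _ _
  have e1 : ∀ x, ZMod.castHom (dvd_mul_right M P) (ZMod M) x = (e x).1 := fun x => by
    rw [← h1]; rfl
  have e2 : ∀ x, ZMod.castHom (dvd_mul_left P M) (ZMod P) x = (e x).2 := fun x => by
    rw [← h2]; rfl
  unfold csum
  rw [sum_mul_sum, ← Fintype.sum_prod_type', ← Equiv.sum_comp e.toEquiv]
  refine sum_congr rfl fun x _ => ?_
  simp only [RingEquiv.toEquiv_eq_coe, EquivLike.coe_coe]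
  have h3 : ∀ d : ℕ, F (x + (d : ZMod (M * P))) =
      f ((e x).1 + (d : ZMod M)) * g ((e x).2 + (d : ZMod P)) := by
    intro d
    rw [hF]
    congr 2
    · rw [map_add, map_natCast, e1]
    · rw [map_add, map_natCast, e2]
  simp only [h3, map_mul, prod_mul_distrib]
  ring

theorem csum_trivial (N : ℕ) [NeZero N] (f : ZMod N → ℂ) (hf : ∀ x, ‖f x‖ ≤ 1) {r : ℕ}
    (b c : Fin r → ℕ) : ‖csum N f b c‖ ≤ N := by
  unfold csum
  refine (norm_sum_le _ _).trans ?_
  have h : ∀ x ∈ (univ : Finset (ZMod N)), ‖(∏ i, f (x + (b i : ZMod N))) *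
      ∏ i, (starRingEnd ℂ) (f (x + (c i : ZMod N)))‖ ≤ 1 := by
    intro x _
    rw [norm_mul, norm_prod, norm_prod]
    refine mul_le_one₀ (prod_le_one (fun _ _ => norm_nonneg _) fun i _ => hf _)
      (prod_nonneg fun _ _ => norm_nonneg _) (prod_le_one (fun _ _ => norm_nonneg _) fun i _ => ?_)
    rw [RCLike.norm_conj]
    exact hf _
  refine (sum_le_card_nsmul _ _ _ h).trans ?_
  rw [card_univ, ZMod.card]
  simp

theorem jchar_norm (m : ℕ) [NeZero m] (x : ZMod m) : ‖jchar m x‖ ≤ 1 :=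
  DirichletCharacter.norm_le_one _ _

theorem jchar_prime (p : ℕ) [NeZero p] [Fact p.Prime] (x : ZMod p) :
    jchar p x = ((quadraticChar (ZMod p) x : ℤ) : ℂ) := by
  have h1 : jchar p x = ((jacobiSym (x.val : ℤ) p : ℤ) : ℂ) := rfl
  rw [h1, ← jacobiSym.legendreSym.to_jacobiSym, legendreSym]
  congr 2
  push_cast
  rw [ZMod.natCast_zmod_val]

theorem csum_prime (p : ℕ) [NeZero p] (hp : p.Prime) (hp2 : p ≠ 2) {r B : ℕ} (hr : 1 ≤ r)
    (hB1 : 1 ≤ B) (b c : Fin r → ℕ) (hb : ∀ i, b i < B) (hc : ∀ i, c i < B) (hu : Uniq b c) :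
    ‖csum p (jchar p) b c‖ ≤ 10 * r * Real.sqrt B * Real.sqrt p := by
  have hr' : (1 : ℝ) ≤ r := by exact_mod_cast hr
  have hB' : (1 : ℝ) ≤ Real.sqrt B := by
    rw [Real.one_le_sqrt]
    exact_mod_cast hB1
  rcases le_or_gt B p with hBp | hBp
  · have : Fact p.Prime := ⟨hp⟩
    have h0 := cs0 p hp2 r B hBp b c hb hc hu
    have h1 : csum p (jchar p) b c =
        ((∑ x : ZMod p, ((quadraticChar (ZMod p) ((∏ i, (x + (b i : ZMod p))) *
          ∏ i, (x + (c i : ZMod p))) : ℤ) : ℝ) : ℝ) : ℂ) := by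
      unfold csum
      rw [Complex.ofReal_sum]
      refine Finset.sum_congr rfl fun x _ => ?_
      rw [map_mul, map_prod, map_prod]
      push_cast
      simp only [jchar_prime, map_intCast]
    rw [h1, Complex.norm_real, Real.norm_eq_abs]
    refine h0.trans ?_
    refine mul_le_mul_of_nonneg_right ?_ (Real.sqrt_nonneg _)
    nlinarith
  · have h0 := csum_trivial p (jchar p) (jchar_norm p) b c
    have h1 : Real.sqrt p ≤ Real.sqrt B := Real.sqrt_le_sqrt (by exact_mod_cast hBp.le)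
    have h2 : Real.sqrt p * Real.sqrt p = p := Real.mul_self_sqrt (Nat.cast_nonneg p)
    have h3 := Real.sqrt_nonneg (p : ℝ)
    have h4 : Real.sqrt p * Real.sqrt p ≤ Real.sqrt B * Real.sqrt p :=
      mul_le_mul_of_nonneg_right h1 h3
    have h5 : Real.sqrt B * Real.sqrt p ≤ 10 * r * Real.sqrt B * Real.sqrt p := by
      refine mul_le_mul_of_nonneg_right ?_ h3
      nlinarith
    linarith

theorem jchar_mul (p m : ℕ) [NeZero p] [NeZero m] [NeZero (p * m)] (x : ZMod (p * m)) :
    jchar (p * m) x = jchar p (ZMod.castHom (dvd_mul_right p m) (ZMod p) x) *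
      jchar m (ZMod.castHom (dvd_mul_left m p) (ZMod m) x) := by
  conv_lhs => rw [← ZMod.natCast_zmod_val x]
  have e1 : ZMod.castHom (dvd_mul_right p m) (ZMod p) x = ((x.val : ℕ) : ZMod p) := by
    conv_lhs => rw [← ZMod.natCast_zmod_val x]
    rw [map_natCast]
  have e2 : ZMod.castHom (dvd_mul_left m p) (ZMod m) x = ((x.val : ℕ) : ZMod m) := by
    conv_lhs => rw [← ZMod.natCast_zmod_val x]
    rw [map_natCast]
  rw [e1, e2, jchar_apply, jchar_apply, jchar_apply,
    jacobiSym.mul_right' _ (NeZero.ne p) (NeZero.ne m)]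
  push_cast
  rfl

theorem csum_sqfree {r B : ℕ} (hr : 1 ≤ r) (hB1 : 1 ≤ B) (b c : Fin r → ℕ) (hb : ∀ i, b i < B)
    (hc : ∀ i, c i < B) (hu : Uniq b c) : ∀ (m : ℕ) [NeZero m], Odd m → Squarefree m →
    ‖csum m (jchar m) b c‖ ≤ (10 * r * Real.sqrt B) ^ m.primeFactors.card * Real.sqrt m := by
  intro m
  induction m using Nat.strong_induction_on with
  | _ m ih =>
    intro _ hodd hsq
    rcases Nat.lt_or_ge 1 m with h1 | h1
    · set p := m.minFac with hp
      have hpp : p.Prime := Nat.minFac_prime (by omega)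
      obtain ⟨m', hm'⟩ : p ∣ m := Nat.minFac_dvd m
      have hco : Nat.Coprime p m' := by
        rw [hm'] at hsq
        exact Nat.coprime_of_squarefree_mul hsq
      have hm0 : m' ≠ 0 := by
        rintro rfl
        omega
      have hp0 : NeZero p := ⟨hpp.ne_zero⟩
      have hm0' : NeZero m' := ⟨hm0⟩
      have hlt : m' < m := by
        rw [hm']
        have := hpp.one_lt
        have h2 : 0 < m' := Nat.pos_of_ne_zero hm0
        nlinarith
      have hodd' : Odd m' := by
        rw [hm', Nat.odd_mul] at hodd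
        exact hodd.2
      have hoddp : Odd p := by
        rw [hm', Nat.odd_mul] at hodd
        exact hodd.1
      have hsq' : Squarefree m' := hsq.squarefree_of_dvd (Dvd.intro_left p hm'.symm)
      have hih := ih m' hlt hodd' hsq'
      have hp2 : p ≠ 2 := by
        rintro h2
        rw [h2] at hoddp
        exact absurd hoddp (by decide)
      have h3 := csum_prime p hpp hp2 hr hB1 b c hb hc hu
      have hcard : m.primeFactors.card = m'.primeFactors.card + 1 := by
        rw [hm', Nat.Coprime.primeFactors_mul hco, card_union_of_disjoint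
          hco.disjoint_primeFactors, hpp.primeFactors, card_singleton, add_comm]
      have key : ∀ M : ℕ, ∀ _ : NeZero M, M = p * m' →
          csum M (jchar M) b c = csum p (jchar p) b c * csum m' (jchar m') b c := by
        intro M _ hM
        subst hM
        exact csum_mul p m' hco _ _ _ (fun x => jchar_mul p m' x) b c
      rw [key m inferInstance hm', norm_mul, hcard, pow_succ]
      have h4 : Real.sqrt (m : ℝ) = Real.sqrt p * Real.sqrt m' := by
        conv_lhs => rw [hm']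
        push_cast
        rw [Real.sqrt_mul (Nat.cast_nonneg p)]
      rw [h4]
      calc ‖csum p (jchar p) b c‖ * ‖csum m' (jchar m') b c‖ ≤
          (10 * r * Real.sqrt B * Real.sqrt p) *
            ((10 * r * Real.sqrt B) ^ m'.primeFactors.card * Real.sqrt m') :=
            mul_le_mul h3 hih (norm_nonneg _) (by positivity)
        _ = _ := by ring
    · have hm1 : m = 1 := by
        have := NeZero.ne m
        omega
      subst hm1
      have := csum_trivial 1 (jchar 1) (jchar_norm 1) b c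
      simpa using this

/-- the character `n ↦ ψ(n) (n / m)` -/
noncomputable def chi (m : ℕ) [NeZero m] (ψ : DirichletCharacter ℂ 8) :
    DirichletCharacter ℂ (8 * m) where
  toFun x := ψ (ZMod.castHom (dvd_mul_right 8 m) (ZMod 8) x) *
    jchar m (ZMod.castHom (dvd_mul_left m 8) (ZMod m) x)
  map_one' := by simp
  map_mul' x y := by
    simp only [map_mul]
    ring
  map_nonunit' x hx := by
    by_contra hcon
    have h1 : ψ (ZMod.castHom (dvd_mul_right 8 m) (ZMod 8) x) ≠ 0 := left_ne_zero_of_mul hcon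
    have h2 : jchar m (ZMod.castHom (dvd_mul_left m 8) (ZMod m) x) ≠ 0 :=
      right_ne_zero_of_mul hcon
    have h3 : IsUnit (ZMod.castHom (dvd_mul_right 8 m) (ZMod 8) x) := by
      by_contra h
      exact h1 (MulChar.map_nonunit _ h)
    have h4 : IsUnit (ZMod.castHom (dvd_mul_left m 8) (ZMod m) x) := by
      by_contra h
      exact h2 (MulChar.map_nonunit _ h)
    apply hx
    have hx' : x = ((x.val : ℕ) : ZMod (8 * m)) := (ZMod.natCast_zmod_val x).symm
    rw [hx', map_natCast] at h3 h4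
    rw [hx']
    rw [ZMod.isUnit_iff_coprime] at h3 h4 ⊢
    exact Nat.Coprime.mul_right h3 h4

theorem chi_apply (m : ℕ) [NeZero m] (ψ : DirichletCharacter ℂ 8) (n : ℕ) :
    chi m ψ (n : ZMod (8 * m)) = ψ (n : ZMod 8) * ((jacobiSym (n : ℤ) m : ℤ) : ℂ) := by
  have : chi m ψ (n : ZMod (8 * m)) =
      ψ (ZMod.castHom (dvd_mul_right 8 m) (ZMod 8) (n : ZMod (8 * m))) *
        jchar m (ZMod.castHom (dvd_mul_left m 8) (ZMod m) (n : ZMod (8 * m))) := rfl
  rw [this, map_natCast (ZMod.castHom (dvd_mul_right 8 m) (ZMod 8)),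
    map_natCast (ZMod.castHom (dvd_mul_left m 8) (ZMod m)), jchar_apply]

theorem complete_chi (m : ℕ) [NeZero m] (ψ : DirichletCharacter ℂ 8) (hodd : Odd m)
    (hsq : Squarefree m) (k : ℕ) (hk : m.primeFactors.card ≤ k) (r B : ℕ) (hr : 1 ≤ r)
    (hB1 : 1 ≤ B) : Complete (8 * m) (chi m ψ) r B (8 * (10 * r * Real.sqrt B) ^ k) := by
  intro b c hb hc hu
  have hr' : (1 : ℝ) ≤ r := by exact_mod_cast hr
  have hB' : (1 : ℝ) ≤ Real.sqrt B := by
    rw [Real.one_le_sqrt]
    exact_mod_cast hB1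
  have hco : Nat.Coprime 8 m := by
    have : Nat.Coprime (2 ^ 3) m := Nat.Coprime.pow_left 3 (Nat.coprime_two_left.2 hodd)
    simpa using this
  have h1 := csum_mul 8 m hco ψ (jchar m) (chi m ψ) (fun x => rfl) b c
  have h2 : ∑ x : ZMod (8 * m), (∏ i, chi m ψ (x + (b i : ZMod (8 * m)))) *
      ∏ i, (starRingEnd ℂ) (chi m ψ (x + (c i : ZMod (8 * m)))) = csum (8 * m) (chi m ψ) b c := rfl
  rw [h2, h1, norm_mul]
  have h3 := csum_trivial 8 ψ (fun x => DirichletCharacter.norm_le_one _ _) b c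
  have h4 := csum_sqfree hr hB1 b c hb hc hu m hodd hsq
  have h5 : (10 * r * Real.sqrt B) ^ m.primeFactors.card ≤ (10 * r * Real.sqrt B) ^ k :=
    pow_le_pow_right₀ (by nlinarith) hk
  have h6 : Real.sqrt (m : ℝ) ≤ Real.sqrt ((8 * m : ℕ) : ℝ) := by
    apply Real.sqrt_le_sqrt
    push_cast
    have : (0 : ℝ) ≤ m := Nat.cast_nonneg m
    linarith
  calc ‖csum 8 ψ b c‖ * ‖csum m (jchar m) b c‖ ≤
      8 * ((10 * r * Real.sqrt B) ^ m.primeFactors.card * Real.sqrt m) :=
        mul_le_mul (by exact_mod_cast h3) h4 (norm_nonneg _) (by norm_num)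
    _ ≤ 8 * ((10 * r * Real.sqrt B) ^ k * Real.sqrt ((8 * m : ℕ) : ℝ)) := by
        refine mul_le_mul_of_nonneg_left ?_ (by norm_num)
        exact mul_le_mul h5 h6 (Real.sqrt_nonneg _) (by positivity)
    _ = _ := by ring

end Pool.Agent.Q49.RB
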