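import Pool.Agent.Q49.RB.T4

set_option autoImplicit false

/-! The Hilbert polynomial and the alternating sum. -/

namespace Pool.Agent.Q49.RB

open Finset Polynomial

/-- the alternating sum as a polynomial -/
noncomputable def PP {r : ℕ} (n : ℕ) (δ : Fin r → ℂ) : ℂ[X] :=
  ∑ S : Finset (Fin r), C (sg S) * (binP n).comp (X + C (n - ∑ i ∈ S, δ i))

theorem PP_eval {r : ℕ} (n : ℕ) (δ : Fin r → ℂ) (k : ℤ) : (PP n δ).eval (k : ℂ) = PS n δ k := by
  unfold PP PS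
  rw [eval_finsetSum]
  refine sum_congr rfl fun S _ => ?_
  rw [eval_mul, eval_C, eval_comp, binP_eval]
  congr 2
  simp only [eval_add, eval_X, eval_C]
  ring

theorem hilb_eq {r : ℕ} (n : ℕ) (δ : Fin r → ℂ) (P : ℚ[X]) (k₀ : ℕ)
    (h : ∀ k : ℕ, k₀ ≤ k → ((P.eval (k : ℚ) : ℚ) : ℂ) = PS n δ k) (k : ℤ) :
    ((P.eval (k : ℚ) : ℚ) : ℂ) = PS n δ k := by
  have h1 : ∀ k : ℤ, ((P.eval (k : ℚ) : ℚ) : ℂ) = (P.map (algebraMap ℚ ℂ)).eval (k : ℂ) := by
    intro k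
    have : ((k : ℤ) : ℂ) = algebraMap ℚ ℂ (k : ℚ) := by simp
    rw [this, eval_map_algebraMap, aeval_algebraMap_apply]
    simp
  have h2 : P.map (algebraMap ℚ ℂ) = PP n δ := by
    refine Polynomial.eq_of_infinite_eval_eq _ _ ?_
    refine Set.Infinite.mono (s := Set.range fun N : ℕ => (((k₀ + N : ℕ) : ℤ) : ℂ)) ?_
      (Set.infinite_range_of_injective fun a b hab => by
        have h3 : ((k₀ + a : ℕ) : ℤ) = ((k₀ + b : ℕ) : ℤ) := by exact_mod_cast hab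
        omega)
    rintro _ ⟨N, rfl⟩
    simp only [Set.mem_ofPred_eq]
    rw [← h1, PP_eval, ← h (k₀ + N) (by omega)]
    simp
  rw [h1, h2, PP_eval]

end Pool.Agent.Q49.RB
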