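import Pool.Agent.Q49.RB.Bin

set_option autoImplicit false

/-! Independence of shifted binomial coefficients, and its consequence for Chern roots. -/

namespace Pool.Agent.Q49.RB

open Finset Polynomial

theorem bin_add (y : ℂ) (q d : ℕ) :
    bin y (q + d) * ((q + d).factorial : ℂ) =
      bin y q * (q.factorial : ℂ) * ∏ i ∈ range d, (y - ((q + i : ℕ) : ℂ)) := by
  have h1 : ((q + d).factorial : ℂ) ≠ 0 := by exact_mod_cast (q + d).factorial_ne_zero
  have h2 : (q.factorial : ℂ) ≠ 0 := by exact_mod_cast q.factorial_ne_zero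
  unfold bin
  rw [prod_range_add]
  field_simp

/-- the test polynomials -/
noncomputable def gg (q d : ℕ) : ℂ[X] := ∏ i ∈ range d, (X - C ((q + i : ℕ) : ℂ))

theorem gg_monic (q d : ℕ) : (gg q d).Monic := monic_prod_of_monic _ _ fun _ _ => monic_X_sub_C _

theorem gg_natDegree (q d : ℕ) : (gg q d).natDegree = d := by
  unfold gg
  rw [natDegree_prod_of_monic _ _ fun _ _ => monic_X_sub_C _]
  have h : ∀ i ∈ range d, (X - C ((q + i : ℕ) : ℂ)).natDegree = 1 :=
    fun i _ => natDegree_X_sub_C _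
  rw [sum_congr rfl h]
  simp

theorem gg_eval (q d : ℕ) (y : ℂ) :
    (gg q d).eval y = ∏ i ∈ range d, (y - ((q + i : ℕ) : ℂ)) := by
  unfold gg
  rw [eval_prod]
  simp

/-- **Independence.** -/
theorem indep {ι : Type} [Fintype ι] [DecidableEq ι] (n m : ℕ) (hm : m ≤ n + 1) (a x : ι → ℂ)
    (hx : Function.Injective x) (hcard : Fintype.card ι ≤ m) (k0 : ℤ)
    (h : ∀ k : ℤ, k0 < k → k ≤ k0 + m → ∑ i, a i * bin (k - x i) n = 0) (i0 : ι) :
    a i0 * bin ((k0 + 1 : ℤ) - x i0) (n + 1 - m) = 0 := by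
  have hm0 : 1 ≤ m := le_trans (Fintype.card_pos_iff.2 ⟨i0⟩) hcard
  -- differences
  have h1 : ∀ j : ℕ, j < m → ∀ k : ℤ, k0 < k → k ≤ k0 + m - j →
      ∑ i, a i * bin (k - x i) (n - j) = 0 := by
    intro j
    induction j with
    | zero =>
      intro _ k hk hk'
      exact h k hk (by simpa using hk')
    | succ j ih =>
      intro hj k hk hk'
      have e1 := ih (by omega) k hk (by push_cast at hk'; omega)
      have e2 := ih (by omega) (k + 1) (by omega) (by push_cast at hk'; omega)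
      have e3 : n - j = (n - (j + 1)) + 1 := by omega
      have e4 : ∑ i, a i * bin (((k + 1 : ℤ) : ℂ) - x i) (n - j) =
          ∑ i, a i * bin (k - x i) (n - j) + ∑ i, a i * bin (k - x i) (n - (j + 1)) := by
        rw [← sum_add_distrib]
        refine sum_congr rfl fun i _ => ?_
        have e5 : ((k + 1 : ℤ) : ℂ) - x i = ((k : ℂ) - x i) + 1 := by push_cast; ring
        rw [e5, e3, bin_pascal]
        ring
      rw [e1, e2, zero_add] at e4
      exact e4.symm
  set q := n + 1 - m with hq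
  set y : ι → ℂ := fun i => ((k0 + 1 : ℤ) : ℂ) - x i with hy
  have h2 : ∀ d : ℕ, d < m → ∑ i, a i * bin (y i) (q + d) = 0 := by
    intro d hd
    have := h1 (m - 1 - d) (by omega) (k0 + 1) (by omega) (by
      have : ((m - 1 - d : ℕ) : ℤ) = m - 1 - d := by omega
      omega)
    have e : n - (m - 1 - d) = q + d := by omega
    rw [e] at this
    exact this
  -- the functional vanishes on polynomials of degree less than `m`
  have h3 : ∀ d : ℕ, d < m → ∑ i, a i * bin (y i) q * (gg q d).eval (y i) = 0 := by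
    intro d hd
    have e1 := h2 d hd
    have hf1 : ((q + d).factorial : ℂ) ≠ 0 := by exact_mod_cast (q + d).factorial_ne_zero
    have hf2 : (q.factorial : ℂ) ≠ 0 := by exact_mod_cast q.factorial_ne_zero
    have e2 : (q.factorial : ℂ) * ∑ i, a i * bin (y i) q * (gg q d).eval (y i) =
        ((q + d).factorial : ℂ) * ∑ i, a i * bin (y i) (q + d) := by
      rw [mul_sum, mul_sum]
      refine sum_congr rfl fun i _ => ?_
      rw [gg_eval]
      linear_combination (-(a i)) * bin_add (y i) q d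
    rw [e1, mul_zero] at e2
    exact (mul_eq_zero.1 e2).resolve_left hf2
  have h4 : ∀ d : ℕ, d < m → ∀ f : ℂ[X], f.natDegree ≤ d →
      ∑ i, a i * bin (y i) q * f.eval (y i) = 0 := by
    intro d
    induction d with
    | zero =>
      intro hd f hf
      have e1 := h3 0 hd
      rw [eq_C_of_natDegree_le_zero hf]
      simp only [eval_C]
      rw [← sum_mul]
      have e2 : ∑ i, a i * bin (y i) q = 0 := by
        simpa [gg] using e1
      rw [e2, zero_mul]
    | succ d ih =>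
      intro hd f hf
      have e1 := h3 (d + 1) hd
      set f' : ℂ[X] := f - C (f.coeff (d + 1)) * gg q (d + 1) with hf'
      have hd' : f'.natDegree ≤ d := by
        rw [natDegree_le_iff_coeff_eq_zero]
        intro N hN
        rw [hf', coeff_sub, coeff_C_mul]
        rcases Nat.lt_or_ge (d + 1) N with h | h
        · rw [coeff_eq_zero_of_natDegree_lt (lt_of_le_of_lt hf h),
            coeff_eq_zero_of_natDegree_lt (p := gg q (d + 1)) (by rw [gg_natDegree]; exact h)]
          ring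
        · have hN' : N = d + 1 := by omega
          have e2 : (gg q (d + 1)).coeff (d + 1) = 1 := by
            have := (gg_monic q (d + 1)).coeff_natDegree
            rwa [gg_natDegree] at this
          rw [hN', e2]
          ring
      have e3 := ih (by omega) f' hd'
      have e4 : ∑ i, a i * bin (y i) q * f.eval (y i) =
          ∑ i, a i * bin (y i) q * f'.eval (y i) +
            f.coeff (d + 1) * ∑ i, a i * bin (y i) q * (gg q (d + 1)).eval (y i) := by
        rw [mul_sum, ← sum_add_distrib]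
        refine sum_congr rfl fun i _ => ?_
        rw [hf', eval_sub, eval_mul, eval_C]
        ring
      rw [e4, e3, e1]
      ring
  have h5 := h4 (m - 1) (by omega) (∏ i ∈ univ.erase i0, (X - C (y i))) (by
    rw [natDegree_prod_of_monic _ _ fun _ _ => monic_X_sub_C _]
    simp only [natDegree_X_sub_C, sum_const, smul_eq_mul, mul_one]
    rw [card_erase_of_mem (mem_univ _), card_univ]
    omega)
  rw [sum_eq_single i0] at h5
  · rw [eval_prod] at h5
    have h6 : ∏ i ∈ univ.erase i0, (X - C (y i)).eval (y i0) ≠ 0 := by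
      rw [prod_ne_zero_iff]
      intro i hi
      rw [mem_erase] at hi
      rw [eval_sub, eval_X, eval_C, hy]
      intro h0
      apply hi.1
      apply hx
      simp only at h0
      linear_combination h0
    exact (mul_eq_zero.1 h5).resolve_right h6
  · intro i _ hi
    rw [eval_prod, prod_eq_zero (i := i)]
    · ring
    · rw [mem_erase]
      exact ⟨hi, mem_univ _⟩
    · simp
  · intro h
    exact absurd (mem_univ _) h

theorem bin_ne_zero (y : ℂ) (q : ℕ) (hy : ∀ z : ℤ, y ≠ z) : bin y q ≠ 0 := by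
  unfold bin
  refine div_ne_zero ?_ (by exact_mod_cast q.factorial_ne_zero)
  rw [prod_ne_zero_iff]
  intro i _ h
  exact hy i (by push_cast; linear_combination h)

/-- maximal partial sums -/
theorem uniq_max {ι : Type} [Fintype ι] [DecidableEq ι] (f : ι → ℝ) (hf : ∀ i, f i ≠ 0)
    (S : Finset ι) (h : ∑ i ∈ S, f i = ∑ i ∈ univ.filter (fun i => 0 < f i), f i) :
    S = univ.filter (fun i => 0 < f i) := by
  have h1 : ∑ i, ((if 0 < f i then f i else 0) - (if i ∈ S then f i else 0)) = 0 := by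
    rw [sum_sub_distrib, ← sum_filter, ← sum_filter]
    simp only [filter_mem_eq_inter, univ_inter]
    linarith
  have h2 : ∀ i ∈ (univ : Finset ι),
      0 ≤ (if 0 < f i then f i else 0) - (if i ∈ S then f i else 0) := by
    intro i _
    split_ifs <;> linarith
  have h3 := (sum_eq_zero_iff_of_nonneg h2).1 h1
  ext i
  have h4 := h3 i (mem_univ i)
  simp only [mem_filter, mem_univ, true_and]
  have := hf i
  by_cases h5 : 0 < f i <;> by_cases h6 : i ∈ S <;> simp_all

theorem rational_int (z : ℂ) (hz : IsIntegral ℤ z) (q : ℚ) (hq : z = q) : ∃ k : ℤ, z = k := by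
  have h1 : IsIntegral ℤ q := by
    have h2 : IsIntegral ℤ (algebraMap ℚ ℂ q) := by
      rw [hq] at hz
      exact hz
    exact (isIntegral_algebraMap_iff (algebraMap ℚ ℂ).injective).1 h2
  obtain ⟨k, hk⟩ := IsIntegrallyClosed.isIntegral_iff.1 h1
  refine ⟨k, ?_⟩
  rw [hq, ← hk]
  simp

/-- the weight of a finite set of indices -/
noncomputable def sg {r : ℕ} (S : Finset (Fin r)) : ℂ := (-1) ^ S.card

/-- sum over the fibres -/
theorem fibres {r : ℕ} (F : Finset (Finset (Fin r))) (δ : Fin r → ℂ) (g : ℂ → ℂ)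
    (V : Finset ℂ) (hV : V = F.image fun S => ∑ i ∈ S, δ i) :
    ∑ x : V, (∑ S ∈ F.filter (fun S => ∑ i ∈ S, δ i = x), sg S) * g x =
      ∑ S ∈ F, sg S * g (∑ i ∈ S, δ i) := by
  have h1 : ∀ S ∈ F, (∑ i ∈ S, δ i) ∈ V := by
    intro S hS
    rw [hV]
    exact mem_image_of_mem _ hS
  rw [← sum_fiberwise_of_maps_to h1, ← sum_coe_sort V]
  refine sum_congr rfl fun x _ => ?_
  rw [sum_mul]
  refine sum_congr rfl fun S hS => ?_
  rw [mem_filter] at hS
  rw [hS.2]

/-- If the alternating sum vanishes at sufficiently many consecutive integers, a partial sum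
which occurs only once is an integer, or is in a certain range. -/
theorem occurs_once {r : ℕ} (n m : ℕ) (hm : m ≤ n + 1) (δ : Fin r → ℂ)
    (F : Finset (Finset (Fin r))) (hF : F.card ≤ m) (k0 : ℤ)
    (h : ∀ k : ℤ, k0 < k → k ≤ k0 + m → ∑ S ∈ F, sg S * bin (k - ∑ i ∈ S, δ i) n = 0)
    (S0 : Finset (Fin r)) (hS0 : S0 ∈ F)
    (huniq : ∀ S ∈ F, ∑ i ∈ S, δ i = ∑ i ∈ S0, δ i → S = S0) :
    bin ((k0 + 1 : ℤ) - ∑ i ∈ S0, δ i) (n + 1 - m) = 0 := by
  classical
  obtain ⟨V, hV⟩ : ∃ V : Finset ℂ, V = F.image fun S => ∑ i ∈ S, δ i := ⟨_, rfl⟩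
  have hx0 : (∑ i ∈ S0, δ i) ∈ V := by
    rw [hV]
    exact mem_image_of_mem _ hS0
  have hcard : Fintype.card V ≤ m := by
    rw [Fintype.card_coe, hV]
    exact card_image_le.trans hF
  have h1 := indep (ι := V) n m hm
    (fun x => ∑ S ∈ F.filter (fun S => ∑ i ∈ S, δ i = x), sg S) (fun x => (x : ℂ))
    Subtype.val_injective hcard k0 (fun k hk hk' => by
      have := fibres F δ (fun x => bin (k - x) n) V hV
      rw [this]
      exact h k hk hk') ⟨_, hx0⟩
  simp only at h1
  have h2 : F.filter (fun S => ∑ i ∈ S, δ i = ∑ i ∈ S0, δ i) = {S0} := by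
    ext S
    simp only [mem_filter, mem_singleton]
    constructor
    · rintro ⟨h3, h4⟩
      exact huniq S h3 h4
    · rintro rfl
      exact ⟨hS0, rfl⟩
  rw [h2, sum_singleton] at h1
  have h3 : sg S0 ≠ 0 := by
    unfold sg
    exact pow_ne_zero _ (by norm_num)
  exact (mul_eq_zero.1 h1).resolve_left h3

/-- **All Chern roots are integers.** -/
theorem roots_int {r : ℕ} (n m : ℕ) (hm : m ≤ n + 1) (δ : Fin r → ℂ)
    (hint : ∀ i, IsIntegral ℤ (δ i)) (hne : ∀ i, δ i ≠ 0)
    (F : Finset (Finset (Fin r))) (hFS : ∀ S : Finset (Fin r), S.Nonempty → S ∈ F)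
    (hF : F.card ≤ m) (k0 : ℤ)
    (h : ∀ k : ℤ, k0 < k → k ≤ k0 + m → ∑ S ∈ F, sg S * bin (k - ∑ i ∈ S, δ i) n = 0) :
    ∀ i, ∃ z : ℤ, δ i = z := by
  classical
  by_contra hcon
  push Not at hcon
  obtain ⟨i1, hi1⟩ := hcon
  -- a functional
  set W : Submodule ℚ ℂ := Submodule.span ℚ {(1 : ℂ)} with hW
  have hnotW : ∀ i, (∀ z : ℤ, δ i ≠ z) → W.mkQ (δ i) ≠ 0 := by
    intro i hi h0
    rw [Submodule.mkQ_apply, Submodule.Quotient.mk_eq_zero, hW, Submodule.mem_span_singleton] at h0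
    obtain ⟨q, hq⟩ := h0
    obtain ⟨k, hk⟩ := rational_int (δ i) (hint i) q (by
      rw [← hq, Algebra.smul_def, mul_one]
      rfl)
    exact hi k hk
  obtain ⟨f, hf⟩ := Module.exists_dual_forall_apply_ne_zero (K := ℚ)
    (fun i : {i // ∀ z : ℤ, δ i ≠ z} => W.mkQ (δ i)) (fun i => hnotW i i.2)
  obtain ⟨φ, hφ1, hφT, hφi⟩ : ∃ φ : ℂ →ₗ[ℚ] ℚ, φ 1 = 0 ∧ (∀ i, (∀ z : ℤ, δ i ≠ z) → φ (δ i) ≠ 0) ∧
      0 < φ (δ i1) := by
    have h1 : W.mkQ 1 = 0 := by
      rw [Submodule.mkQ_apply, Submodule.Quotient.mk_eq_zero, hW]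
      exact Submodule.mem_span_singleton_self 1
    rcases lt_or_gt_of_ne (hf ⟨i1, hi1⟩) with hlt | hgt
    · refine ⟨-(f.comp W.mkQ), ?_, fun i hi => ?_, ?_⟩
      · rw [LinearMap.neg_apply, LinearMap.comp_apply, h1, map_zero, neg_zero]
      · rw [LinearMap.neg_apply, LinearMap.comp_apply, neg_ne_zero]
        exact hf ⟨i, hi⟩
      · rw [LinearMap.neg_apply, LinearMap.comp_apply]
        linarith
    · refine ⟨f.comp W.mkQ, ?_, fun i hi => ?_, ?_⟩
      · rw [LinearMap.comp_apply, h1, map_zero]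
      · rw [LinearMap.comp_apply]
        exact hf ⟨i, hi⟩
      · rw [LinearMap.comp_apply]
        exact hgt
  have hφz : ∀ z : ℤ, φ (z : ℂ) = 0 := by
    intro z
    have : (z : ℂ) = (z : ℚ) • (1 : ℂ) := by
      rw [Algebra.smul_def, mul_one]
      simp
    rw [this, map_smul, hφ1, smul_zero]
  -- a large multiple
  obtain ⟨N, hN0, hN⟩ : ∃ N : ℝ, 0 < N ∧ ∀ i, (∀ z : ℤ, δ i ≠ z) →
      |(δ i).re| < N * |((φ (δ i) : ℚ) : ℝ)| := by
    refine ⟨∑ i, |(δ i).re| / |((φ (δ i) : ℚ) : ℝ)| + 1, ?_, fun i hi => ?_⟩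
    · have : 0 ≤ ∑ i, |(δ i).re| / |((φ (δ i) : ℚ) : ℝ)| := sum_nonneg fun i _ => by positivity
      linarith
    · have h1 : 0 < |((φ (δ i) : ℚ) : ℝ)| := by
        rw [abs_pos]
        exact_mod_cast hφT i hi
      have h2 : |(δ i).re| / |((φ (δ i) : ℚ) : ℝ)| ≤
          ∑ i, |(δ i).re| / |((φ (δ i) : ℚ) : ℝ)| :=
        single_le_sum (f := fun i => |(δ i).re| / |((φ (δ i) : ℚ) : ℝ)|)
          (fun i _ => by positivity) (mem_univ i)
      rw [div_le_iff₀ h1] at h2
      nlinarith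
  set Φ : Fin r → ℝ := fun i => N * ((φ (δ i) : ℚ) : ℝ) + (δ i).re with hΦ
  -- the sign of Φ
  have hsign : ∀ i, (∀ z : ℤ, δ i ≠ z) → (0 < Φ i ↔ 0 < φ (δ i)) ∧ Φ i ≠ 0 := by
    intro i hi
    have h1 := hN i hi
    have h2 := abs_lt.1 h1
    rcases lt_or_gt_of_ne (hφT i hi) with hlt | hgt
    · have h3 : ((φ (δ i) : ℚ) : ℝ) < 0 := by exact_mod_cast hlt
      rw [abs_of_neg h3] at h2
      have h4 : Φ i < 0 := by
        rw [hΦ]
        simp only
        linarith [h2.2]
      exact ⟨⟨fun h => absurd h (by linarith), fun h => absurd h (by linarith)⟩, h4.ne⟩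
    · have h3 : 0 < ((φ (δ i) : ℚ) : ℝ) := by exact_mod_cast hgt
      rw [abs_of_pos h3] at h2
      have h4 : 0 < Φ i := by
        rw [hΦ]
        simp only
        linarith [h2.1]
      exact ⟨⟨fun _ => hgt, fun _ => h4⟩, h4.ne'⟩
  have hΦne : ∀ i, Φ i ≠ 0 := by
    intro i
    by_cases hi : ∀ z : ℤ, δ i ≠ z
    · exact (hsign i hi).2
    · push Not at hi
      obtain ⟨z, hz⟩ := hi
      rw [hΦ]
      simp only
      rw [hz, hφz]
      have : (z : ℂ) ≠ 0 := by
        rw [← hz]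
        exact hne i
      have h0 : z ≠ 0 := by exact_mod_cast this
      simpa using h0
  set S0 := univ.filter (fun i => 0 < Φ i) with hS0
  have hi1S : i1 ∈ S0 := by
    rw [hS0, mem_filter]
    exact ⟨mem_univ _, (hsign i1 hi1).1.2 hφi⟩
  have huniq : ∀ S ∈ F, ∑ i ∈ S, δ i = ∑ i ∈ S0, δ i → S = S0 := by
    intro S _ hS
    apply uniq_max Φ hΦne S
    have e : ∀ T : Finset (Fin r), ∑ i ∈ T, Φ i =
        N * ((φ (∑ i ∈ T, δ i) : ℚ) : ℝ) + (∑ i ∈ T, δ i).re := by
      intro T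
      rw [hΦ]
      simp only
      rw [sum_add_distrib, ← mul_sum, map_sum, Complex.re_sum]
      push_cast
      rfl
    rw [← hS0, e S, e S0, hS]
  have h1 := occurs_once n m hm δ F hF k0 h S0 (hFS S0 ⟨i1, hi1S⟩) huniq
  refine bin_ne_zero _ _ (fun z hz => ?_) h1
  have h2 : φ (∑ i ∈ S0, δ i) = 0 := by
    have : ∑ i ∈ S0, δ i = ((k0 + 1 - z : ℤ) : ℂ) := by
      push_cast at hz ⊢
      linear_combination -hz
    rw [this]
    exact hφz _
  have h3 : 0 < φ (∑ i ∈ S0, δ i) := by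
    rw [map_sum]
    refine sum_pos' (fun i hi => ?_) ⟨i1, hi1S, hφi⟩
    rw [hS0, mem_filter] at hi
    by_cases hT : ∀ z : ℤ, δ i ≠ z
    · exact ((hsign i hT).1.1 hi.2).le
    · push Not at hT
      obtain ⟨z', hz'⟩ := hT
      rw [hz', hφz]
  rw [h2] at h3
  exact lt_irrefl _ h3

end Pool.Agent.Q49.RB
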