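import Pool.Agent.Q49.RB.Loc3

set_option autoImplicit false

/-!
# A basis of the integer valued polynomials at `p` made of iterated Fermat quotients
-/

namespace Pool.Agent.Q49.RB

open Polynomial Finset

/-- the Fermat quotient `(x ^ p - x) / p` -/
noncomputable def fq (p : ℕ) (x : ℂ) : ℂ := (x ^ p - x) * (1 / (p : ℂ))

/-- the same as a polynomial -/
noncomputable def fqP (p : ℕ) : ℂ[X] := C (1 / (p : ℂ)) * (X ^ p - X)

theorem fqP_eval (p : ℕ) (x : ℂ) : (fqP p).eval x = fq p x := by
  unfold fqP fq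
  rw [eval_mul, eval_C, eval_sub, eval_pow, eval_X, mul_comm]

/-- the product of the powers of the iterated Fermat quotients with the digits of `m` as exponents -/
noncomputable def ee (p : ℕ) (hp : 1 < p) : ℕ → ℂ → ℂ
  | 0, _ => 1
  | (m + 1), x => ee p hp ((m + 1) / p) (fq p x) * x ^ ((m + 1) % p)
termination_by m => m
decreasing_by exact Nat.div_lt_self (Nat.succ_pos m) hp

/-- the same as a polynomial -/
noncomputable def eP (p : ℕ) (hp : 1 < p) : ℕ → ℂ[X]
  | 0 => 1
  | (m + 1) => (eP p hp ((m + 1) / p)).comp (fqP p) * X ^ ((m + 1) % p)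
termination_by m => m
decreasing_by exact Nat.div_lt_self (Nat.succ_pos m) hp

variable {p : ℕ} (hp : 1 < p)

theorem ee_zero (x : ℂ) : ee p hp 0 x = 1 := by rw [ee]

theorem ee_eq (m : ℕ) (x : ℂ) : ee p hp m x = ee p hp (m / p) (fq p x) * x ^ (m % p) := by
  cases m with
  | zero => rw [ee_zero, Nat.zero_div, Nat.zero_mod, ee_zero, pow_zero, mul_one]
  | succ m => rw [ee]

theorem eP_zero : eP p hp 0 = 1 := by rw [eP]

theorem eP_eq (m : ℕ) : eP p hp m = (eP p hp (m / p)).comp (fqP p) * X ^ (m % p) := by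
  cases m with
  | zero => rw [eP_zero, Nat.zero_div, Nat.zero_mod, eP_zero, pow_zero, mul_one, one_comp]
  | succ m => rw [eP]

theorem eP_eval (m : ℕ) (x : ℂ) : (eP p hp m).eval x = ee p hp m x := by
  induction m using Nat.strong_induction_on generalizing x with
  | _ m ih =>
    rcases Nat.eq_zero_or_pos m with rfl | hm
    · rw [eP_zero, ee_zero, eval_one]
    · rw [eP_eq, ee_eq, eval_mul, eval_comp, fqP_eval, eval_pow, eval_X,
        ih (m / p) (Nat.div_lt_self hm hp)]

/-- the iterates of the Fermat quotient -/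
noncomputable def fit (p : ℕ) : ℕ → ℂ → ℂ
  | 0, x => x
  | (v + 1), x => fit p v (fq p x)

theorem ee_split (v m₀ m₁ : ℕ) (h : m₀ < p ^ v) (x : ℂ) :
    ee p hp (m₀ + p ^ v * m₁) x = ee p hp m₀ x * ee p hp m₁ (fit p v x) := by
  induction v generalizing m₀ x with
  | zero =>
    have : m₀ = 0 := by simpa using h
    subst this
    rw [ee_zero, fit, pow_zero, zero_add, one_mul, one_mul]
  | succ v ih =>
    have hp0 : 0 < p := by omega
    have h1 : m₀ + p ^ (v + 1) * m₁ = m₀ + p * (p ^ v * m₁) := by rw [pow_succ]; ring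
    have h2 : (m₀ + p ^ (v + 1) * m₁) % p = m₀ % p := by rw [h1, Nat.add_mul_mod_self_left]
    have h3 : (m₀ + p ^ (v + 1) * m₁) / p = m₀ / p + p ^ v * m₁ := by
      rw [h1, Nat.add_mul_div_left _ _ hp0]
    have h4 : m₀ / p < p ^ v := by
      rw [Nat.div_lt_iff_lt_mul hp0, ← pow_succ]
      exact h
    rw [ee_eq, h2, h3, ih _ h4, ee_eq hp m₀]
    rw [fit]
    ring

/-! ### Degree and leading coefficient -/

theorem fqP_natDegree (hp : 1 < p) : (fqP p).natDegree = p := by
  have hp0 : (p : ℂ) ≠ 0 := by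
    have : p ≠ 0 := by omega
    exact_mod_cast this
  unfold fqP
  rw [natDegree_C_mul (by exact one_div_ne_zero hp0)]
  rw [natDegree_sub_eq_left_of_natDegree_lt]
  · rw [natDegree_X_pow]
  · rw [natDegree_X, natDegree_X_pow]
    exact hp

theorem fqP_coeff (hp : 1 < p) : (fqP p).leadingCoeff = 1 / (p : ℂ) := by
  rw [leadingCoeff, fqP_natDegree hp]
  unfold fqP
  rw [coeff_C_mul, coeff_sub, coeff_X_pow_self, coeff_X_of_ne_one (by omega), sub_zero, mul_one]

theorem fact_val [hpf : Fact p.Prime] (m : ℕ) :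
    padicValNat p m.factorial = padicValNat p (m / p).factorial + m / p := by
  rw [← padicValNat_mul_div_factorial, padicValNat_factorial_mul]

theorem eP_lead [hpf : Fact p.Prime] (m : ℕ) : (eP p hp m).natDegree = m ∧
    (eP p hp m).leadingCoeff = (1 / (p : ℂ)) ^ padicValNat p m.factorial := by
  induction m using Nat.strong_induction_on with
  | _ m ih =>
    rcases Nat.eq_zero_or_pos m with rfl | hm
    · rw [eP_zero]
      simp
    · obtain ⟨h1, h2⟩ := ih (m / p) (Nat.div_lt_self hm hp)
      have hp0 : p ≠ 0 := by omega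
      have hpc : (p : ℂ) ≠ 0 := by exact_mod_cast hp0
      have hne : (eP p hp (m / p)).comp (fqP p) ≠ 0 := by
        intro h0
        have h3 := congrArg Polynomial.leadingCoeff h0
        rw [leadingCoeff_comp (by rw [fqP_natDegree hp]; exact hp0), h2, fqP_coeff hp,
          leadingCoeff_zero] at h3
        exact (mul_ne_zero (pow_ne_zero _ (one_div_ne_zero hpc))
          (pow_ne_zero _ (one_div_ne_zero hpc))) h3
      constructor
      · rw [eP_eq, natDegree_mul hne (pow_ne_zero _ X_ne_zero), natDegree_comp, h1,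
          fqP_natDegree hp, natDegree_X_pow]
        exact Nat.div_add_mod' m p
      · rw [eP_eq, leadingCoeff_mul, leadingCoeff_X_pow, mul_one,
          leadingCoeff_comp (by rw [fqP_natDegree hp]; exact hp0), h2, h1, fqP_coeff hp,
          ← pow_add, fact_val m]

end Pool.Agent.Q49.RB
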