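import Pool.Agent.Q49.RB.Law1

set_option autoImplicit false

/-!
# Reduction of the integrality to the basis of Fermat quotients
-/

namespace Pool.Agent.Q49.RB

open Polynomial Finset

/-- the polynomial takes values with denominators prime to `p` at the natural numbers -/
def PZ (p : ℕ) (hp : p.Prime) (g : ℂ[X]) : Prop := ∀ N : ℕ, g.eval (N : ℂ) ∈ Zp p hp

variable {p : ℕ} (hp : p.Prime)

theorem Zp_fq {x : ℂ} (hx : x ∈ Zp p hp) : fq p x ∈ Zp p hp := by
  haveI : Fact p.Prime := ⟨hp⟩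
  obtain ⟨a, b, hb, h⟩ := hx
  have hp0 : (p : ℂ) ≠ 0 := by exact_mod_cast hp.ne_zero
  have hbz : ((b : ℤ) : ZMod p) ≠ 0 := by
    rw [Ne, ZMod.intCast_zmod_eq_zero_iff_dvd]
    exact hb
  have h1 : (((a ^ p - a * b ^ (p - 1) : ℤ)) : ZMod p) = 0 := by
    push_cast
    rw [ZMod.pow_card, ZMod.pow_card_sub_one_eq_one hbz]
    ring
  rw [ZMod.intCast_zmod_eq_zero_iff_dvd] at h1
  obtain ⟨c, hc⟩ := h1
  refine ⟨c, b ^ p, ?_, ?_⟩
  · intro hd
    exact hb ((Nat.prime_iff_prime_int.1 hp).dvd_of_dvd_pow hd)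
  · unfold fq
    have h2 : ((a : ℂ) ^ p - a * b ^ (p - 1)) = p * c := by exact_mod_cast hc
    have h3 : p - 1 + 1 = p := Nat.sub_add_cancel hp.one_le
    have h4 : (b : ℂ) ^ p = b ^ (p - 1) * b := by rw [← pow_succ, h3]
    push_cast
    have h5 : (x ^ p - x) * (1 / (p : ℂ)) * (b : ℂ) ^ p = ((x * b) ^ p - (x * b) * b ^ (p - 1)) / p := by
      rw [mul_pow]
      rw [show (x * b) * (b : ℂ) ^ (p - 1) = x * b ^ p by rw [h4]; ring]
      field_simp
    rw [h5, h, h2]
    field_simp

theorem Zp_ee {x : ℂ} (hx : x ∈ Zp p hp) (m : ℕ) : ee p hp.one_lt m x ∈ Zp p hp := by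
  induction m using Nat.strong_induction_on generalizing x with
  | _ m ih =>
    rcases Nat.eq_zero_or_pos m with rfl | hm
    · rw [ee_zero]
      exact one_mem _
    · rw [ee_eq]
      exact mul_mem (ih _ (Nat.div_lt_self hm hp.one_lt) (Zp_fq hp hx)) (pow_mem hx _)

theorem PZ_eP (m : ℕ) : PZ p hp (eP p hp.one_lt m) := fun N => by
  rw [eP_eval]
  exact Zp_ee hp (natCast_mem _ _) m

theorem PZ_fwd {g : ℂ[X]} (hg : PZ p hp g) (k : ℕ) : (fwdDiff (1 : ℂ))^[k] g.eval 0 ∈ Zp p hp := by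
  rw [fwdDiff_iter_eq_sum_shift]
  refine sum_mem fun j _ => ?_
  have h2 : (0 : ℂ) + j • (1 : ℂ) = (j : ℂ) := by simp
  rw [h2, zsmul_eq_mul]
  exact mul_mem (intCast_mem _ _) (hg j)

/-- Newton's expansion -/
theorem newton (g : ℂ[X]) (n : ℕ) (hg : g.natDegree ≤ n) :
    g = ∑ k ∈ range (n + 1), C ((fwdDiff (1 : ℂ))^[k] g.eval 0) * binP k := by
  refine Polynomial.eq_of_infinite_eval_eq _ _ ?_
  refine Set.Infinite.mono (s := Set.range fun N : ℕ => (N : ℂ)) ?_
    (Set.infinite_range_of_injective Nat.cast_injective)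
  rintro _ ⟨N, rfl⟩
  simp only [Set.mem_ofPred_eq]
  have h1 := shift_eq_sum_fwdDiff_iter (1 : ℂ) g.eval N 0
  have h2 : (0 : ℂ) + N • (1 : ℂ) = (N : ℂ) := by simp
  rw [h2] at h1
  rw [h1, eval_finsetSum]
  simp only [eval_mul, eval_C, binP_eval, bin_nat]
  have h3 : ∀ k, (N.choose k) • (fwdDiff (1 : ℂ))^[k] g.eval 0 =
      (fwdDiff (1 : ℂ))^[k] g.eval 0 * (N.choose k : ℂ) := by
    intro k
    rw [nsmul_eq_mul, mul_comm]
  simp only [h3]
  rcases le_total (N + 1) (n + 1) with hle | hle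
  · refine sum_subset (range_mono hle) fun k _ hk => ?_
    rw [mem_range, not_lt] at hk
    rw [Nat.choose_eq_zero_of_lt (by omega)]
    simp
  · symm
    refine sum_subset (range_mono hle) fun k _ hk => ?_
    rw [mem_range, not_lt] at hk
    have := Polynomial.fwdDiff_iter_eq_zero_of_degree_lt (P := g) (n := k) (by omega)
    rw [this]
    simp

/-- necessity: the values of `p`-integral polynomials -/
theorem local_of_integral {ι : Type} [Fintype ι] {n : ℕ} {x : ι → ℂ}
    (h : Integral n (fun _ : ι => 1) x) (g : ℂ[X]) (hg : g.natDegree ≤ n) (hz : PZ p hp g) :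
    ∑ i, g.eval (x i) ∈ Zp p hp := by
  have h1 := newton g n hg
  have h2 : ∑ i, g.eval (x i) = ∑ k ∈ range (n + 1), (fwdDiff (1 : ℂ))^[k] g.eval 0 *
      ∑ i, bin (x i) k := by
    conv_lhs => rw [h1]
    simp only [eval_finsetSum, eval_mul, eval_C, binP_eval]
    rw [sum_comm]
    simp only [mul_sum]
  rw [h2]
  refine sum_mem fun k hk => mul_mem (PZ_fwd hp hz k) ?_
  obtain ⟨z, hz'⟩ := h.le (m := k) (by rw [mem_range] at hk; omega) 0
  simp only [Int.cast_zero, zero_add, Int.cast_one, one_mul] at hz'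
  rw [hz']
  exact intCast_mem _ _

/-- the factorial up to a unit -/
theorem fact_unit (m : ℕ) : ∃ u ∈ Zp p hp, ((m.factorial : ℕ) : ℂ) * u =
    (p : ℂ) ^ padicValNat p m.factorial := by
  haveI : Fact p.Prime := ⟨hp⟩
  obtain ⟨e, k, hk, h⟩ := Nat.exists_eq_pow_mul_and_not_dvd (Nat.factorial_ne_zero m) p hp.ne_one
  have hv : padicValNat p m.factorial = e := by
    rw [h, padicValNat.mul (pow_ne_zero _ hp.ne_zero) (by rintro rfl; simp at hk),
      padicValNat.prime_pow, padicValNat.eq_zero_of_not_dvd hk, add_zero]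
  have hk0 : (k : ℂ) ≠ 0 := by
    have : k ≠ 0 := by rintro rfl; simp at hk
    exact_mod_cast this
  refine ⟨((k : ℤ) : ℂ)⁻¹, Zp_inv hp _ (by exact_mod_cast hk), ?_⟩
  rw [hv, h]
  push_cast
  field_simp

/-- sufficiency: it is enough to know the values on the basis -/
theorem local_of_basis {ι : Type} [Fintype ι] {n : ℕ} {x : ι → ℂ}
    (h : ∀ m ≤ n, ∑ i, ee p hp.one_lt m (x i) ∈ Zp p hp) (g : ℂ[X]) (hg : g.natDegree ≤ n)
    (hz : PZ p hp g) : ∑ i, g.eval (x i) ∈ Zp p hp := by
  haveI : Fact p.Prime := ⟨hp⟩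
  have hp0 : (p : ℂ) ≠ 0 := by exact_mod_cast hp.ne_zero
  induction n generalizing g with
  | zero =>
    have h0 : g = C (g.coeff 0) := eq_C_of_natDegree_le_zero hg
    have h1 := hz 0
    have h2 := h 0 le_rfl
    simp only [ee_zero] at h2
    rw [h0] at h1 ⊢
    simp only [eval_C] at h1 ⊢
    have : ∑ _i : ι, g.coeff 0 = g.coeff 0 * ∑ _i : ι, (1 : ℂ) := by
      rw [mul_sum]
      simp
    rw [this]
    exact mul_mem h1 h2
  | succ n ih =>
    obtain ⟨hd, hl⟩ := eP_lead hp.one_lt (n + 1)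
    obtain ⟨u, hu, hfu⟩ := fact_unit hp (n + 1)
    set c : ℂ := g.coeff (n + 1) * (p : ℂ) ^ padicValNat p (n + 1).factorial with hc
    have hcm : c ∈ Zp p hp := by
      rw [hc, ← hfu, ← mul_assoc]
      refine mul_mem ?_ hu
      rcases hg.lt_or_eq with hlt | heq
      · rw [coeff_eq_zero_of_natDegree_lt hlt, zero_mul]
        exact zero_mem _
      · have h1 := Polynomial.fwdDiff_iter_degree_eq_factorial g
        have h2 := PZ_fwd hp hz g.natDegree
        rw [h1] at h2
        rw [Pi.smul_apply, smul_eq_mul, Pi.natCast_apply, leadingCoeff] at h2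
        rw [← heq]
        exact h2
    set g' : ℂ[X] := g - C c * eP p hp.one_lt (n + 1) with hg'
    have hz' : PZ p hp g' := by
      intro N
      rw [hg', eval_sub, eval_mul, eval_C]
      exact sub_mem (hz N) (mul_mem hcm (PZ_eP hp _ N))
    have hdeg : g'.natDegree ≤ n := by
      rw [natDegree_le_iff_coeff_eq_zero]
      intro N hN
      rw [hg', coeff_sub, coeff_C_mul]
      rcases (Nat.succ_le_of_lt hN).lt_or_eq with hlt | heq
      · rw [coeff_eq_zero_of_natDegree_lt (by omega : g.natDegree < N),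
          coeff_eq_zero_of_natDegree_lt (by omega : (eP p hp.one_lt (n + 1)).natDegree < N)]
        ring
      · have h3 : (eP p hp.one_lt (n + 1)).coeff N = (1 / (p : ℂ)) ^ padicValNat p (n + 1).factorial := by
          rw [← hl, leadingCoeff, hd]
          congr 1
          exact heq.symm
        have h4 : N = n + 1 := heq.symm
        rw [h3, h4, hc]
        have h5 : (p : ℂ) ^ padicValNat p (n + 1).factorial *
            (1 / (p : ℂ)) ^ padicValNat p (n + 1).factorial = 1 := by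
          rw [← mul_pow, mul_one_div_cancel hp0, one_pow]
        rw [mul_assoc, h5]
        ring
    have h1 := ih (fun m hm => h m (by omega)) g' hdeg hz'
    have h2 : ∑ i, g.eval (x i) = ∑ i, g'.eval (x i) + c * ∑ i, ee p hp.one_lt (n + 1) (x i) := by
      rw [mul_sum, ← sum_add_distrib]
      refine sum_congr rfl fun i _ => ?_
      rw [hg', eval_sub, eval_mul, eval_C, eP_eval]
      ring
    rw [h2]
    exact add_mem h1 (mul_mem hcm (h _ le_rfl))

/-- a rational number without denominators -/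
theorem int_of_local {q : ℂ} (h : ∀ (p : ℕ) (hp : p.Prime), q ∈ Zp p hp) : ∃ z : ℤ, q = z := by
  obtain ⟨a, b, hb, hab⟩ := h 2 Nat.prime_two
  have hb0 : b ≠ 0 := by
    rintro rfl
    exact hb (dvd_zero _)
  have hbc : (b : ℂ) ≠ 0 := by exact_mod_cast hb0
  set r : ℚ := (a : ℚ) / b with hr
  have hq : q = (r : ℂ) := by
    rw [hr]
    push_cast
    field_simp
    exact hab
  have hden : r.den = 1 := by
    by_contra hne
    obtain ⟨p, hp, hpd⟩ := Nat.exists_prime_and_dvd hne
    obtain ⟨a', b', hb', hab'⟩ := h p hp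
    have h1 : r * b' = a' := by
      have : ((r * b' : ℚ) : ℂ) = ((a' : ℚ) : ℂ) := by
        push_cast
        rw [← hq]
        exact hab'
      exact_mod_cast this
    have h2 : r * r.den = r.num := Rat.mul_den_eq_num r
    have hd0 : (r.den : ℚ) ≠ 0 := by exact_mod_cast r.den_ne_zero
    have h3 : (r.num : ℚ) * b' = a' * r.den := by
      rw [← h2, ← h1]
      ring
    have h4 : r.num * b' = a' * r.den := by exact_mod_cast h3
    have h5 : (p : ℤ) ∣ r.num * b' := by
      rw [h4]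
      exact Dvd.dvd.mul_left (by exact_mod_cast hpd) _
    rcases (Nat.prime_iff_prime_int.1 hp).dvd_or_dvd h5 with h6 | h6
    · have h7 := r.reduced
      have h8 : p ∣ r.num.natAbs := by
        have := Int.natAbs_dvd_natAbs.2 h6
        simpa using this
      have h9 := Nat.dvd_gcd h8 hpd
      rw [h7] at h9
      exact hp.one_lt.ne' (Nat.dvd_one.1 h9)
    · exact hb' h6
  refine ⟨r.num, ?_⟩
  rw [hq, ← Rat.num_div_den r, hden]
  simp

end Pool.Agent.Q49.RB
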