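import Pool.Agent.Q49.RB.Law2

set_option autoImplicit false

/-!
# Iterated Fermat quotients in a quadratic order
-/

namespace Pool.Agent.Q49.RB

open Polynomial Finset

/-- a quadratic order at `p` -/
structure QO (p : ℕ) where
  hp : p.Prime
  ω : ℂ
  ω' : ℂ
  s : ℤ
  m : ℤ
  hs : ω + ω' = s
  hm : ω * ω' = m

namespace QO

variable {p : ℕ} (Q : QO p)

theorem sq1 : Q.ω * Q.ω = Q.s * Q.ω - Q.m := by rw [← Q.hs, ← Q.hm]; ring

theorem sq2 : Q.ω' * Q.ω' = Q.s * Q.ω' - Q.m := by rw [← Q.hs, ← Q.hm]; ring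

/-- the order, in `ℂ × ℂ` -/
def R : Subring (ℂ × ℂ) where
  carrier := {α | ∃ u ∈ Zp p Q.hp, ∃ v ∈ Zp p Q.hp, α = (u + v * Q.ω, u + v * Q.ω')}
  mul_mem' := by
    rintro _ _ ⟨u, hu, v, hv, rfl⟩ ⟨u', hu', v', hv', rfl⟩
    refine ⟨u * u' - v * v' * Q.m, ?_, u * v' + v * u' + v * v' * Q.s, ?_, ?_⟩
    · exact sub_mem (mul_mem hu hu') (mul_mem (mul_mem hv hv') (intCast_mem _ _))
    · exact add_mem (add_mem (mul_mem hu hv') (mul_mem hv hu'))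
        (mul_mem (mul_mem hv hv') (intCast_mem _ _))
    · have h1 := Q.sq1
      have h2 := Q.sq2
      ext
      · simp only [Prod.fst_mul]
        linear_combination v * v' * h1
      · simp only [Prod.snd_mul]
        linear_combination v * v' * h2
  one_mem' := ⟨1, one_mem _, 0, zero_mem _, by simp; rfl⟩
  add_mem' := by
    rintro _ _ ⟨x, hx, y, hy, rfl⟩ ⟨u, hu, v, hv, rfl⟩
    refine ⟨x + u, add_mem hx hu, y + v, add_mem hy hv, ?_⟩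
    ext
    · simp only [Prod.fst_add]
      ring
    · simp only [Prod.snd_add]
      ring
  zero_mem' := ⟨0, zero_mem _, 0, zero_mem _, by simp; rfl⟩
  neg_mem' := by
    rintro _ ⟨x, hx, y, hy, rfl⟩
    refine ⟨-x, neg_mem hx, -y, neg_mem hy, ?_⟩
    ext
    · simp only [Prod.fst_neg]
      ring
    · simp only [Prod.snd_neg]
      ring

theorem diag_mem {q : ℂ} (hq : q ∈ Zp p Q.hp) : ((q, q) : ℂ × ℂ) ∈ Q.R :=
  ⟨q, hq, 0, zero_mem _, by simp⟩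

theorem p_mem : ((p : ℂ × ℂ)) ∈ Q.R := natCast_mem _ _

theorem tr_mem {α : ℂ × ℂ} (h : α ∈ Q.R) : α.1 + α.2 ∈ Zp p Q.hp := by
  obtain ⟨u, hu, v, hv, rfl⟩ := h
  have : u + v * Q.ω + (u + v * Q.ω') = u + u + v * Q.s := by rw [← Q.hs]; ring
  simp only [this]
  exact add_mem (add_mem hu hu) (mul_mem hv (intCast_mem _ _))

end QO

/-- the Fermat quotient of a pair -/
noncomputable def fqq (p : ℕ) (z : ℂ × ℂ) : ℂ × ℂ := (fq p z.1, fq p z.2)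

/-- the iterates -/
noncomputable def fitt (p v : ℕ) (z : ℂ × ℂ) : ℂ × ℂ := (fit p v z.1, fit p v z.2)

/-- the values of the basis -/
noncomputable def eep (p : ℕ) (hp : 1 < p) (m : ℕ) (z : ℂ × ℂ) : ℂ × ℂ :=
  (ee p hp m z.1, ee p hp m z.2)

theorem fitt_zero (p : ℕ) (z : ℂ × ℂ) : fitt p 0 z = z := rfl

theorem fitt_succ (p v : ℕ) (z : ℂ × ℂ) : fitt p (v + 1) z = fitt p v (fqq p z) := rfl

theorem eep_eq {p : ℕ} (hp : 1 < p) (m : ℕ) (z : ℂ × ℂ) :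
    eep p hp m z = eep p hp (m / p) (fqq p z) * z ^ (m % p) := by
  unfold eep fqq
  rw [ee_eq hp m z.1, ee_eq hp m z.2]
  rfl

theorem eep_zero {p : ℕ} (hp : 1 < p) (z : ℂ × ℂ) : eep p hp 0 z = 1 := by
  unfold eep
  rw [ee_zero, ee_zero]
  rfl

theorem eep_split {p : ℕ} (hp : 1 < p) (v m₀ m₁ : ℕ) (h : m₀ < p ^ v) (z : ℂ × ℂ) :
    eep p hp (m₀ + p ^ v * m₁) z = eep p hp m₀ z * eep p hp m₁ (fitt p v z) := by
  unfold eep fitt
  rw [ee_split hp v m₀ m₁ h z.1, ee_split hp v m₀ m₁ h z.2]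
  rfl

theorem fqq_of {p : ℕ} (hp0 : p ≠ 0) {z w : ℂ × ℂ} (h : z ^ p - z = (p : ℂ × ℂ) * w) :
    fqq p z = w := by
  have hp0' : (p : ℂ) ≠ 0 := by exact_mod_cast hp0
  have h1 := congrArg Prod.fst h
  have h2 := congrArg Prod.snd h
  simp only [Prod.fst_sub, Prod.snd_sub, Prod.pow_fst, Prod.pow_snd, Prod.fst_mul, Prod.snd_mul,
    Prod.fst_natCast, Prod.snd_natCast] at h1 h2
  unfold fqq fq
  ext
  · simp only
    rw [h1]
    field_simp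
  · simp only
    rw [h2]
    field_simp

theorem p_fqq {p : ℕ} (hp0 : p ≠ 0) (z : ℂ × ℂ) : (p : ℂ × ℂ) * fqq p z = z ^ p - z := by
  have hp0' : (p : ℂ) ≠ 0 := by exact_mod_cast hp0
  unfold fqq fq
  ext
  · simp only [Prod.fst_mul, Prod.fst_natCast, Prod.fst_sub, Prod.pow_fst]
    field_simp
  · simp only [Prod.snd_mul, Prod.snd_natCast, Prod.snd_sub, Prod.pow_snd]
    field_simp

theorem fqq_diag {p : ℕ} (a : ℂ) : fqq p (a, a) = (fq p a, fq p a) := rfl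

namespace QO

variable {p : ℕ} (Q : QO p)

/-- expansion of a power -/
theorem pow_exp {x y : ℂ × ℂ} (hx : x ∈ Q.R) (hy : y ∈ Q.R) (n : ℕ) :
    ∃ k ∈ Q.R, (x + y) ^ n = x ^ n + n * x ^ (n - 1) * y + k * y ^ 2 := by
  obtain ⟨k, hk⟩ := Polynomial.powAddExpansion (⟨x, hx⟩ : Q.R) ⟨y, hy⟩ n
  refine ⟨k.1, k.2, ?_⟩
  have := congrArg Subtype.val hk
  simpa using this

/-- Frobenius -/
theorem frob {x y : ℂ × ℂ} (hx : x ∈ Q.R) (hy : y ∈ Q.R) :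
    ∃ r ∈ Q.R, (x + y) ^ p = x ^ p + y ^ p + p * r := by
  obtain ⟨r, hr⟩ := exists_add_pow_prime_eq Q.hp (⟨x, hx⟩ : Q.R) ⟨y, hy⟩
  refine ⟨x * y * r.1, mul_mem (mul_mem hx hy) r.2, ?_⟩
  have := congrArg Subtype.val hr
  simp only [Subring.coe_pow, Subring.coe_add, Subring.coe_mul, Subring.coe_natCast] at this
  rw [this]
  ring

/-- the power of a scalar -/
theorem diag_pow {a : ℂ} (ha : a ∈ Zp p Q.hp) :
    ∃ b ∈ Zp p Q.hp, ((a, a) : ℂ × ℂ) ^ p = (a, a) + (p : ℂ × ℂ) * (b, b) := by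
  refine ⟨fq p a, Zp_fq Q.hp ha, ?_⟩
  have h := p_fqq Q.hp.ne_zero ((a, a) : ℂ × ℂ)
  rw [fqq_diag] at h
  rw [h]
  ring

/-- one Fermat quotient -/
theorem step {a : ℂ} (ha : a ∈ Zp p Q.hp) {y : ℂ × ℂ} (hy : y ∈ Q.R) (t : ℕ) :
    ∃ a' ∈ Zp p Q.hp, ∃ y' ∈ Q.R, fqq p ((a, a) + (p : ℂ × ℂ) ^ (t + 1) * y) =
      (a', a') + (p : ℂ × ℂ) ^ t * (-y + (p : ℂ × ℂ) * y') := by
  have hA := Q.diag_mem ha
  have hP : (p : ℂ × ℂ) ^ (t + 1) * y ∈ Q.R := mul_mem (pow_mem Q.p_mem _) hy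
  obtain ⟨k, hk, h1⟩ := Q.pow_exp hA hP p
  obtain ⟨b, hb, h2⟩ := Q.diag_pow ha
  refine ⟨b, hb, ((a, a) : ℂ × ℂ) ^ (p - 1) * y + (p : ℂ × ℂ) ^ t * (k * y ^ 2), ?_, ?_⟩
  · exact add_mem (mul_mem (pow_mem hA _) hy)
      (mul_mem (pow_mem Q.p_mem _) (mul_mem hk (pow_mem hy _)))
  · refine fqq_of Q.hp.ne_zero ?_
    rw [h1, h2]
    ring

/-- iterated Fermat quotients -/
theorem iter (v : ℕ) {a : ℂ} (ha : a ∈ Zp p Q.hp) {y : ℂ × ℂ} (hy : y ∈ Q.R) :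
    ∃ a' ∈ Zp p Q.hp, ∃ y' ∈ Q.R, fitt p v ((a, a) + (p : ℂ × ℂ) ^ v * y) =
      (a', a') + ((-1) ^ v * y + (p : ℂ × ℂ) * y') := by
  induction v generalizing a y with
  | zero =>
    refine ⟨a, ha, 0, zero_mem _, ?_⟩
    rw [fitt_zero]
    ring
  | succ v ih =>
    obtain ⟨a', ha', y', hy', h⟩ := Q.step ha hy v
    have hy1 : -y + (p : ℂ × ℂ) * y' ∈ Q.R := add_mem (neg_mem hy) (mul_mem Q.p_mem hy')
    obtain ⟨a'', ha'', y'', hy'', h'⟩ := ih ha' hy1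
    refine ⟨a'', ha'', (-1) ^ v * y' + y'', add_mem (mul_mem (pow_mem (neg_mem (one_mem _)) _) hy') hy'',
      ?_⟩
    rw [fitt_succ, h, h']
    ring

/-- elements congruent to a scalar modulo `p` -/
def NS : Subring (ℂ × ℂ) where
  carrier := {α | ∃ c ∈ Zp p Q.hp, ∃ w ∈ Q.R, α = (c, c) + (p : ℂ × ℂ) * w}
  mul_mem' := by
    rintro _ _ ⟨c, hc, w, hw, rfl⟩ ⟨c', hc', w', hw', rfl⟩
    refine ⟨c * c', mul_mem hc hc', (c, c) * w' + (c', c') * w + (p : ℂ × ℂ) * (w * w'), ?_, ?_⟩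
    · exact add_mem (add_mem (mul_mem (Q.diag_mem hc) hw') (mul_mem (Q.diag_mem hc') hw))
        (mul_mem Q.p_mem (mul_mem hw hw'))
    · have : ((c * c', c * c') : ℂ × ℂ) = (c, c) * (c', c') := rfl
      rw [this]
      ring
  one_mem' := ⟨1, one_mem _, 0, zero_mem _, by simp; rfl⟩
  add_mem' := by
    rintro _ _ ⟨c, hc, w, hw, rfl⟩ ⟨c', hc', w', hw', rfl⟩
    refine ⟨c + c', add_mem hc hc', w + w', add_mem hw hw', ?_⟩
    have : ((c + c', c + c') : ℂ × ℂ) = (c, c) + (c', c') := rfl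
    rw [this]
    ring
  zero_mem' := ⟨0, zero_mem _, 0, zero_mem _, by simp; rfl⟩
  neg_mem' := by
    rintro _ ⟨c, hc, w, hw, rfl⟩
    refine ⟨-c, neg_mem hc, -w, neg_mem hw, ?_⟩
    have : ((-c, -c) : ℂ × ℂ) = -(c, c) := rfl
    rw [this]
    ring

theorem NS_le {α : ℂ × ℂ} (h : α ∈ Q.NS) : α ∈ Q.R := by
  obtain ⟨c, hc, w, hw, rfl⟩ := h
  exact add_mem (Q.diag_mem hc) (mul_mem Q.p_mem hw)

/-- the low digits give elements congruent to scalars -/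
theorem low (v : ℕ) {a : ℂ} (ha : a ∈ Zp p Q.hp) {y : ℂ × ℂ} (hy : y ∈ Q.R) (m₀ : ℕ)
    (h : m₀ < p ^ v) : eep p Q.hp.one_lt m₀ ((a, a) + (p : ℂ × ℂ) ^ v * y) ∈ Q.NS := by
  induction v generalizing a y m₀ with
  | zero =>
    have : m₀ = 0 := by simpa using h
    subst this
    rw [eep_zero]
    exact one_mem _
  | succ v ih =>
    obtain ⟨a', ha', y', hy', h1⟩ := Q.step ha hy v
    have hy1 : -y + (p : ℂ × ℂ) * y' ∈ Q.R := add_mem (neg_mem hy) (mul_mem Q.p_mem hy')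
    rw [eep_eq, h1]
    refine mul_mem (ih ha' hy1 _ ?_) (pow_mem ?_ _)
    · rw [Nat.div_lt_iff_lt_mul Q.hp.pos, ← pow_succ]
      exact h
    · exact ⟨a, ha, (p : ℂ × ℂ) ^ v * y, mul_mem (pow_mem Q.p_mem _) hy, by ring⟩

/-- traces of products with elements congruent to scalars -/
theorem tr_NS {α β : ℂ × ℂ} (hα : α ∈ Q.NS) (hβ : (p : ℂ × ℂ) * β ∈ Q.R)
    (ht : β.1 + β.2 ∈ Zp p Q.hp) : (α * β).1 + (α * β).2 ∈ Zp p Q.hp := by
  obtain ⟨c, hc, w, hw, rfl⟩ := hα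
  have h1 := Q.tr_mem (mul_mem hw hβ)
  have h2 : (((c, c) + (p : ℂ × ℂ) * w) * β).1 + (((c, c) + (p : ℂ × ℂ) * w) * β).2 =
      c * (β.1 + β.2) + ((w * ((p : ℂ × ℂ) * β)).1 + (w * ((p : ℂ × ℂ) * β)).2) := by
    simp only [Prod.fst_mul, Prod.snd_mul, Prod.fst_add, Prod.snd_add, Prod.fst_natCast,
      Prod.snd_natCast]
    ring
  rw [h2]
  exact add_mem (mul_mem hc ht) h1

theorem eep_one (z : ℂ × ℂ) : eep p Q.hp.one_lt 1 z = z := by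
  rw [eep_eq, Nat.div_eq_of_lt Q.hp.one_lt, Nat.mod_eq_of_lt Q.hp.one_lt, eep_zero, pow_one, one_mul]

theorem eep_small {r : ℕ} (hr : r < p) (z : ℂ × ℂ) : eep p Q.hp.one_lt r z = z ^ r := by
  rw [eep_eq, Nat.div_eq_of_lt hr, Nat.mod_eq_of_lt hr, eep_zero, one_mul]

theorem eep_p {r : ℕ} (hr : r < p) (z : ℂ × ℂ) :
    eep p Q.hp.one_lt (p + r) z = fqq p z * z ^ r := by
  have h1 : (p + r) / p = 1 := by
    rw [Nat.add_div_left _ Q.hp.pos, Nat.div_eq_of_lt hr]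
  have h2 : (p + r) % p = r := by
    rw [Nat.add_mod_left, Nat.mod_eq_of_lt hr]
  rw [eep_eq, h1, h2, Q.eep_one]

/-- The trace of every element of the basis is integral below the first bound. -/
theorem suff_inert (v : ℕ) {a : ℂ} (ha : a ∈ Zp p Q.hp) {y : ℂ × ℂ} (hy : y ∈ Q.R)
    (htr : ∀ z ∈ Q.R, (fqq p z).1 + (fqq p z).2 ∈ Zp p Q.hp) (m : ℕ) (hm : m < p ^ v * (p + 1)) :
    (eep p Q.hp.one_lt m ((a, a) + (p : ℂ × ℂ) ^ v * y)).1 +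
      (eep p Q.hp.one_lt m ((a, a) + (p : ℂ × ℂ) ^ v * y)).2 ∈ Zp p Q.hp := by
  have hpv : 0 < p ^ v := pow_pos Q.hp.pos v
  set z : ℂ × ℂ := (a, a) + (p : ℂ × ℂ) ^ v * y with hz
  have h1 : m % p ^ v + p ^ v * (m / p ^ v) = m := Nat.mod_add_div m _
  have hlt : m % p ^ v < p ^ v := Nat.mod_lt _ hpv
  have hm1 : m / p ^ v < p + 1 := by
    rw [Nat.div_lt_iff_lt_mul hpv, mul_comm]
    exact hm
  obtain ⟨a', ha', y', hy', hY⟩ := Q.iter v ha hy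
  have hYm : fitt p v z ∈ Q.R := by
    rw [hz, hY]
    exact add_mem (Q.diag_mem ha') (add_mem (mul_mem (pow_mem (neg_mem (one_mem _)) _) hy)
      (mul_mem Q.p_mem hy'))
  have hlow : eep p Q.hp.one_lt (m % p ^ v) z ∈ Q.NS := Q.low v ha hy _ hlt
  rw [← h1, eep_split Q.hp.one_lt v _ _ hlt z]
  rcases lt_or_eq_of_le (Nat.lt_succ_iff.1 hm1) with h2 | h2
  · rw [Q.eep_small h2]
    exact Q.tr_mem (mul_mem (Q.NS_le hlow) (pow_mem hYm _))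
  · have h3 := Q.eep_p Q.hp.pos (fitt p v z)
    rw [add_zero, pow_zero, mul_one] at h3
    rw [h2, h3]
    refine Q.tr_NS hlow ?_ (htr _ hYm)
    rw [p_fqq Q.hp.ne_zero]
    exact sub_mem (pow_mem hYm _) hYm

/-- The trace of every element of the basis is integral below the second bound. -/
theorem suff_ram (v : ℕ) {a : ℂ} (ha : a ∈ Zp p Q.hp) {y : ℂ × ℂ} (hy : y ∈ Q.R)
    (htr : ∀ z ∈ Q.R, ∀ w ∈ Q.R, (fqq p z * w).1 + (fqq p z * w).2 ∈ Zp p Q.hp) (m : ℕ)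
    (hm : m < 2 * (p * p ^ v)) :
    (eep p Q.hp.one_lt m ((a, a) + (p : ℂ × ℂ) ^ v * y)).1 +
      (eep p Q.hp.one_lt m ((a, a) + (p : ℂ × ℂ) ^ v * y)).2 ∈ Zp p Q.hp := by
  have hpv : 0 < p ^ v := pow_pos Q.hp.pos v
  set z : ℂ × ℂ := (a, a) + (p : ℂ × ℂ) ^ v * y with hz
  have h1 : m % p ^ v + p ^ v * (m / p ^ v) = m := Nat.mod_add_div m _
  have hlt : m % p ^ v < p ^ v := Nat.mod_lt _ hpv
  have hm1 : m / p ^ v < 2 * p := by
    rw [Nat.div_lt_iff_lt_mul hpv, mul_assoc]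
    exact hm
  obtain ⟨a', ha', y', hy', hY⟩ := Q.iter v ha hy
  have hYm : fitt p v z ∈ Q.R := by
    rw [hz, hY]
    exact add_mem (Q.diag_mem ha') (add_mem (mul_mem (pow_mem (neg_mem (one_mem _)) _) hy)
      (mul_mem Q.p_mem hy'))
  have hlow := Q.NS_le (Q.low v ha hy _ hlt)
  rw [← hz] at hlow
  rw [← h1, eep_split Q.hp.one_lt v _ _ hlt z]
  rcases lt_or_ge (m / p ^ v) p with h2 | h2
  · rw [Q.eep_small h2]
    exact Q.tr_mem (mul_mem hlow (pow_mem hYm _))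
  · obtain ⟨r, hr⟩ := Nat.exists_eq_add_of_le h2
    rw [hr, Q.eep_p (by omega : r < p)]
    have h4 : eep p Q.hp.one_lt (m % p ^ v) z * (fqq p (fitt p v z) * fitt p v z ^ r) =
        fqq p (fitt p v z) * (eep p Q.hp.one_lt (m % p ^ v) z * fitt p v z ^ r) := by ring
    rw [h4]
    exact htr _ hYm _ (mul_mem hlow (pow_mem hYm _))

/-- The split case. -/
theorem suff_split {z : ℂ × ℂ} (hz : z ∈ Q.R) (hst : ∀ z ∈ Q.R, fqq p z ∈ Q.R) (m : ℕ) :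
    eep p Q.hp.one_lt m z ∈ Q.R := by
  induction m using Nat.strong_induction_on generalizing z with
  | _ m ih =>
    rcases Nat.eq_zero_or_pos m with rfl | hm
    · rw [eep_zero]
      exact one_mem _
    · rw [eep_eq]
      exact mul_mem (ih _ (Nat.div_lt_self hm Q.hp.one_lt) (hst z hz)) (pow_mem hz _)

end QO

end Pool.Agent.Q49.RB
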