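import Pool.Agent.Q49.RB.Law3

set_option autoImplicit false

/-!
# The three types of primes
-/

namespace Pool.Agent.Q49.RB

open Polynomial Finset

namespace QO

variable {p : ℕ} (Q : QO p)

/-- the generator -/
def gen : ℂ × ℂ := (Q.ω, Q.ω')

/-- its conjugate -/
def gen' : ℂ × ℂ := (Q.ω', Q.ω)

/-- the root of the discriminant -/
def rt : ℂ × ℂ := (Q.ω - Q.ω', Q.ω' - Q.ω)

/-- the discriminant -/
def disc : ℤ := Q.s ^ 2 - 4 * Q.m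

theorem gen_mem : Q.gen ∈ Q.R := ⟨0, zero_mem _, 1, one_mem _, by simp [gen]⟩

theorem gen'_mem : Q.gen' ∈ Q.R := by
  refine ⟨Q.s, intCast_mem _ _, -1, neg_mem (one_mem _), ?_⟩
  unfold gen'
  rw [← Q.hs]
  ext <;> simp

theorem rt_eq : Q.rt = 2 * Q.gen - (Q.s : ℂ × ℂ) := by
  have h : ((Q.s : ℂ × ℂ)) = ((Q.s : ℂ), (Q.s : ℂ)) := rfl
  rw [h, ← Q.hs]
  unfold rt gen
  ext <;> simp <;> ring

theorem rt_mem : Q.rt ∈ Q.R := by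
  rw [rt_eq]
  exact sub_mem (mul_mem (by exact_mod_cast natCast_mem Q.R 2) Q.gen_mem) (intCast_mem _ _)

theorem disc_eq : (Q.ω - Q.ω') ^ 2 = (Q.disc : ℂ) := by
  unfold disc
  push_cast
  rw [← Q.hs, ← Q.hm]
  ring

theorem rt_sq : Q.rt * Q.rt = (Q.disc : ℂ × ℂ) := by
  have h : ((Q.disc : ℂ × ℂ)) = ((Q.disc : ℂ), (Q.disc : ℂ)) := rfl
  rw [h, ← Q.disc_eq]
  unfold rt
  ext
  · simp only [Prod.fst_mul]
    ring
  · simp only [Prod.snd_mul]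
    ring

/-- coordinates -/
theorem coord {y : ℂ × ℂ} (hy : y ∈ Q.R) :
    ∃ u ∈ Zp p Q.hp, ∃ v ∈ Zp p Q.hp, y = (u, u) + (v, v) * Q.gen := by
  obtain ⟨u, hu, v, hv, h⟩ := hy
  exact ⟨u, hu, v, hv, h⟩

/-- coordinates with respect to the root of the discriminant -/
theorem coord' (hp2 : p ≠ 2) {y : ℂ × ℂ} (hy : y ∈ Q.R) :
    ∃ u ∈ Zp p Q.hp, ∃ v ∈ Zp p Q.hp, y = (u, u) + (v, v) * Q.rt := by
  obtain ⟨u, hu, v, hv, h⟩ := hy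
  refine ⟨u + v * Q.s * 2⁻¹, add_mem hu (mul_mem (mul_mem hv (intCast_mem _ _)) (half_mem Q.hp hp2)),
    v * 2⁻¹, mul_mem hv (half_mem Q.hp hp2), ?_⟩
  rw [h, ← Q.hs]
  unfold rt
  ext
  · simp only [Prod.fst_add, Prod.fst_mul]
    ring
  · simp only [Prod.snd_add, Prod.snd_mul]
    ring

/-- Frobenius on the order -/
theorem frobY {T w : ℂ × ℂ} (hT : T ∈ Q.R) (hw : w ∈ Q.R)
    (h : Q.gen ^ p = T + (p : ℂ × ℂ) * w) {u v : ℂ} (hu : u ∈ Zp p Q.hp) (hv : v ∈ Zp p Q.hp) :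
    ∃ r ∈ Q.R, ((u, u) + (v, v) * Q.gen) ^ p = (u, u) + (v, v) * T + (p : ℂ × ℂ) * r := by
  obtain ⟨r1, hr1, h1⟩ := Q.frob (Q.diag_mem hu) (mul_mem (Q.diag_mem hv) Q.gen_mem)
  obtain ⟨b1, hb1, h2⟩ := Q.diag_pow hu
  obtain ⟨b2, hb2, h3⟩ := Q.diag_pow hv
  refine ⟨(b1, b1) + (b2, b2) * T + (v, v) * w + (p : ℂ × ℂ) * ((b2, b2) * w) + r1, ?_, ?_⟩
  · exact add_mem (add_mem (add_mem (add_mem (Q.diag_mem hb1) (mul_mem (Q.diag_mem hb2) hT))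
      (mul_mem (Q.diag_mem hv) hw)) (mul_mem Q.p_mem (mul_mem (Q.diag_mem hb2) hw))) hr1
  · rw [h1, mul_pow, h2, h3, h]
    ring

/-- `p` splits -/
def Split : Prop := ∃ w ∈ Q.R, Q.gen ^ p = Q.gen + (p : ℂ × ℂ) * w

/-- `p` is inert -/
def Inrt : Prop := ∃ w ∈ Q.R, Q.gen ^ p = Q.gen' + (p : ℂ × ℂ) * w

theorem split_stable (h : Q.Split) {z : ℂ × ℂ} (hz : z ∈ Q.R) : fqq p z ∈ Q.R := by
  obtain ⟨w, hw, hgen⟩ := h
  obtain ⟨u, hu, v, hv, rfl⟩ := Q.coord hz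
  obtain ⟨r, hr, h1⟩ := Q.frobY Q.gen_mem hw hgen hu hv
  have : fqq p ((u, u) + (v, v) * Q.gen) = r := fqq_of Q.hp.ne_zero (by rw [h1]; ring)
  rw [this]
  exact hr

theorem inrt_fqq (h : Q.Inrt) {u v : ℂ} (hu : u ∈ Zp p Q.hp) (hv : v ∈ Zp p Q.hp) :
    ∃ r ∈ Q.R, (p : ℂ × ℂ) * fqq p ((u, u) + (v, v) * Q.gen) =
      (v, v) * (Q.gen' - Q.gen) + (p : ℂ × ℂ) * r := by
  obtain ⟨w, hw, hgen⟩ := h
  obtain ⟨r, hr, h1⟩ := Q.frobY Q.gen'_mem hw hgen hu hv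
  refine ⟨r, hr, ?_⟩
  rw [p_fqq Q.hp.ne_zero, h1]
  ring

theorem inrt_tr (h : Q.Inrt) {z : ℂ × ℂ} (hz : z ∈ Q.R) :
    (fqq p z).1 + (fqq p z).2 ∈ Zp p Q.hp := by
  have hp0 : (p : ℂ) ≠ 0 := by exact_mod_cast Q.hp.ne_zero
  obtain ⟨u, hu, v, hv, rfl⟩ := Q.coord hz
  obtain ⟨r, hr, h1⟩ := Q.inrt_fqq h hu hv
  set Z := fqq p ((u, u) + (v, v) * Q.gen) with hZ
  have e1 := congrArg Prod.fst h1
  have e2 := congrArg Prod.snd h1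
  simp only [Prod.fst_mul, Prod.snd_mul, Prod.fst_add, Prod.snd_add, Prod.fst_sub, Prod.snd_sub,
    Prod.fst_natCast, Prod.snd_natCast, gen, gen'] at e1 e2
  have e3 : (p : ℂ) * (Z.1 + Z.2) = p * (r.1 + r.2) := by linear_combination e1 + e2
  have e4 : Z.1 + Z.2 = r.1 + r.2 := mul_left_cancel₀ hp0 e3
  rw [e4]
  exact Q.tr_mem hr

/-- the point where the trace is not integral, inert case -/
theorem inrt_nec (h : Q.Inrt) {u v : ℂ} (hu : u ∈ Zp p Q.hp) (hv : v ∈ Zp p Q.hp)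
    (ht : (fqq p ((u, u) + (v, v) * Q.gen) * ((u, u) + (v, v) * Q.gen)).1 +
      (fqq p ((u, u) + (v, v) * Q.gen) * ((u, u) + (v, v) * Q.gen)).2 ∈ Zp p Q.hp) :
    v ^ 2 * Q.disc / p ∈ Zp p Q.hp := by
  have hp0 : (p : ℂ) ≠ 0 := by exact_mod_cast Q.hp.ne_zero
  obtain ⟨r, hr, h1⟩ := Q.inrt_fqq h hu hv
  set Y : ℂ × ℂ := (u, u) + (v, v) * Q.gen with hY
  have hYm : Y ∈ Q.R := add_mem (Q.diag_mem hu) (mul_mem (Q.diag_mem hv) Q.gen_mem)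
  set Z := fqq p Y with hZ
  have e1 := congrArg Prod.fst h1
  have e2 := congrArg Prod.snd h1
  simp only [Prod.fst_mul, Prod.snd_mul, Prod.fst_add, Prod.snd_add, Prod.fst_sub, Prod.snd_sub,
    Prod.fst_natCast, Prod.snd_natCast, gen, gen'] at e1 e2
  have hY1 : Y.1 = u + v * Q.ω := rfl
  have hY2 : Y.2 = u + v * Q.ω' := rfl
  have h2 := Q.tr_mem (mul_mem hr hYm)
  have h3 : v ^ 2 * Q.disc / p = ((r * Y).1 + (r * Y).2) - ((Z * Y).1 + (Z * Y).2) := by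
    rw [← Q.disc_eq]
    simp only [Prod.fst_mul, Prod.snd_mul]
    have e3 : Z.1 = (v * (Q.ω' - Q.ω) + p * r.1) / p := by field_simp; linear_combination e1
    have e4 : Z.2 = (v * (Q.ω - Q.ω') + p * r.2) / p := by field_simp; linear_combination e2
    rw [e3, e4, hY1, hY2]
    field_simp
    ring
  rw [h3]
  exact sub_mem h2 ht

/-! ### Ramified primes different from two -/

theorem rt_pow (hp2 : p ≠ 2) : Q.rt ^ p = Q.rt * ((Q.disc : ℂ × ℂ)) ^ (p / 2) := by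
  have h1 : 2 * (p / 2) + 1 = p := Nat.two_mul_div_two_add_one_of_odd (Q.hp.odd_of_ne_two hp2)
  have h2 : Q.rt ^ p = Q.rt ^ (2 * (p / 2) + 1) := congrArg (fun k => Q.rt ^ k) h1.symm
  rw [h2, pow_succ, pow_mul, pow_two, Q.rt_sq, mul_comm]

theorem ram_fqq (hp2 : p ≠ 2) (D : ℤ) (hD : Q.disc = p * D) {u v : ℂ} (hu : u ∈ Zp p Q.hp)
    (hv : v ∈ Zp p Q.hp) : ∃ r ∈ Q.R, (p : ℂ × ℂ) * fqq p ((u, u) + (v, v) * Q.rt) =
      -((v, v) * Q.rt) + (p : ℂ × ℂ) * r := by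
  obtain ⟨r1, hr1, h1⟩ := Q.frob (Q.diag_mem hu) (mul_mem (Q.diag_mem hv) Q.rt_mem)
  obtain ⟨b1, hb1, h2⟩ := Q.diag_pow hu
  have h1p : 1 ≤ p / 2 := by
    have h1 := Q.hp.two_le
    omega
  obtain ⟨m, hm1⟩ : ∃ m, p / 2 = m + 1 := ⟨p / 2 - 1, by omega⟩
  have h3 := Q.rt_pow hp2
  rw [hm1, pow_succ, hD] at h3
  refine ⟨(b1, b1) + ((v, v) : ℂ × ℂ) ^ p * (Q.rt * ((((p * D : ℤ)) : ℂ × ℂ) ^ m * (D : ℂ × ℂ))) + r1,
    ?_, ?_⟩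
  · exact add_mem (add_mem (Q.diag_mem hb1) (mul_mem (pow_mem (Q.diag_mem hv) _)
      (mul_mem Q.rt_mem (mul_mem (pow_mem (intCast_mem _ _) _) (intCast_mem _ _))))) hr1
  · rw [p_fqq Q.hp.ne_zero, h1, mul_pow, h2, h3]
    push_cast
    ring

theorem tr_rt {y : ℂ × ℂ} {u v : ℂ} (h : y = (u, u) + (v, v) * Q.rt) :
    (Q.rt * y).1 + (Q.rt * y).2 = 2 * v * Q.disc := by
  rw [h, ← Q.disc_eq]
  unfold rt
  simp only [Prod.fst_mul, Prod.snd_mul, Prod.fst_add, Prod.snd_add]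
  ring

theorem ram_tr (hp2 : p ≠ 2) (D : ℤ) (hD : Q.disc = p * D) {z : ℂ × ℂ} (hz : z ∈ Q.R)
    {w : ℂ × ℂ} (hw : w ∈ Q.R) : (fqq p z * w).1 + (fqq p z * w).2 ∈ Zp p Q.hp := by
  have hp0 : (p : ℂ) ≠ 0 := by exact_mod_cast Q.hp.ne_zero
  obtain ⟨u, hu, v, hv, rfl⟩ := Q.coord' hp2 hz
  obtain ⟨r, hr, h1⟩ := Q.ram_fqq hp2 D hD hu hv
  obtain ⟨w0, hw0, w1, hw1, hwe⟩ := Q.coord' hp2 hw
  set Z := fqq p ((u, u) + (v, v) * Q.rt) with hZ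
  have h2 := Q.tr_rt hwe
  rw [hD] at h2
  push_cast at h2
  have e1 := congrArg Prod.fst h1
  have e2 := congrArg Prod.snd h1
  simp only [Prod.fst_mul, Prod.snd_mul, Prod.fst_add, Prod.snd_add, Prod.fst_neg, Prod.snd_neg,
    Prod.fst_natCast, Prod.snd_natCast] at e1 e2 h2
  have e3 : (p : ℂ) * ((Z * w).1 + (Z * w).2) = p * (-(2 * v * w1 * D) + ((r * w).1 + (r * w).2)) := by
    simp only [Prod.fst_mul, Prod.snd_mul]
    linear_combination w.1 * e1 + w.2 * e2 - v * h2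
  have e4 := mul_left_cancel₀ hp0 e3
  rw [e4]
  refine add_mem (neg_mem (mul_mem (mul_mem (mul_mem ?_ hv) hw1) (intCast_mem _ _)))
    (Q.tr_mem (mul_mem hr hw))
  exact_mod_cast natCast_mem (Zp p Q.hp) 2

theorem ram_nec (hp2 : p ≠ 2) (D : ℤ) (hD : Q.disc = p * D) {u v : ℂ} (hu : u ∈ Zp p Q.hp)
    (hv : v ∈ Zp p Q.hp)
    (ht : (fqq p ((u, u) + (v, v) * Q.gen) ^ 2).1 +
      (fqq p ((u, u) + (v, v) * Q.gen) ^ 2).2 ∈ Zp p Q.hp) :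
    v ^ 2 * D / p ∈ Zp p Q.hp := by
  have hp0 : (p : ℂ) ≠ 0 := by exact_mod_cast Q.hp.ne_zero
  have hv2 : v * 2⁻¹ ∈ Zp p Q.hp := mul_mem hv (half_mem Q.hp hp2)
  have hu2 : u + v * 2⁻¹ * Q.s ∈ Zp p Q.hp := add_mem hu (mul_mem hv2 (intCast_mem _ _))
  obtain ⟨r, hr, h1⟩ := Q.ram_fqq hp2 D hD hu2 hv2
  have h0 : ((u, u) + (v, v) * Q.gen : ℂ × ℂ) =
      (u + v * 2⁻¹ * Q.s, u + v * 2⁻¹ * Q.s) + (v * 2⁻¹, v * 2⁻¹) * Q.rt := by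
    rw [← Q.hs]
    unfold rt gen
    ext
    · simp only [Prod.fst_add, Prod.fst_mul]
      ring
    · simp only [Prod.snd_add, Prod.snd_mul]
      ring
  rw [← h0] at h1
  obtain ⟨r0, hr0, r1, hr1, hre⟩ := Q.coord' hp2 hr
  set Z := fqq p ((u, u) + (v, v) * Q.gen) with hZ
  have h2 := Q.tr_rt hre
  rw [hD] at h2
  push_cast at h2
  have e1 := congrArg Prod.fst h1
  have e2 := congrArg Prod.snd h1
  simp only [Prod.fst_mul, Prod.snd_mul, Prod.fst_add, Prod.snd_add, Prod.fst_neg, Prod.snd_neg,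
    Prod.fst_natCast, Prod.snd_natCast] at e1 e2 h2
  have h3 := Q.tr_mem (mul_mem hr hr)
  have hd1 : Q.rt.1 ^ 2 = p * D := by
    have := Q.disc_eq
    rw [hD] at this
    push_cast at this
    exact this
  have hd2 : Q.rt.2 ^ 2 = p * D := by
    rw [← hd1]
    unfold rt
    ring
  have e3 : Z.1 = (-(v * 2⁻¹ * Q.rt.1) + p * r.1) / p := by
    rw [eq_div_iff hp0]
    linear_combination e1
  have e4 : Z.2 = (-(v * 2⁻¹ * Q.rt.2) + p * r.2) / p := by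
    rw [eq_div_iff hp0]
    linear_combination e2
  have e5 : v ^ 2 * D / p = 2 * ((Z ^ 2).1 + (Z ^ 2).2) + 4 * (v * r1 * D)
      - 2 * ((r * r).1 + (r * r).2) := by
    simp only [Prod.pow_fst, Prod.pow_snd, Prod.fst_mul, Prod.snd_mul]
    rw [e3, e4]
    have hd1' : Q.rt.1 ^ 2 = p * D := hd1
    field_simp
    have h2' : Q.rt.1 * r.1 + Q.rt.2 * r.2 = 2 * r1 * (p * D) := h2
    linear_combination (-(v ^ 2)) * hd1 + (-(v ^ 2)) * hd2 + (4 * p * v) * h2'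
  rw [e5]
  have two : (2 : ℂ) ∈ Zp p Q.hp := by exact_mod_cast natCast_mem (Zp p Q.hp) 2
  have four : (4 : ℂ) ∈ Zp p Q.hp := by exact_mod_cast natCast_mem (Zp p Q.hp) 4
  exact sub_mem (add_mem (mul_mem two ht) (mul_mem four (mul_mem (mul_mem hv hr1) (intCast_mem _ _))))
    (mul_mem two h3)

end QO

end Pool.Agent.Q49.RB
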