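import Pool.Agent.Q49.RB.Law4

set_option autoImplicit false

/-!
# The prime two, and the action of Frobenius
-/

namespace Pool.Agent.Q49.RB

open Polynomial Finset

theorem eep_two_mul {p : ℕ} (hp : p.Prime) (hp2 : p ≠ 2) (z : ℂ × ℂ) :
    eep p hp.one_lt (2 * p) z = fqq p z ^ 2 := by
  have h2 : 2 < p := lt_of_le_of_ne hp.two_le (Ne.symm hp2)
  rw [eep_eq, Nat.mul_div_cancel _ hp.pos, Nat.mul_mod_left, pow_zero, mul_one, eep_eq,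
    Nat.div_eq_of_lt h2, Nat.mod_eq_of_lt h2, eep_zero, one_mul]

theorem eep_four (z : ℂ × ℂ) : eep 2 Nat.prime_two.one_lt 4 z = fqq 2 (fqq 2 z) := by
  rw [eep_eq, show 4 / 2 = 2 from rfl, show 4 % 2 = 0 from rfl, pow_zero, mul_one, eep_eq,
    show 2 / 2 = 1 from rfl, show 2 % 2 = 0 from rfl, pow_zero, mul_one, eep_eq,
    show 1 / 2 = 0 from rfl, show 1 % 2 = 1 from rfl, pow_one, eep_zero, one_mul]

namespace QO

section two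

variable (Q : QO 2)

theorem gen_sq (D : ℤ) (hs : Q.s = 0) (hm : Q.m = -D) : Q.ω ^ 2 = D ∧ Q.ω' ^ 2 = D := by
  have h1 := Q.sq1
  have h2 := Q.sq2
  rw [hs, hm] at h1 h2
  push_cast at h1 h2
  constructor
  · linear_combination h1
  · linear_combination h2

theorem two_tr (D : ℤ) (hs : Q.s = 0) (hm : Q.m = -D) {z : ℂ × ℂ} (hz : z ∈ Q.R)
    {w : ℂ × ℂ} (hw : w ∈ Q.R) : (fqq 2 z * w).1 + (fqq 2 z * w).2 ∈ Zp 2 Q.hp := by
  obtain ⟨h1, h2⟩ := Q.gen_sq D hs hm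
  have h0 : Q.ω' = -Q.ω := by
    have := Q.hs
    rw [hs] at this
    push_cast at this
    linear_combination this
  obtain ⟨u, hu, v, hv, rfl⟩ := hz
  obtain ⟨w0, hw0, w1, hw1, rfl⟩ := hw
  have e : (fqq 2 (u + v * Q.ω, u + v * Q.ω') * (w0 + w1 * Q.ω, w0 + w1 * Q.ω')).1 +
      (fqq 2 (u + v * Q.ω, u + v * Q.ω') * (w0 + w1 * Q.ω, w0 + w1 * Q.ω')).2 =
      (u ^ 2 - u + v ^ 2 * D) * w0 + v * (2 * u - 1) * w1 * D := by
    unfold fqq fq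
    simp only [Prod.fst_mul, Prod.snd_mul]
    rw [h0]
    push_cast
    linear_combination (v ^ 2 * w0 + v * (2 * u - 1) * w1) * h1
  rw [e]
  have two : (2 : ℂ) ∈ Zp 2 Q.hp := by exact_mod_cast natCast_mem (Zp 2 Q.hp) 2
  refine add_mem (mul_mem (add_mem (sub_mem (pow_mem hu 2) hu) (mul_mem (pow_mem hv 2)
    (intCast_mem _ _))) hw0) (mul_mem (mul_mem (mul_mem hv ?_) hw1) (intCast_mem _ _))
  exact sub_mem (mul_mem two hu) (one_mem _)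

theorem two_nec (D : ℤ) (hs : Q.s = 0) (hm : Q.m = -D) {u v : ℂ} (hu : u ∈ Zp 2 Q.hp)
    (hv : v ∈ Zp 2 Q.hp)
    (ht : (fqq 2 (fqq 2 ((u, u) + (v, v) * Q.gen))).1 +
      (fqq 2 (fqq 2 ((u, u) + (v, v) * Q.gen))).2 ∈ Zp 2 Q.hp) :
    v ^ 2 * D * (v ^ 2 * D - 1) / 4 ∈ Zp 2 Q.hp := by
  obtain ⟨h1, h2⟩ := Q.gen_sq D hs hm
  have h0 : Q.ω' = -Q.ω := by
    have := Q.hs
    rw [hs] at this
    push_cast at this
    linear_combination this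
  have hf := Zp_fq Q.hp hu
  have hY : ((u, u) + (v, v) * Q.gen : ℂ × ℂ) = (u + v * Q.ω, u + v * Q.ω') := rfl
  rw [hY] at ht
  have e : v ^ 2 * D * (v ^ 2 * D - 1) / 4 =
      ((fqq 2 (fqq 2 (u + v * Q.ω, u + v * Q.ω'))).1 + (fqq 2 (fqq 2 (u + v * Q.ω, u + v * Q.ω'))).2)
      - fq 2 u * (fq 2 u - 1 + 3 * (v ^ 2 * D)) := by
    unfold fqq fq
    simp only
    rw [h0]
    push_cast
    have h4 : Q.ω ^ 4 = D ^ 2 := by
      have : Q.ω ^ 4 = (Q.ω ^ 2) ^ 2 := by ring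
      rw [this, h1]
    linear_combination (-(v ^ 4) / 4) * h4 + ((v ^ 2) / 4 - 3 * (u ^ 2 - u) * v ^ 2 / 2) * h1
  rw [e]
  have three : (3 : ℂ) ∈ Zp 2 Q.hp := by exact_mod_cast natCast_mem (Zp 2 Q.hp) 3
  exact sub_mem ht (mul_mem hf (add_mem (sub_mem hf (one_mem _)) (mul_mem three
    (mul_mem (pow_mem hv 2) (intCast_mem _ _)))))

/-- two splits -/
theorem two_split (k l : ℤ) (hs : Q.s = 2 * k + 1) (hm : Q.m = 2 * l) : Q.Split := by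
  refine ⟨(k : ℂ × ℂ) * Q.gen - (l : ℂ × ℂ), sub_mem (mul_mem (intCast_mem _ _) Q.gen_mem)
    (intCast_mem _ _), ?_⟩
  have h1 := Q.sq1
  have h2 := Q.sq2
  rw [hs, hm] at h1 h2
  push_cast at h1 h2
  unfold gen
  ext
  · simp only [Prod.pow_fst, Prod.fst_add, Prod.fst_mul, Prod.fst_sub, Prod.fst_intCast,
      Prod.fst_natCast]
    push_cast
    linear_combination h1
  · simp only [Prod.pow_snd, Prod.snd_add, Prod.snd_mul, Prod.snd_sub, Prod.snd_intCast,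
      Prod.snd_natCast]
    push_cast
    linear_combination h2

/-- two is inert -/
theorem two_inrt (k l : ℤ) (hs : Q.s = 2 * k + 1) (hm : Q.m = 2 * l + 1) : Q.Inrt := by
  refine ⟨((k + 1 : ℤ) : ℂ × ℂ) * Q.gen - ((k + l + 1 : ℤ) : ℂ × ℂ), sub_mem (mul_mem
    (intCast_mem _ _) Q.gen_mem) (intCast_mem _ _), ?_⟩
  have h1 := Q.sq1
  have h2 := Q.sq2
  have h3 := Q.hs
  rw [hs, hm] at h1 h2
  rw [hs] at h3
  push_cast at h1 h2 h3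
  unfold gen gen'
  ext
  · simp only [Prod.pow_fst, Prod.fst_add, Prod.fst_mul, Prod.fst_sub, Prod.fst_intCast,
      Prod.fst_natCast]
    push_cast
    linear_combination h1 - h3
  · simp only [Prod.pow_snd, Prod.snd_add, Prod.snd_mul, Prod.snd_sub, Prod.snd_intCast,
      Prod.snd_natCast]
    push_cast
    linear_combination h2 - h3

end two

section odd

variable {p : ℕ} (Q : QO p)

/-- Frobenius on the generator -/
theorem gen_frob (hp2 : p ≠ 2) (ε t : ℤ) (h : Q.disc ^ (p / 2) = ε + p * t) :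
    ∃ w ∈ Q.R, Q.gen ^ p = ((2 : ℂ)⁻¹, (2 : ℂ)⁻¹) * ((Q.s : ℂ × ℂ) + (ε : ℂ × ℂ) * Q.rt) +
      (p : ℂ × ℂ) * w := by
  haveI : Fact p.Prime := ⟨Q.hp⟩
  have hhalf := Q.diag_mem (half_mem Q.hp hp2)
  -- `s ^ p = s + p b`
  obtain ⟨b, hb⟩ : ∃ b : ℤ, Q.s ^ p = Q.s + p * b := by
    have h1 : (((Q.s) ^ p - Q.s : ℤ) : ZMod p) = 0 := by
      push_cast
      rw [ZMod.pow_card, sub_self]
    rw [ZMod.intCast_zmod_eq_zero_iff_dvd] at h1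
    obtain ⟨z, hz⟩ := h1
    exact ⟨z, by linarith⟩
  obtain ⟨e, he⟩ : ∃ e : ℤ, (2 : ℤ) ^ p = 2 + p * e := by
    have h1 : (((2 : ℤ) ^ p - 2 : ℤ) : ZMod p) = 0 := by
      push_cast
      rw [ZMod.pow_card, sub_self]
    rw [ZMod.intCast_zmod_eq_zero_iff_dvd] at h1
    obtain ⟨z, hz⟩ := h1
    exact ⟨z, by linarith⟩
  have hsm : (Q.s : ℂ × ℂ) ∈ Q.R := intCast_mem _ _
  obtain ⟨r, hr, h1⟩ := Q.frob hsm Q.rt_mem
  have h2 : (Q.s : ℂ × ℂ) + Q.rt = 2 * Q.gen := by rw [Q.rt_eq]; ring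
  rw [h2, mul_pow, Q.rt_pow hp2] at h1
  have hb' : ((Q.s : ℂ × ℂ)) ^ p = Q.s + p * b := by exact_mod_cast congrArg (Int.cast : ℤ → ℂ × ℂ) hb
  have he' : (2 : ℂ × ℂ) ^ p = 2 + p * e := by exact_mod_cast congrArg (Int.cast : ℤ → ℂ × ℂ) he
  have hd' : ((Q.disc : ℂ × ℂ)) ^ (p / 2) = ε + p * t := by
    exact_mod_cast congrArg (Int.cast : ℤ → ℂ × ℂ) h
  rw [hb', he', hd'] at h1
  have h22 : (((2 : ℂ)⁻¹, (2 : ℂ)⁻¹) : ℂ × ℂ) * 2 = 1 := by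
    have : (2 : ℂ × ℂ) = ((2 : ℂ), (2 : ℂ)) := rfl
    rw [this]
    ext <;> simp
  refine ⟨((2 : ℂ)⁻¹, (2 : ℂ)⁻¹) * ((b : ℂ × ℂ) + Q.rt * (t : ℂ × ℂ) + r - (e : ℂ × ℂ) * Q.gen ^ p),
    mul_mem hhalf (sub_mem (add_mem (add_mem (intCast_mem _ _) (mul_mem Q.rt_mem (intCast_mem _ _))) hr)
      (mul_mem (intCast_mem _ _) (pow_mem Q.gen_mem _))), ?_⟩
  calc Q.gen ^ p = ((((2 : ℂ)⁻¹, (2 : ℂ)⁻¹) : ℂ × ℂ) * 2) * Q.gen ^ p := by rw [h22, one_mul]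
    _ = _ := by linear_combination (((2 : ℂ)⁻¹, (2 : ℂ)⁻¹) : ℂ × ℂ) * h1

theorem odd_split (hp2 : p ≠ 2) (t : ℤ) (h : Q.disc ^ (p / 2) = 1 + p * t) : Q.Split := by
  obtain ⟨w, hw, h1⟩ := Q.gen_frob hp2 1 t h
  refine ⟨w, hw, ?_⟩
  rw [h1, Q.rt_eq]
  have h22 : (((2 : ℂ)⁻¹, (2 : ℂ)⁻¹) : ℂ × ℂ) * 2 = 1 := by
    have : (2 : ℂ × ℂ) = ((2 : ℂ), (2 : ℂ)) := rfl
    rw [this]
    ext <;> simp
  push_cast
  linear_combination Q.gen * h22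

theorem odd_inrt (hp2 : p ≠ 2) (t : ℤ) (h : Q.disc ^ (p / 2) = -1 + p * t) : Q.Inrt := by
  obtain ⟨w, hw, h1⟩ := Q.gen_frob hp2 (-1) t h
  refine ⟨w, hw, ?_⟩
  rw [h1, Q.rt_eq]
  have h22 : (((2 : ℂ)⁻¹, (2 : ℂ)⁻¹) : ℂ × ℂ) * 2 = 1 := by
    have : (2 : ℂ × ℂ) = ((2 : ℂ), (2 : ℂ)) := rfl
    rw [this]
    ext <;> simp
  have h3 : Q.gen' = (Q.s : ℂ × ℂ) - Q.gen := by
    have : ((Q.s : ℂ × ℂ)) = ((Q.s : ℂ), (Q.s : ℂ)) := rfl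
    rw [this, ← Q.hs]
    unfold gen gen'
    ext <;> simp
  rw [h3]
  push_cast
  linear_combination ((Q.s : ℂ × ℂ) - Q.gen) * h22

/-- the traces at the points of the basis -/
theorem nec_core (n v : ℕ) {a : ℂ} (ha : a ∈ Zp p Q.hp) (d' : ℤ) (x : Fin 2 → ℂ)
    (h0 : x 0 = a + p ^ v * (d' * Q.ω)) (h1 : x 1 = a + p ^ v * (d' * Q.ω'))
    (hI : Integral n (fun _ : Fin 2 => 1) x) (m : ℕ) (hm : p ^ v * m ≤ n) :
    ∃ A ∈ Zp p Q.hp, ∃ c ∈ Zp p Q.hp,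
      (eep p Q.hp.one_lt m ((A, A) + ((-1) ^ v * d' + p * c, (-1) ^ v * d' + p * c) * Q.gen)).1 +
      (eep p Q.hp.one_lt m ((A, A) + ((-1) ^ v * d' + p * c, (-1) ^ v * d' + p * c) * Q.gen)).2
        ∈ Zp p Q.hp := by
  haveI : Fact p.Prime := ⟨Q.hp⟩
  have hy : ((d' : ℂ × ℂ)) * Q.gen ∈ Q.R := mul_mem (intCast_mem _ _) Q.gen_mem
  obtain ⟨a', ha', y', hy', hY⟩ := Q.iter v ha hy
  obtain ⟨u, hu, c, hc, hyc⟩ := Q.coord hy'
  refine ⟨a' + p * u, add_mem ha' (mul_mem (natCast_mem _ _) hu), c, hc, ?_⟩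
  have hYe : fitt p v ((a, a) + (p : ℂ × ℂ) ^ v * ((d' : ℂ × ℂ) * Q.gen)) =
      (a' + p * u, a' + p * u) + ((-1) ^ v * (d' : ℂ) + p * c, (-1) ^ v * (d' : ℂ) + p * c) * Q.gen := by
    rw [hY, hyc]
    ext
    · simp only [Prod.fst_add, Prod.fst_mul, Prod.pow_fst, Prod.fst_neg, Prod.fst_one,
        Prod.fst_intCast, Prod.fst_natCast]
      ring
    · simp only [Prod.snd_add, Prod.snd_mul, Prod.pow_snd, Prod.snd_neg, Prod.snd_one,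
        Prod.snd_intCast, Prod.snd_natCast]
      ring
  rw [← hYe]
  have h2 := local_of_integral Q.hp hI (eP p Q.hp.one_lt (p ^ v * m))
    (by rw [(eP_lead Q.hp.one_lt _).1]; exact hm) (PZ_eP Q.hp _)
  rw [Fin.sum_univ_two, eP_eval, eP_eval] at h2
  have hz : ((x 0, x 1) : ℂ × ℂ) = (a, a) + (p : ℂ × ℂ) ^ v * ((d' : ℂ × ℂ) * Q.gen) := by
    rw [h0, h1]
    unfold gen
    ext
    · simp
    · simp
  have h3 : eep p Q.hp.one_lt (p ^ v * m) (x 0, x 1) =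
      eep p Q.hp.one_lt m (fitt p v (x 0, x 1)) := by
    have := eep_split Q.hp.one_lt v 0 m (pow_pos Q.hp.pos v) (x 0, x 1)
    rw [zero_add, eep_zero, one_mul] at this
    exact this
  rw [← hz, ← h3]
  exact h2

end odd

/-- from a `p`-adic unit to an integer -/
theorem unit_div {p : ℕ} (Q : QO p) (v : ℕ) (d' D : ℤ) {c : ℂ} (hc : c ∈ Zp p Q.hp)
    (h : ((-1) ^ v * (d' : ℂ) + p * c) ^ 2 * D / p ∈ Zp p Q.hp) : (p : ℤ) ∣ d' ^ 2 * D := by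
  have hp0 : (p : ℂ) ≠ 0 := by exact_mod_cast Q.hp.ne_zero
  have hsq : ((-1 : ℂ) ^ v) ^ 2 = 1 := by rw [← pow_mul, mul_comm, pow_mul]; norm_num
  have e : (((d' ^ 2 * D : ℤ)) : ℂ) / p = ((-1) ^ v * (d' : ℂ) + p * c) ^ 2 * D / p -
      (2 * ((-1) ^ v * d' * c) + p * c ^ 2) * D := by
    push_cast
    field_simp
    linear_combination (-((d' : ℂ) ^ 2) * D) * hsq
  refine Zp_div Q.hp _ ?_
  rw [e]
  have two : (2 : ℂ) ∈ Zp p Q.hp := by exact_mod_cast natCast_mem (Zp p Q.hp) 2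
  refine sub_mem h (mul_mem (add_mem (mul_mem two (mul_mem (mul_mem (pow_mem (neg_mem (one_mem _)) _)
    (intCast_mem _ _)) hc)) (mul_mem (natCast_mem _ _) (pow_mem hc 2))) (intCast_mem _ _))

end QO

end Pool.Agent.Q49.RB
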