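import Pool.Agent.Q49.RB.Law5

set_option autoImplicit false

/-!
# The exact solution of the integrality conditions for two Chern roots
-/

namespace Pool.Agent.Q49.RB

open Polynomial Finset

/-- `δ` is `1` or the discriminant of a quadratic field -/
def IsFund (δ : ℤ) : Prop :=
  (δ % 4 = 1 ∧ Squarefree δ) ∨ ∃ D : ℤ, δ = 4 * D ∧ (D % 4 = 2 ∨ D % 4 = 3) ∧ Squarefree D

/-- the prime `p` is inert in the quadratic field of discriminant `δ`: the minimal polynomial of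
`(δ + √δ) / 2` has no zero modulo `p` -/
def InertAt (δ : ℤ) (p : ℕ) : Prop := ∀ x : ℤ, ¬ (p : ℤ) ∣ x ^ 2 - δ * x + (δ ^ 2 - δ) / 4

/-- the divisibilities -/
def Divis (δ : ℤ) (n : ℕ) (d : ℤ) : Prop := ∀ p : ℕ, p.Prime → ∀ k : ℕ,
  (InertAt δ p → p ^ (k + 1) + p ^ k ≤ n → (p : ℤ) ^ (k + 1) ∣ d) ∧
  ((p : ℤ) ∣ δ → 2 * p ^ (k + 1) ≤ n → (p : ℤ) ^ (k + 1) ∣ d)

theorem fund_mod {δ : ℤ} (h : IsFund δ) : 4 * ((δ ^ 2 - δ) / 4) = δ ^ 2 - δ := by
  apply Int.mul_ediv_cancel'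
  rcases h with ⟨h, _⟩ | ⟨D, rfl, _, _⟩
  · obtain ⟨q, hq⟩ : ∃ q, δ = 4 * q + 1 := ⟨δ / 4, by omega⟩
    exact ⟨4 * q ^ 2 + q, by rw [hq]; ring⟩
  · exact ⟨4 * D ^ 2 - D, by ring⟩

theorem fund_data {δ : ℤ} (h : IsFund δ) : ∃ s m : ℤ, s ^ 2 - 4 * m = δ ∧
    ((s = 1 ∧ δ % 4 = 1 ∧ Squarefree δ) ∨
      (s = 0 ∧ (m % 4 = 1 ∨ m % 4 = 2) ∧ δ = 4 * -m ∧ Squarefree m)) := by
  rcases h with ⟨h, h'⟩ | ⟨D, rfl, h, h'⟩
  · exact ⟨1, (1 - δ) / 4, by omega, Or.inl ⟨rfl, h, h'⟩⟩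
  · refine ⟨0, -D, by ring, Or.inr ⟨rfl, by omega, by ring, ?_⟩⟩
    intro x hx
    exact h' x (by simpa using hx)

theorem sq_of_root {δ : ℤ} (hδ : IsFund δ) {p : ℕ} [Fact p.Prime] (x : ℤ)
    (h : (p : ℤ) ∣ x ^ 2 - δ * x + (δ ^ 2 - δ) / 4) : IsSquare (δ : ZMod p) := by
  have h4 := fund_mod hδ
  have h1 : (p : ℤ) ∣ (2 * x - δ) ^ 2 - δ := by
    have : (2 * x - δ) ^ 2 - δ = 4 * (x ^ 2 - δ * x + (δ ^ 2 - δ) / 4) := by
      rw [mul_add, h4]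
      ring
    rw [this]
    exact Dvd.dvd.mul_left h 4
  rw [← ZMod.intCast_zmod_eq_zero_iff_dvd] at h1
  refine ⟨((2 * x - δ : ℤ) : ZMod p), ?_⟩
  push_cast at h1 ⊢
  linear_combination -h1

theorem root_of_sq {δ : ℤ} (hδ : IsFund δ) {p : ℕ} (hp : p.Prime) (hp2 : p ≠ 2)
    (h : IsSquare (δ : ZMod p)) : ¬ InertAt δ p := by
  haveI : Fact p.Prime := ⟨hp⟩
  have h4 := fund_mod hδ
  obtain ⟨y, hy⟩ := h
  obtain ⟨y0, rfl⟩ := ZMod.intCast_surjective y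
  have h1 : (p : ℤ) ∣ y0 ^ 2 - δ := by
    rw [← ZMod.intCast_zmod_eq_zero_iff_dvd]
    push_cast
    rw [hy]
    ring
  obtain ⟨q, hq⟩ := hp.odd_of_ne_two hp2
  have hq' : (p : ℤ) = 2 * q + 1 := by exact_mod_cast hq
  intro hin
  refine hin ((δ + y0) * (q + 1)) ?_
  have h2 : (p : ℤ) ∣ 4 * (((δ + y0) * (q + 1)) ^ 2 - δ * ((δ + y0) * (q + 1)) + (δ ^ 2 - δ) / 4) := by
    obtain ⟨z, hz⟩ := h1
    refine ⟨z + (δ + y0) * (2 * y0 + (p : ℤ) * (δ + y0)), ?_⟩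
    rw [mul_add, h4]
    have h5 : 2 * ((δ + y0) * (q + 1)) = (δ + y0) * (p + 1) := by rw [hq']; ring
    have h6 : 4 * (((δ + y0) * (q + 1)) ^ 2 - δ * ((δ + y0) * (q + 1))) =
        (2 * ((δ + y0) * (q + 1)) - δ) ^ 2 - δ ^ 2 := by ring
    rw [h6, h5]
    linear_combination hz
  rcases (Nat.prime_iff_prime_int.1 hp).dvd_or_dvd h2 with h3 | h3
  · exfalso
    have h7 : p ∣ 4 := by exact_mod_cast h3
    have h8 : p ∣ 2 ^ 2 := h7
    exact hp2 ((Nat.prime_dvd_prime_iff_eq hp Nat.prime_two).1 (hp.dvd_of_dvd_pow h8))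
  · exact h3

section

variable {p : ℕ} (Q : QO p) {δ : ℤ} (hδ : IsFund δ) (hQ : Q.disc = δ)

include hδ hQ

theorem odd_unram (hp2 : p ≠ 2) (hpδ : ¬ (p : ℤ) ∣ δ) :
    (InertAt δ p → Q.Inrt) ∧ (¬ InertAt δ p → Q.Split) := by
  haveI : Fact p.Prime := ⟨Q.hp⟩
  have hδ0 : (δ : ZMod p) ≠ 0 := by
    rw [Ne, ZMod.intCast_zmod_eq_zero_iff_dvd]
    exact hpδ
  constructor
  · intro hin
    have hns : ¬ IsSquare (δ : ZMod p) := fun h => root_of_sq hδ Q.hp hp2 h hin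
    have h1 := ZMod.pow_div_two_eq_neg_one_or_one p hδ0
    have h2 : (δ : ZMod p) ^ (p / 2) = -1 := by
      rcases h1 with h1 | h1
      · exact absurd ((ZMod.euler_criterion p hδ0).2 h1) hns
      · exact h1
    have h3 : ((δ ^ (p / 2) + 1 : ℤ) : ZMod p) = 0 := by
      push_cast
      rw [h2]
      ring
    rw [ZMod.intCast_zmod_eq_zero_iff_dvd] at h3
    obtain ⟨t, ht⟩ := h3
    exact Q.odd_inrt hp2 t (by rw [hQ]; linarith)
  · intro hin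
    unfold InertAt at hin
    push Not at hin
    obtain ⟨x, hx⟩ := hin
    have hs := sq_of_root hδ x hx
    have h2 : (δ : ZMod p) ^ (p / 2) = 1 := (ZMod.euler_criterion p hδ0).1 hs
    have h3 : ((δ ^ (p / 2) - 1 : ℤ) : ZMod p) = 0 := by
      push_cast
      rw [h2]
      ring
    rw [ZMod.intCast_zmod_eq_zero_iff_dvd] at h3
    obtain ⟨t, ht⟩ := h3
    exact Q.odd_split hp2 t (by rw [hQ]; linarith)

end

theorem odd_ram {p : ℕ} (hp : p.Prime) {δ : ℤ} (hδ : IsFund δ) (hp2 : p ≠ 2) (hpδ : (p : ℤ) ∣ δ) : ∃ D : ℤ, δ = p * D ∧ ¬ (p : ℤ) ∣ D := by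
  have hpr := Nat.prime_iff_prime_int.1 hp
  have key : ∀ D : ℤ, Squarefree D → (p : ℤ) ∣ D → ∃ E : ℤ, D = p * E ∧ ¬ (p : ℤ) ∣ E := by
    intro D hD hd
    obtain ⟨E, rfl⟩ := hd
    refine ⟨E, rfl, ?_⟩
    rintro ⟨F, rfl⟩
    exact hpr.not_isUnit (hD p ⟨F, by ring⟩)
  have hp4 : ¬ (p : ℤ) ∣ 4 := by
    intro h3
    have h7 : p ∣ 4 := by exact_mod_cast h3
    have h8 : p ∣ 2 ^ 2 := h7
    exact hp2 ((Nat.prime_dvd_prime_iff_eq hp Nat.prime_two).1 (hp.dvd_of_dvd_pow h8))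
  rcases hδ with ⟨_, h⟩ | ⟨D, rfl, _, h⟩
  · exact key δ h hpδ
  · rcases hpr.dvd_or_dvd hpδ with h1 | h1
    · exact absurd h1 hp4
    · obtain ⟨E, hE, hE'⟩ := key D h h1
      refine ⟨4 * E, by rw [hE]; ring, ?_⟩
      intro h2
      rcases hpr.dvd_or_dvd h2 with h3 | h3
      · exact hp4 h3
      · exact hE' h3

theorem two_unram (Q : QO 2) {δ : ℤ} (hδ : IsFund δ) (hQ : Q.disc = δ)
    (hsm : (Q.s = 1 ∧ δ % 4 = 1 ∧ Squarefree δ) ∨
      (Q.s = 0 ∧ (Q.m % 4 = 1 ∨ Q.m % 4 = 2) ∧ δ = 4 * -Q.m ∧ Squarefree Q.m))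
    (h2 : ¬ ((2 : ℕ) : ℤ) ∣ δ) :
    (InertAt δ 2 → Q.Inrt) ∧ (¬ InertAt δ 2 → Q.Split) := by
  rcases hsm with ⟨hs, h4, _⟩ | ⟨_, _, h, _⟩
  · have hm : δ = 1 - 4 * Q.m := by
      rw [← hQ]
      unfold QO.disc
      rw [hs]
      ring
    have hc : (δ ^ 2 - δ) / 4 = -δ * Q.m := by
      have := fund_mod hδ
      have h5 : 4 * (-δ * Q.m) = δ ^ 2 - δ := by
        have : 4 * Q.m = 1 - δ := by linarith
        linear_combination (-δ) * this
      omega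
    rcases Int.even_or_odd' Q.m with ⟨l, hl | hl⟩
    · constructor
      · intro hin
        exfalso
        apply hin 0
        rw [hc, hl]
        exact ⟨-δ * l, by push_cast; ring⟩
      · intro _
        exact Q.two_split 0 l (by rw [hs]; ring) hl
    · constructor
      · intro _
        exact Q.two_inrt 0 l (by rw [hs]; ring) hl
      · intro hin
        exfalso
        apply hin
        intro x
        rw [hc]
        have hδo : Odd δ := by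
          rw [Int.odd_iff]
          omega
        have h6 : Odd (-δ * Q.m) := by
          refine Odd.mul hδo.neg ?_
          rw [hl]
          exact ⟨l, rfl⟩
        have h7 : Even (x ^ 2 - δ * x) := by
          have : x ^ 2 - δ * x = x * (x - δ) := by ring
          rw [this]
          rcases Int.even_or_odd x with hx | hx
          · exact hx.mul_right _
          · exact (hx.sub_odd hδo).mul_left _
        have h8 : Odd (x ^ 2 - δ * x + -δ * Q.m) := h7.add_odd h6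
        intro h9
        have h10 : Even (x ^ 2 - δ * x + -δ * Q.m) := even_iff_two_dvd.2 (by exact_mod_cast h9)
        exact (Int.not_even_iff_odd.2 h8) h10
  · exfalso
    apply h2
    rw [h]
    exact ⟨2 * -Q.m, by push_cast; ring⟩

end Pool.Agent.Q49.RB
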