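import Pool.Agent.Q49.RB.Law6

set_option autoImplicit false

/-!
# The law
-/

namespace Pool.Agent.Q49.RB

open Polynomial Finset

theorem not_inert_of_dvd {δ : ℤ} (hδ : IsFund δ) {p : ℕ} (hp : p.Prime) (h : (p : ℤ) ∣ δ) :
    ¬ InertAt δ p := by
  by_cases hp2 : p = 2
  · subst hp2
    rcases hδ with ⟨h4, _⟩ | ⟨D, rfl, _, _⟩
    · exfalso
      have : (2 : ℤ) ∣ δ := by exact_mod_cast h
      omega
    · intro hin
      apply hin D
      have h5 : ((4 * D) ^ 2 - 4 * D) / 4 = 4 * D ^ 2 - D := by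
        have : (4 * D) ^ 2 - 4 * D = 4 * (4 * D ^ 2 - D) := by ring
        rw [this]
        exact Int.mul_ediv_cancel_left _ (by norm_num)
      rw [h5]
      have h6 : Even (D ^ 2 - D) := by
        have : D ^ 2 - D = (D - 1) * D := by ring
        rw [this]
        rcases Int.even_or_odd D with hD | hD
        · exact hD.mul_left _
        · exact (hD.sub_odd odd_one).mul_right _
      obtain ⟨q, hq⟩ := h6
      refine ⟨q, ?_⟩
      push_cast
      linear_combination hq
  · haveI : Fact p.Prime := ⟨hp⟩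
    refine root_of_sq hδ hp hp2 ?_
    have : (δ : ZMod p) = 0 := (ZMod.intCast_zmod_eq_zero_iff_dvd _ _).2 h
    rw [this]
    exact IsSquare.zero

theorem exists_val {p : ℕ} (hp : p.Prime) {d : ℤ} (hd : d ≠ 0) :
    ∃ (v : ℕ) (d' : ℤ), d = (p : ℤ) ^ v * d' ∧ ¬ (p : ℤ) ∣ d' := by
  have h : FiniteMultiplicity (p : ℤ) d := by
    rw [Int.finiteMultiplicity_iff]
    exact ⟨by simpa using hp.ne_one, hd⟩
  obtain ⟨d', h1, h2⟩ := h.exists_eq_pow_mul_and_not_dvd
  exact ⟨_, d', h1, h2⟩

theorem dvd_val {p : ℕ} (hp : p.Prime) {v k : ℕ} {d' : ℤ} (hd' : ¬ (p : ℤ) ∣ d')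
    (h : (p : ℤ) ^ k ∣ (p : ℤ) ^ v * d') : k ≤ v := by
  by_contra hcon
  push Not at hcon
  apply hd'
  have h1 : (p : ℤ) ^ (v + 1) ∣ (p : ℤ) ^ v * d' := (pow_dvd_pow _ hcon).trans h
  rw [pow_succ] at h1
  have hp0 : (p : ℤ) ^ v ≠ 0 := pow_ne_zero _ (by exact_mod_cast hp.ne_zero)
  exact (mul_dvd_mul_iff_left hp0).1 h1

theorem not_dvd_sq_mul {p : ℕ} (hp : p.Prime) {a b : ℤ} (ha : ¬ (p : ℤ) ∣ a)
    (hb : ¬ (p : ℤ) ∣ b) : ¬ (p : ℤ) ∣ a ^ 2 * b := by
  intro h
  rcases (Nat.prime_iff_prime_int.1 hp).dvd_or_dvd h with h1 | h1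
  · exact ha ((Nat.prime_iff_prime_int.1 hp).dvd_of_dvd_pow h1)
  · exact hb h1

/-- the case of the prime two -/
theorem two_contra (v : ℕ) (d' D : ℤ) (hd' : ¬ ((2 : ℕ) : ℤ) ∣ d') (hD : D % 4 = 2 ∨ D % 4 = 3)
    {c : ℂ} (hc : c ∈ Zp 2 Nat.prime_two)
    (h : ((-1) ^ v * (d' : ℂ) + (2 : ℕ) * c) ^ 2 * D * (((-1) ^ v * (d' : ℂ) + (2 : ℕ) * c) ^ 2 * D - 1) / 4
      ∈ Zp 2 Nat.prime_two) : False := by
  have hsq : ((-1 : ℂ) ^ v) ^ 2 = 1 := by rw [← pow_mul, mul_comm, pow_mul]; norm_num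
  set e : ℂ := (-1) ^ v * d' * c + c ^ 2 with he
  have hem : e ∈ Zp 2 Nat.prime_two :=
    add_mem (mul_mem (mul_mem (pow_mem (neg_mem (one_mem _)) _) (intCast_mem _ _)) hc) (pow_mem hc 2)
  have hB : ((-1) ^ v * (d' : ℂ) + (2 : ℕ) * c) ^ 2 = d' ^ 2 + 4 * e := by
    rw [he]
    push_cast
    linear_combination ((d' : ℂ) ^ 2) * hsq
  rw [hB] at h
  set I : ℤ := d' ^ 2 * D * (d' ^ 2 * D - 1) with hI
  have h1 : (I : ℂ) / 4 ∈ Zp 2 Nat.prime_two := by
    have : (I : ℂ) / 4 = (((d' : ℂ) ^ 2 + 4 * e) * D * (((d' : ℂ) ^ 2 + 4 * e) * D - 1) / 4) -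
        (e * D * (2 * d' ^ 2 * D - 1 + 4 * (e * D))) := by
      rw [hI]
      push_cast
      ring
    rw [this]
    have two : (2 : ℂ) ∈ Zp 2 Nat.prime_two := by exact_mod_cast natCast_mem (Zp 2 Nat.prime_two) 2
    have four : (4 : ℂ) ∈ Zp 2 Nat.prime_two := by exact_mod_cast natCast_mem (Zp 2 Nat.prime_two) 4
    exact sub_mem h (mul_mem (mul_mem hem (intCast_mem _ _)) (add_mem (sub_mem (mul_mem (mul_mem two
      (pow_mem (intCast_mem _ _) 2)) (intCast_mem _ _)) (one_mem _)) (mul_mem four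
      (mul_mem hem (intCast_mem _ _)))))
  obtain ⟨a, b, hb, hab⟩ := h1
  have h2 : (I : ℂ) * b = 4 * a := by
    have := hab
    field_simp at this
    linear_combination this
  have h3 : I * b = 4 * a := by exact_mod_cast h2
  have hb' : b % 2 = 1 := by
    have : ¬ (2 : ℤ) ∣ b := by exact_mod_cast hb
    omega
  have h4 : (4 : ℤ) ∣ I := by
    have hco : IsCoprime (4 : ℤ) b := by
      have h5 : IsCoprime (2 : ℤ) b := by
        obtain ⟨q, hq⟩ : ∃ q, b = 2 * q + 1 := ⟨b / 2, by omega⟩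
        exact ⟨-q, 1, by rw [hq]; ring⟩
      have := h5.pow_left (m := 2)
      norm_num at this
      exact this
    exact hco.dvd_of_dvd_mul_right ⟨a, h3⟩
  have hd2 : d' % 2 = 1 := by
    have : ¬ (2 : ℤ) ∣ d' := by exact_mod_cast hd'
    omega
  obtain ⟨q, hq⟩ : ∃ q, d' = 2 * q + 1 := ⟨d' / 2, by omega⟩
  have h6 : ((I : ℤ) : ZMod 4) = 0 := (ZMod.intCast_zmod_eq_zero_iff_dvd I 4).2 (by exact_mod_cast h4)
  have h7 : ∀ q D : ZMod 4, (D = 2 ∨ D = 3) →
      (2 * q + 1) ^ 2 * D * ((2 * q + 1) ^ 2 * D - 1) ≠ 0 := by decide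
  refine h7 (q : ZMod 4) (D : ZMod 4) ?_ ?_
  · rcases hD with hD | hD
    · left
      have : (D : ZMod 4) = ((2 : ℤ) : ZMod 4) := (ZMod.intCast_eq_intCast_iff' D 2 4).2 (by
        push_cast
        omega)
      rw [this]
      rfl
    · right
      have : (D : ZMod 4) = ((3 : ℤ) : ZMod 4) := (ZMod.intCast_eq_intCast_iff' D 3 4).2 (by
        push_cast
        omega)
      rw [this]
      rfl
  · rw [← h6, hI, hq]
    push_cast
    ring

theorem PZ_bin {p : ℕ} (hp : p.Prime) (n : ℕ) : PZ p hp (binP n) := fun N => by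
  rw [binP_eval, bin_nat]
  exact natCast_mem _ _

/-- sufficiency, reduced to the basis at every prime -/
theorem integral_of_basis (n : ℕ) (x : Fin 2 → ℂ)
    (h : ∀ (k : ℤ) (p : ℕ) (hp : p.Prime), ∀ m ≤ n,
      ∑ i, ee p hp.one_lt m (k + x i) ∈ Zp p hp) : Integral n (fun _ : Fin 2 => 1) x := by
  intro k
  refine int_of_local fun p hp => ?_
  have h1 := local_of_basis hp (x := fun i => (k : ℂ) + x i) (n := n) (h k p hp) (binP n)
    (binP_natDegree n) (PZ_bin hp n)
  simp only [binP_eval] at h1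
  simpa using h1

/-- **The exact law.** -/
theorem law (n : ℕ) {δ : ℤ} (hδ : IsFund δ) (c₁ c₂ d : ℤ) (hΔ : c₁ ^ 2 - 4 * c₂ = δ * d ^ 2)
    (x : Fin 2 → ℂ) (hs : x 0 + x 1 = c₁) (hm : x 0 * x 1 = c₂) :
    Integral n (fun _ : Fin 2 => 1) x ↔ Divis δ n d := by
  obtain ⟨s, m, hsm, hcase⟩ := fund_data hδ
  -- the integer part
  obtain ⟨a, ha⟩ : ∃ a : ℤ, c₁ - d * s = 2 * a := by
    have h1 : (c₁ - d * s) * (c₁ + d * s) = 4 * (c₂ - d ^ 2 * m) := by
      linear_combination hΔ - d ^ 2 * hsm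
    have h2 : Even (c₁ - d * s) := by
      by_contra hodd
      rw [Int.not_even_iff_odd] at hodd
      have hodd' : Odd (c₁ + d * s) := by
        have : c₁ + d * s = (c₁ - d * s) + 2 * (d * s) := by ring
        rw [this]
        exact hodd.add_even (even_two_mul _)
      have h3 := hodd.mul hodd'
      rw [h1] at h3
      exact (Int.not_even_iff_odd.2 h3) ⟨2 * (c₂ - d ^ 2 * m), by ring⟩
    obtain ⟨a, ha⟩ := h2
    exact ⟨a, by rw [ha]; ring⟩
  have ha' : (c₁ : ℂ) - d * s = 2 * a := by exact_mod_cast ha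
  by_cases hd : d = 0
  · subst hd
    constructor
    · intro _ p _ k
      exact ⟨fun _ _ => dvd_zero _, fun _ _ => dvd_zero _⟩
    · intro _
      have hΔ' : (c₁ : ℂ) ^ 2 - 4 * c₂ = 0 := by
        have : c₁ ^ 2 - 4 * c₂ = 0 := by rw [hΔ]; ring
        exact_mod_cast this
      have h1 : (x 0 - x 1) ^ 2 = 0 := by
        rw [← hs, ← hm] at hΔ'
        linear_combination hΔ'
      have h2 : x 0 = x 1 := by
        have := pow_eq_zero_iff (two_ne_zero) |>.1 h1
        linear_combination this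
      have h3 : x 1 = a := by
        rw [h2] at hs
        push_cast at ha'
        linear_combination (1 / 2 : ℂ) * hs + (1 / 2 : ℂ) * ha'
      refine integral_of_basis n x fun k p hp m _ => ?_
      rw [Fin.sum_univ_two, h2, h3]
      have h4 : ((k : ℂ) + a) ∈ Zp p hp := add_mem (intCast_mem _ _) (intCast_mem _ _)
      exact add_mem (Zp_ee hp h4 m) (Zp_ee hp h4 m)
  · have hd0 : (d : ℂ) ≠ 0 := by exact_mod_cast hd
    set r : ℂ := (x 0 - x 1) / d with hr
    have hΔ' : (c₁ : ℂ) ^ 2 - 4 * c₂ = δ * d ^ 2 := by exact_mod_cast hΔ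
    have hr2 : r ^ 2 = δ := by
      rw [hr, div_pow]
      have h1 : (x 0 - x 1) ^ 2 = δ * d ^ 2 := by
        rw [← hΔ', ← hs, ← hm]
        ring
      rw [h1]
      field_simp
    have hsm' : (s : ℂ) ^ 2 - 4 * m = δ := by exact_mod_cast hsm
    have hrd : x 0 - x 1 = d * r := by
      rw [hr]
      field_simp
    have hx0 : x 0 = a + d * ((s + r) / 2) := by
      linear_combination (1 / 2 : ℂ) * hs + (1 / 2 : ℂ) * hrd + (1 / 2 : ℂ) * ha'
    have hx1 : x 1 = a + d * ((s - r) / 2) := by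
      linear_combination (1 / 2 : ℂ) * hs - (1 / 2 : ℂ) * hrd + (1 / 2 : ℂ) * ha'
    let Q : (p : ℕ) → p.Prime → QO p := fun p hp =>
      ⟨hp, (s + r) / 2, (s - r) / 2, s, m, by ring, by linear_combination (1 / 4 : ℂ) * hsm' - (1 / 4 : ℂ) * hr2⟩
    have hQd : ∀ p hp, (Q p hp).disc = δ := fun p hp => hsm
    constructor
    · intro hI p hp k
      obtain ⟨v, d', hdv, hd'⟩ := exists_val hp hd
      have hdv' : (d : ℂ) = (p : ℂ) ^ v * d' := by exact_mod_cast hdv
      have hy0 : x 0 = a + (p : ℂ) ^ v * (d' * (Q p hp).ω) := by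
        rw [hx0, hdv']
        ring
      have hy1 : x 1 = a + (p : ℂ) ^ v * (d' * (Q p hp).ω') := by
        rw [hx1, hdv']
        ring
      constructor
      · intro hin hle
        rcases le_or_gt (k + 1) v with hkv | hkv
        · rw [hdv]
          exact Dvd.dvd.mul_right (pow_dvd_pow _ hkv) _
        · exfalso
          have hpδ : ¬ (p : ℤ) ∣ δ := fun h => not_inert_of_dvd hδ hp h hin
          have hInrt : (Q p hp).Inrt := by
            by_cases hp2 : p = 2
            · subst hp2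
              exact (two_unram (Q 2 hp) hδ (hQd 2 hp) hcase hpδ).1 hin
            · exact (odd_unram (Q p hp) hδ (hQd p hp) hp2 hpδ).1 hin
          have hpv : p ^ v * (p + 1) ≤ n := by
            refine le_trans ?_ hle
            have h1 : p ^ v ≤ p ^ k := Nat.pow_le_pow_right hp.pos (by omega)
            calc p ^ v * (p + 1) ≤ p ^ k * (p + 1) := Nat.mul_le_mul_right _ h1
              _ = p ^ (k + 1) + p ^ k := by ring
          obtain ⟨A, hA, c, hc, ht⟩ := (Q p hp).nec_core n v (intCast_mem _ a) d' x hy0 hy1 hI (p + 1) hpv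
          rw [(Q p hp).eep_p hp.one_lt, pow_one] at ht
          have hB : (-1 : ℂ) ^ v * d' + p * c ∈ Zp p hp := add_mem (mul_mem
            (pow_mem (neg_mem (one_mem _)) _) (intCast_mem _ _)) (mul_mem (natCast_mem _ _) hc)
          have h2 := (Q p hp).inrt_nec hInrt hA hB ht
          rw [hQd] at h2
          exact not_dvd_sq_mul hp hd' hpδ (QO.unit_div (Q p hp) v d' δ hc h2)
      · intro hpδ hle
        rcases le_or_gt (k + 1) v with hkv | hkv
        · rw [hdv]
          exact Dvd.dvd.mul_right (pow_dvd_pow _ hkv) _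
        · exfalso
          have hpv : 2 * (p ^ v * p) ≤ n := by
            refine le_trans ?_ hle
            have h1 : p ^ v ≤ p ^ k := Nat.pow_le_pow_right hp.pos (by omega)
            rw [pow_succ]
            exact Nat.mul_le_mul_left _ (Nat.mul_le_mul_right _ h1)
          have hB : ∀ c ∈ Zp p hp, (-1 : ℂ) ^ v * d' + p * c ∈ Zp p hp := fun c hc => add_mem (mul_mem
            (pow_mem (neg_mem (one_mem _)) _) (intCast_mem _ _)) (mul_mem (natCast_mem _ _) hc)
          by_cases hp2 : p = 2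
          · subst hp2
            rcases hcase with ⟨_, h4, _⟩ | ⟨hs0, hm4, _, _⟩
            · have : (2 : ℤ) ∣ δ := by exact_mod_cast hpδ
              omega
            · obtain ⟨A, hA, c, hc, ht⟩ := (Q 2 hp).nec_core n v (intCast_mem _ a) d' x hy0 hy1 hI 4
                (by omega)
              rw [eep_four] at ht
              have h2 := (Q 2 hp).two_nec (-m) hs0 (by simp [Q]) hA (hB c hc) ht
              exact two_contra v d' (-m) hd' (by omega) hc h2
          · obtain ⟨D, hD, hpD⟩ := odd_ram hp hδ hp2 hpδ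
            obtain ⟨A, hA, c, hc, ht⟩ := (Q p hp).nec_core n v (intCast_mem _ a) d' x hy0 hy1 hI (2 * p)
              (by rw [mul_left_comm]; exact hpv)
            rw [eep_two_mul hp hp2] at ht
            have h2 := (Q p hp).ram_nec hp2 D (by rw [hQd]; exact hD) hA (hB c hc) ht
            exact not_dvd_sq_mul hp hd' hpD (QO.unit_div (Q p hp) v d' D hc h2)
    · intro hdiv
      refine integral_of_basis n x fun k p hp j hj => ?_
      obtain ⟨v, d', hdv, hd'⟩ := exists_val hp hd
      have hdv' : (d : ℂ) = (p : ℂ) ^ v * d' := by exact_mod_cast hdv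
      have hak : ((a + k : ℤ) : ℂ) ∈ Zp p hp := intCast_mem _ _
      have hy : ((d' : ℂ × ℂ)) * (Q p hp).gen ∈ (Q p hp).R :=
        mul_mem (intCast_mem _ _) (Q p hp).gen_mem
      have hz : (((k : ℂ) + x 0, (k : ℂ) + x 1) : ℂ × ℂ) =
          (((a + k : ℤ) : ℂ), ((a + k : ℤ) : ℂ)) + (p : ℂ × ℂ) ^ v * ((d' : ℂ × ℂ) * (Q p hp).gen) := by
        rw [hx0, hx1, hdv']
        unfold QO.gen
        ext
        · simp only [Prod.fst_add, Prod.fst_mul, Prod.pow_fst, Prod.fst_natCast, Prod.fst_intCast]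
          push_cast
          ring
        · simp only [Prod.snd_add, Prod.snd_mul, Prod.pow_snd, Prod.snd_natCast, Prod.snd_intCast]
          push_cast
          ring
      rw [Fin.sum_univ_two]
      change (eep p hp.one_lt j ((k : ℂ) + x 0, (k : ℂ) + x 1)).1 +
        (eep p hp.one_lt j ((k : ℂ) + x 0, (k : ℂ) + x 1)).2 ∈ Zp p hp
      rw [hz]
      by_cases hpδ : (p : ℤ) ∣ δ
      · have hbd : n < 2 * (p * p ^ v) := by
          by_contra hcon
          push Not at hcon
          have h1 := (hdiv p hp v).2 hpδ (by rw [pow_succ, mul_comm (p ^ v) p]; exact hcon)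
          rw [hdv] at h1
          have := dvd_val hp hd' h1
          omega
        refine (Q p hp).suff_ram v hak hy ?_ j (by omega)
        intro z hz w hw
        by_cases hp2 : p = 2
        · subst hp2
          rcases hcase with ⟨_, h4, _⟩ | ⟨hs0, hm4, _, _⟩
          · exfalso
            have : (2 : ℤ) ∣ δ := by exact_mod_cast hpδ
            omega
          · exact (Q 2 hp).two_tr (-m) hs0 (by simp [Q]) hz hw
        · obtain ⟨D, hD, _⟩ := odd_ram hp hδ hp2 hpδ
          exact (Q p hp).ram_tr hp2 D (by rw [hQd]; exact hD) hz hw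
      · by_cases hin : InertAt δ p
        · have hInrt : (Q p hp).Inrt := by
            by_cases hp2 : p = 2
            · subst hp2
              exact (two_unram (Q 2 hp) hδ (hQd 2 hp) hcase hpδ).1 hin
            · exact (odd_unram (Q p hp) hδ (hQd p hp) hp2 hpδ).1 hin
          have hbd : n < p ^ v * (p + 1) := by
            by_contra hcon
            push Not at hcon
            have h1 := (hdiv p hp v).1 hin (by
              have : p ^ (v + 1) + p ^ v = p ^ v * (p + 1) := by ring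
              rw [this]
              exact hcon)
            rw [hdv] at h1
            have := dvd_val hp hd' h1
            omega
          exact (Q p hp).suff_inert v hak hy (fun z hz => (Q p hp).inrt_tr hInrt hz) j (by omega)
        · have hSp : (Q p hp).Split := by
            by_cases hp2 : p = 2
            · subst hp2
              exact (two_unram (Q 2 hp) hδ (hQd 2 hp) hcase hpδ).2 hin
            · exact (odd_unram (Q p hp) hδ (hQd p hp) hp2 hpδ).2 hin
          refine (Q p hp).tr_mem ((Q p hp).suff_split ?_ (fun z hz => (Q p hp).split_stable hSp hz) j)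
          exact add_mem ((Q p hp).diag_mem hak) (mul_mem (pow_mem (Q p hp).p_mem _) hy)

end Pool.Agent.Q49.RB
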