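import Pool.Agent.Q49.RB.Bin

set_option autoImplicit false

/-!
# Rank two: the primes which do not split in `ℚ(√Δ)`
-/

namespace Pool.Agent.Q49.RB

open Polynomial Finset

/-- rational numbers with denominators prime to `p`, in `ℂ` -/
def Zp (p : ℕ) (hp : p.Prime) : Subring ℂ where
  carrier := {q | ∃ a b : ℤ, ¬ (p : ℤ) ∣ b ∧ q * b = a}
  mul_mem' := by
    rintro x y ⟨a, b, hb, h⟩ ⟨c, d, hd, h'⟩
    refine ⟨a * c, b * d, ?_, ?_⟩
    · intro hdiv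
      rcases (Nat.prime_iff_prime_int.1 hp).dvd_or_dvd hdiv with h1 | h1
      exacts [hb h1, hd h1]
    · push_cast
      rw [← h, ← h']
      ring
  one_mem' := ⟨1, 1, by
    intro h
    have := Int.le_of_dvd one_pos h
    have := hp.two_le
    omega, by simp⟩
  add_mem' := by
    rintro x y ⟨a, b, hb, h⟩ ⟨c, d, hd, h'⟩
    refine ⟨a * d + c * b, b * d, ?_, ?_⟩
    · intro hdiv
      rcases (Nat.prime_iff_prime_int.1 hp).dvd_or_dvd hdiv with h1 | h1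
      exacts [hb h1, hd h1]
    · push_cast
      rw [← h, ← h']
      ring
  zero_mem' := ⟨0, 1, by
    intro h
    have := Int.le_of_dvd one_pos h
    have := hp.two_le
    omega, by simp⟩
  neg_mem' := by
    rintro x ⟨a, b, hb, h⟩
    exact ⟨-a, b, hb, by push_cast; rw [← h]; ring⟩

theorem Zp_inv {p : ℕ} (hp : p.Prime) (b : ℤ) (hb : ¬ (p : ℤ) ∣ b) : (b : ℂ)⁻¹ ∈ Zp p hp := by
  have hb0 : (b : ℂ) ≠ 0 := by
    intro h
    apply hb
    rw [Int.cast_eq_zero.1 h]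
    exact dvd_zero _
  exact ⟨1, b, hb, by rw [inv_mul_cancel₀ hb0]; simp⟩

theorem Zp_div {p : ℕ} (hp : p.Prime) (d : ℤ) (h : (d : ℂ) / p ∈ Zp p hp) : (p : ℤ) ∣ d := by
  obtain ⟨a, b, hb, h1⟩ := h
  have hp0 : (p : ℂ) ≠ 0 := by exact_mod_cast hp.ne_zero
  have h2 : (d : ℂ) * b = a * p := by
    rw [← h1]
    field_simp
  have h3 : d * b = a * p := by exact_mod_cast h2
  rcases (Nat.prime_iff_prime_int.1 hp).dvd_or_dvd (Dvd.intro_left a h3.symm) with h4 | h4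
  · exact h4
  · exact absurd h4 hb

/-- the order generated by `ω`, as a subring of `ℂ × ℂ` -/
def SS {p : ℕ} (hp : p.Prime) (ω : ℂ) (D : ℤ) (hω : ω ^ 2 = D) : Subring (ℂ × ℂ) where
  carrier := {α | ∃ x ∈ Zp p hp, ∃ y ∈ Zp p hp, α = (x + y * ω, x - y * ω)}
  mul_mem' := by
    rintro _ _ ⟨x, hx, y, hy, rfl⟩ ⟨u, hu, v, hv, rfl⟩
    refine ⟨x * u + y * v * D, ?_, x * v + y * u, ?_, ?_⟩
    · exact add_mem (mul_mem hx hu) (mul_mem (mul_mem hy hv) (intCast_mem _ _))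
    · exact add_mem (mul_mem hx hv) (mul_mem hy hu)
    · rw [← hω]
      ext
      · simp only [Prod.fst_mul]
        ring
      · simp only [Prod.snd_mul]
        ring
  one_mem' := ⟨1, one_mem _, 0, zero_mem _, by simp; rfl⟩
  add_mem' := by
    rintro _ _ ⟨x, hx, y, hy, rfl⟩ ⟨u, hu, v, hv, rfl⟩
    refine ⟨x + u, add_mem hx hu, y + v, add_mem hy hv, ?_⟩
    ext
    · simp only [Prod.fst_add]
      ring
    · simp only [Prod.snd_add]
      ring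
  zero_mem' := ⟨0, zero_mem _, 0, zero_mem _, by simp; rfl⟩
  neg_mem' := by
    rintro _ ⟨x, hx, y, hy, rfl⟩
    refine ⟨-x, neg_mem hx, -y, neg_mem hy, ?_⟩
    ext
    · simp only [Prod.fst_neg]
      ring
    · simp only [Prod.snd_neg]
      ring

section

variable {p : ℕ} (hp : p.Prime) {ω : ℂ} {D : ℤ} (hω : ω ^ 2 = D)

theorem SS_diag {q : ℂ} (hq : q ∈ Zp p hp) : ((q, q) : ℂ × ℂ) ∈ SS hp ω D hω :=
  ⟨q, hq, 0, zero_mem _, by simp⟩

theorem SS_trace {α : ℂ × ℂ} (h : α ∈ SS hp ω D hω) : α.1 + α.2 ∈ Zp p hp := by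
  obtain ⟨x, hx, y, hy, rfl⟩ := h
  have : x + y * ω + (x - y * ω) = x + x := by ring
  simp only [this]
  exact add_mem hx hx

theorem SS_trace_mul {α : ℂ × ℂ} (h : α ∈ SS hp ω D hω) :
    ∃ y ∈ Zp p hp, α.1 * ω + α.2 * (-ω) = 2 * (y * D) := by
  obtain ⟨x, hx, y, hy, rfl⟩ := h
  refine ⟨y, hy, ?_⟩
  rw [← hω]
  ring

/-- `p` does not divide `2` -/
theorem two_not_dvd {p : ℕ} (hp : p.Prime) (hp2 : p ≠ 2) : ¬ (p : ℤ) ∣ 2 := by
  intro h
  have h1 : p ∣ 2 := by exact_mod_cast h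
  rcases (Nat.dvd_prime Nat.prime_two).1 h1 with h2 | h2
  · exact hp.one_lt.ne' h2
  · exact hp2 h2

theorem half_mem (hp2 : p ≠ 2) : (2 : ℂ)⁻¹ ∈ Zp p hp := by
  have := Zp_inv hp 2 (two_not_dvd hp hp2)
  simpa using this

/-- the element `√Δ / 2` -/
noncomputable def WW (ω : ℂ) : ℂ × ℂ := (ω / 2, -ω / 2)

theorem WW_mem (hp2 : p ≠ 2) : WW ω ∈ SS hp ω D hω := by
  refine ⟨0, zero_mem _, 2⁻¹, half_mem hp hp2, ?_⟩
  unfold WW
  ext
  · simp only
    ring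
  · simp only
    ring

theorem WW_sq {ω : ℂ} {D : ℤ} (hω : ω ^ 2 = D) : WW ω * WW ω = ((D : ℂ) / 4, (D : ℂ) / 4) := by
  unfold WW
  rw [← hω]
  ext
  · simp only [Prod.fst_mul]
    ring
  · simp only [Prod.snd_mul]
    ring

/-- congruence modulo `p` in the order is preserved by powers -/
theorem pow_cong (S : Subring (ℂ × ℂ)) {a b : ℂ × ℂ} (ha : a ∈ S) (hb : b ∈ S) (n : ℕ) :
    ∃ c ∈ S, (a + (p : ℂ × ℂ) * b) ^ n = a ^ n + (p : ℂ × ℂ) * c := by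
  induction n with
  | zero => exact ⟨0, zero_mem _, by simp⟩
  | succ n ih =>
    obtain ⟨c, hc, h⟩ := ih
    refine ⟨a ^ n * b + c * a + (p : ℂ × ℂ) * (c * b), ?_, ?_⟩
    · exact add_mem (add_mem (mul_mem (pow_mem ha n) hb) (mul_mem hc ha))
        (mul_mem (natCast_mem _ _) (mul_mem hc hb))
    · rw [pow_succ, h, pow_succ]
      ring

/-- the product of `1 - (q / i) w` -/
theorem prod_cong (S : Subring (ℂ × ℂ)) (u : ℕ → ℂ × ℂ) (m : ℕ)
    (h : ∀ i < m, ∃ c ∈ S, u i = 1 + (p : ℂ × ℂ) * c) :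
    ∃ c ∈ S, ∏ i ∈ range m, u i = 1 + (p : ℂ × ℂ) * c := by
  induction m with
  | zero => exact ⟨0, zero_mem _, by simp⟩
  | succ m ih =>
    obtain ⟨c, hc, h1⟩ := ih fun i hi => h i (by omega)
    obtain ⟨d, hd, h2⟩ := h m (by omega)
    refine ⟨c + d + (p : ℂ × ℂ) * (c * d), ?_, ?_⟩
    · exact add_mem (add_mem hc hd) (mul_mem (natCast_mem _ _) (mul_mem hc hd))
    · rw [prod_range_succ, h1, h2]
      ring

end

end Pool.Agent.Q49.RB
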