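import Pool.Agent.Q49.RB.Loc

set_option autoImplicit false

namespace Pool.Agent.Q49.RB

open Polynomial Finset

theorem bin_mul (x : ℂ) (m : ℕ) (hm : Even m) :
    bin (((m + 1 : ℕ) : ℂ) * x) (m + 1) =
      x * ∏ i ∈ range m, (1 - ((m + 1 : ℕ) : ℂ) * x / ((i + 1 : ℕ) : ℂ)) := by
  have h1 : (((m + 1).factorial : ℕ) : ℂ) = ((m + 1 : ℕ) : ℂ) * ∏ i ∈ range m, ((i + 1 : ℕ) : ℂ) := by
    rw [Nat.factorial_succ]
    push_cast
    rw [← Finset.prod_range_add_one_eq_factorial]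
    push_cast
    rfl
  have h2 : ((m + 1 : ℕ) : ℂ) ≠ 0 := by exact_mod_cast Nat.succ_ne_zero m
  have h3 : ∏ i ∈ range m, ((i + 1 : ℕ) : ℂ) ≠ 0 :=
    prod_ne_zero_iff.2 fun i _ => by exact_mod_cast Nat.succ_ne_zero i
  unfold bin
  rw [prod_range_succ', h1]
  have h4 : ∏ i ∈ range m, (((m + 1 : ℕ) : ℂ) * x - ((i + 1 : ℕ) : ℂ)) =
      (∏ i ∈ range m, (1 - ((m + 1 : ℕ) : ℂ) * x / ((i + 1 : ℕ) : ℂ))) *
        ∏ i ∈ range m, ((i + 1 : ℕ) : ℂ) := by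
    have h5 : ∏ i ∈ range m, (((m + 1 : ℕ) : ℂ) * x - ((i + 1 : ℕ) : ℂ)) =
        ∏ i ∈ range m, ((-1 : ℂ) * ((1 - ((m + 1 : ℕ) : ℂ) * x / ((i + 1 : ℕ) : ℂ)) *
          ((i + 1 : ℕ) : ℂ))) := by
      refine prod_congr rfl fun i _ => ?_
      have : ((i + 1 : ℕ) : ℂ) ≠ 0 := by exact_mod_cast Nat.succ_ne_zero i
      field_simp
      ring
    rw [h5, prod_mul_distrib, prod_const, card_range, hm.neg_one_pow, one_mul, prod_mul_distrib]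
  rw [h4]
  simp only [Nat.cast_zero, sub_zero]
  field_simp

section

variable {p : ℕ} (hp : p.Prime)

include hp in
theorem quot_mem (j k : ℕ) (hk0 : k ≠ 0) (hk : k < p ^ j) :
    ∃ c ∈ Zp p hp, ((p ^ j : ℕ) : ℂ) / (k : ℂ) = p * c := by
  obtain ⟨t, k', hk', h⟩ := Nat.exists_eq_pow_mul_and_not_dvd hk0 p hp.ne_one
  have hk'0 : k' ≠ 0 := by
    rintro rfl
    simp at hk'
  have ht : t < j := by
    by_contra hcon
    push Not at hcon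
    have h1 : p ^ j ≤ p ^ t := Nat.pow_le_pow_right hp.pos hcon
    have h2 : p ^ t ≤ k := by
      rw [h]
      exact Nat.le_mul_of_pos_right _ (Nat.pos_of_ne_zero hk'0)
    omega
  obtain ⟨d, rfl⟩ := Nat.exists_eq_add_of_lt ht
  refine ⟨((p ^ d : ℕ) : ℂ) * ((k' : ℤ) : ℂ)⁻¹, ?_, ?_⟩
  · refine mul_mem (natCast_mem _ _) (Zp_inv hp _ ?_)
    intro hd
    exact hk' (by exact_mod_cast hd)
  · have hp0 : (p : ℂ) ≠ 0 := by exact_mod_cast hp.ne_zero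
    have hk0' : (k' : ℂ) ≠ 0 := by exact_mod_cast hk'0
    rw [h]
    push_cast
    field_simp
    ring

variable {ω : ℂ} {D : ℤ} (hω : ω ^ 2 = D)

/-- the value of `bin (x, p ^ j)` at `p ^ j w` -/
theorem bin_cong (hp2 : p ≠ 2) (j : ℕ) (w : ℂ × ℂ) (hw : w ∈ SS hp ω D hω) :
    ∃ β ∈ SS hp ω D hω, ((bin (((p ^ j : ℕ) : ℂ) * w.1) (p ^ j),
      bin (((p ^ j : ℕ) : ℂ) * w.2) (p ^ j)) : ℂ × ℂ) = w * (1 + (p : ℂ × ℂ) * β) := by
  have hodd : Odd (p ^ j) := (hp.odd_of_ne_two hp2).pow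
  obtain ⟨m, hm⟩ := hodd
  have hm' : Even (2 * m) := even_two_mul m
  have hq : p ^ j = 2 * m + 1 := hm
  obtain ⟨c, hc, h⟩ := prod_cong (p := p) (SS hp ω D hω)
    (fun i => ((1 - ((p ^ j : ℕ) : ℂ) * w.1 / ((i + 1 : ℕ) : ℂ),
      1 - ((p ^ j : ℕ) : ℂ) * w.2 / ((i + 1 : ℕ) : ℂ)) : ℂ × ℂ)) (2 * m) (by
      intro i hi
      obtain ⟨e, he, h1⟩ := quot_mem hp j (i + 1) (by omega) (by omega)
      refine ⟨-((e, e) * w), neg_mem (mul_mem (SS_diag hp hω he) hw), ?_⟩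
      have h2 : ∀ x : ℂ, ((p ^ j : ℕ) : ℂ) * x / ((i + 1 : ℕ) : ℂ) = (p * e) * x := by
        intro x
        rw [← h1]
        ring
      simp only [h2]
      ext
      · simp
        ring
      · simp
        ring)
  refine ⟨c, hc, ?_⟩
  rw [← h]
  ext
  · simp only [Prod.fst_mul, Prod.fst_prod]
    conv_lhs => rw [hq]
    rw [bin_mul _ _ hm', ← hq]
  · simp only [Prod.snd_mul, Prod.snd_prod]
    conv_lhs => rw [hq]
    rw [bin_mul _ _ hm', ← hq]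

end

/-- a shift which makes the trace divisible by a power of `p` -/
theorem exists_shift {p : ℕ} (hp : p.Prime) (hp2 : p ≠ 2) (c1 : ℤ) (m : ℕ) :
    ∃ (a : ℕ) (e : ℤ), c1 + 2 * a = (p : ℤ) ^ m * e := by
  have hodd : Odd (p ^ m) := (hp.odd_of_ne_two hp2).pow
  obtain ⟨k, hk⟩ := hodd
  have hk' : (p : ℤ) ^ m = 2 * k + 1 := by exact_mod_cast hk
  set a0 : ℤ := -c1 * (k + 1) with ha0
  have hpos : 0 ≤ a0 + (p : ℤ) ^ m * |a0| := by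
    have h1 : (1 : ℤ) ≤ (p : ℤ) ^ m := by
      rw [hk']
      omega
    have h2 := neg_abs_le a0
    have h3 := abs_nonneg a0
    nlinarith
  refine ⟨(a0 + (p : ℤ) ^ m * |a0|).toNat, -c1 + 2 * |a0|, ?_⟩
  have h4 : (((a0 + (p : ℤ) ^ m * |a0|).toNat : ℕ) : ℤ) = a0 + (p : ℤ) ^ m * |a0| :=
    Int.toNat_of_nonneg hpos
  rw [h4, ha0, hk']
  ring

end Pool.Agent.Q49.RB
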