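import Pool.Agent.Q49.RB.Loc2

set_option autoImplicit false

namespace Pool.Agent.Q49.RB

open Polynomial Finset

theorem binP_natDegree (m : ℕ) : (binP m).natDegree ≤ m := by
  unfold binP
  refine (natDegree_C_mul_le _ _).trans ?_
  refine (natDegree_prod_le _ _).trans ?_
  have h : ∀ i ∈ range m, (X - C ((i : ℕ) : ℂ)).natDegree ≤ 1 :=
    fun i _ => natDegree_X_sub_C_le ((i : ℕ) : ℂ)
  have h2 := Finset.sum_le_card_nsmul (range m) (fun i => (X - C ((i : ℕ) : ℂ)).natDegree) 1 h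
  simpa using h2

/-- the shifted binomial polynomial -/
noncomputable def gP (q a : ℕ) : ℂ[X] := (binP q).comp (X + C (a : ℂ))

theorem gP_natDegree (q a : ℕ) : (gP q a).natDegree ≤ q := by
  unfold gP
  rw [natDegree_comp]
  have h1 : (X + C (a : ℂ)).natDegree ≤ 1 := (natDegree_X_add_C (a : ℂ)).le
  calc (binP q).natDegree * (X + C (a : ℂ)).natDegree ≤ q * 1 :=
        Nat.mul_le_mul (binP_natDegree q) h1
    _ = q := by simp

theorem gP_eval (q a : ℕ) (x : ℂ) : (gP q a).eval x = bin (x + a) q := by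
  unfold gP
  rw [eval_comp, binP_eval]
  simp

theorem gP_nat (q a N : ℕ) : (gP q a).eval (N : ℂ) = (((N + a).choose q : ℕ) : ℂ) := by
  rw [gP_eval, ← bin_nat]
  push_cast
  rfl

theorem fermat {p : ℕ} (hp : p.Prime) (y : ℕ) : ∃ z : ℤ, ((y : ℂ) ^ p - y) * (1 / (p : ℂ)) = z := by
  haveI : Fact p.Prime := ⟨hp⟩
  have h1 : (((y : ℤ) ^ p - y : ℤ) : ZMod p) = 0 := by
    push_cast
    rw [ZMod.pow_card, sub_self]
  rw [ZMod.intCast_zmod_eq_zero_iff_dvd] at h1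
  obtain ⟨z, hz⟩ := h1
  refine ⟨z, ?_⟩
  have hp0 : (p : ℂ) ≠ 0 := by exact_mod_cast hp.ne_zero
  have h2 : ((y : ℂ) ^ p - y) = p * z := by exact_mod_cast hz
  rw [h2]
  field_simp

/-- the first test polynomial -/
noncomputable def H1 (p q a : ℕ) : ℂ[X] := gP q a * (((gP q a) ^ p - gP q a) * C (1 / (p : ℂ)))

/-- the second test polynomial -/
noncomputable def H2 (p q a : ℕ) : ℂ[X] := (((gP q a) ^ p - gP q a) * C (1 / (p : ℂ))) ^ 2

theorem sub_natDegree (p q a : ℕ) (hp : 1 ≤ p) :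
    (((gP q a) ^ p - gP q a) * C (1 / (p : ℂ))).natDegree ≤ p * q := by
  have h1 : ((gP q a) ^ p).natDegree ≤ p * q :=
    (natDegree_pow_le).trans (Nat.mul_le_mul_left _ (gP_natDegree q a))
  have h2 : (gP q a).natDegree ≤ p * q :=
    (gP_natDegree q a).trans (Nat.le_mul_of_pos_left _ hp)
  exact (natDegree_mul_C_le _ _).trans (natDegree_sub_le_of_le h1 h2 |>.trans (by simp))

theorem H1_natDegree (p q a : ℕ) (hp : 1 ≤ p) : (H1 p q a).natDegree ≤ q * (p + 1) := by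
  unfold H1
  refine natDegree_mul_le.trans ?_
  have h1 := gP_natDegree q a
  have h2 := sub_natDegree p q a hp
  have : q * (p + 1) = q + p * q := by ring
  omega

theorem H2_natDegree (p q a : ℕ) (hp : 1 ≤ p) : (H2 p q a).natDegree ≤ 2 * (p * q) := by
  unfold H2
  exact natDegree_pow_le.trans (Nat.mul_le_mul_left _ (sub_natDegree p q a hp))

theorem H1_int {p : ℕ} (hp : p.Prime) (q a N : ℕ) : ∃ z : ℤ, (H1 p q a).eval (N : ℂ) = z := by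
  obtain ⟨z, hz⟩ := fermat hp ((N + a).choose q)
  refine ⟨((N + a).choose q : ℕ) * z, ?_⟩
  unfold H1
  rw [eval_mul, eval_mul, eval_sub, eval_pow, eval_C, gP_nat, hz]
  push_cast
  ring

theorem H2_int {p : ℕ} (hp : p.Prime) (q a N : ℕ) : ∃ z : ℤ, (H2 p q a).eval (N : ℂ) = z := by
  obtain ⟨z, hz⟩ := fermat hp ((N + a).choose q)
  refine ⟨z ^ 2, ?_⟩
  unfold H2
  rw [eval_pow, eval_mul, eval_sub, eval_pow, eval_C, gP_nat, hz]
  push_cast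
  ring

/-- the structure of `bin (x, p ^ j)` at the two roots -/
theorem setup (c1 c2 : ℤ) (δ : Fin 2 → ℂ) (hs : δ 0 + δ 1 = c1) (hm : δ 0 * δ 1 = c2)
    {p : ℕ} (hp : p.Prime) (hp2 : p ≠ 2) (j : ℕ) (D : ℤ)
    (hD : c1 ^ 2 - 4 * c2 = (p : ℤ) ^ (2 * j) * D) :
    ∃ (ω : ℂ) (hω : ω ^ 2 = D) (a : ℕ), ∃ β ∈ SS hp ω D hω,
      ((bin (δ 0 + a) (p ^ j), bin (δ 1 + a) (p ^ j)) : ℂ × ℂ) = WW ω + (p : ℂ × ℂ) * β := by
  have hp0 : (p : ℂ) ≠ 0 := by exact_mod_cast hp.ne_zero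
  have hpj : (p : ℂ) ^ j ≠ 0 := pow_ne_zero _ hp0
  set ω : ℂ := (δ 0 - δ 1) / (p : ℂ) ^ j with hωd
  have hD' : (c1 : ℂ) ^ 2 - 4 * c2 = (p : ℂ) ^ (2 * j) * D := by exact_mod_cast hD
  have hω : ω ^ 2 = D := by
    have h1 : (δ 0 - δ 1) ^ 2 = (p : ℂ) ^ (2 * j) * D := by
      rw [← hD', ← hs, ← hm]
      ring
    rw [hωd, div_pow, h1, ← pow_mul, mul_comm j 2]
    field_simp
  obtain ⟨a, e, hae⟩ := exists_shift hp hp2 c1 (j + 2)
  have hae' : (c1 : ℂ) + 2 * a = (p : ℂ) ^ (j + 2) * e := by exact_mod_cast hae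
  have hd : δ 0 - δ 1 = (p : ℂ) ^ j * ω := by
    rw [hωd]
    field_simp
  set b : ℂ := p * e * 2⁻¹ with hb
  have hbm : b ∈ Zp p hp := mul_mem (mul_mem (natCast_mem _ _) (intCast_mem _ _)) (half_mem hp hp2)
  set w : ℂ × ℂ := WW ω + (p : ℂ × ℂ) * (b, b) with hw
  have hwm : w ∈ SS hp ω D hω :=
    add_mem (WW_mem hp hω hp2) (mul_mem (natCast_mem _ _) (SS_diag hp hω hbm))
  obtain ⟨β, hβ, h⟩ := bin_cong hp hω hp2 j w hwm
  have h0 : δ 0 + a = ((p ^ j : ℕ) : ℂ) * w.1 := by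
    rw [hw, hb]
    simp only [WW, Prod.fst_add, Prod.fst_mul, Prod.fst_natCast]
    push_cast
    linear_combination (1 / 2 : ℂ) * hs + (1 / 2 : ℂ) * hd + (1 / 2 : ℂ) * hae'
  have h1 : δ 1 + a = ((p ^ j : ℕ) : ℂ) * w.2 := by
    rw [hw, hb]
    simp only [WW, Prod.snd_add, Prod.snd_mul, Prod.snd_natCast]
    push_cast
    linear_combination (1 / 2 : ℂ) * hs - (1 / 2 : ℂ) * hd + (1 / 2 : ℂ) * hae'
  refine ⟨ω, hω, a, (b, b) + w * β, add_mem (SS_diag hp hω hbm) (mul_mem hwm hβ), ?_⟩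
  rw [h0, h1, h]
  rw [hw]
  ring

theorem WW_pow {ω : ℂ} {D : ℤ} (hω : ω ^ 2 = D) {p : ℕ} (hp : p.Prime) (hp2 : p ≠ 2) :
    WW ω ^ p = WW ω * (((D : ℂ) / 4) ^ (p / 2), ((D : ℂ) / 4) ^ (p / 2)) := by
  have h1 : 2 * (p / 2) + 1 = p := Nat.two_mul_div_two_add_one_of_odd (hp.odd_of_ne_two hp2)
  conv_lhs => rw [← h1]
  rw [pow_succ, pow_mul, pow_two, WW_sq hω, mul_comm]
  congr 1

theorem four_pow {p : ℕ} (hp : p.Prime) (hp2 : p ≠ 2) :
    ∃ s : ℤ, (4 : ℤ) ^ (p / 2) = 1 + p * s := by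
  haveI : Fact p.Prime := ⟨hp⟩
  have h1 : 2 * (p / 2) + 1 = p := Nat.two_mul_div_two_add_one_of_odd (hp.odd_of_ne_two hp2)
  have h2 : ((2 : ℤ) : ZMod p) ≠ 0 := by
    rw [Ne, ZMod.intCast_zmod_eq_zero_iff_dvd]
    exact two_not_dvd hp hp2
  have h3 := ZMod.pow_card_sub_one_eq_one h2
  have h4 : p - 1 = 2 * (p / 2) := by omega
  rw [h4, pow_mul] at h3
  have h5 : (((4 : ℤ) ^ (p / 2) - 1 : ℤ) : ZMod p) = 0 := by
    push_cast
    push_cast at h3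
    have : (2 : ZMod p) ^ 2 = 4 := by norm_num
    rw [this] at h3
    rw [h3, sub_self]
  rw [ZMod.intCast_zmod_eq_zero_iff_dvd] at h5
  obtain ⟨s, hs⟩ := h5
  exact ⟨s, by linarith⟩

/-- **Inert primes.** -/
theorem inert (n : ℕ) (c1 c2 : ℤ) (δ : Fin 2 → ℂ) (hs : δ 0 + δ 1 = c1) (hm : δ 0 * δ 1 = c2)
    (hI : Integral n (fun _ : Fin 2 => 1) δ)
    {p : ℕ} (hp : p.Prime) (hp2 : p ≠ 2) (j : ℕ) (D : ℤ)
    (hD : c1 ^ 2 - 4 * c2 = (p : ℤ) ^ (2 * j) * D) (hsq : ¬ IsSquare (D : ZMod p)) :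
    n < p ^ j * (p + 1) := by
  haveI : Fact p.Prime := ⟨hp⟩
  by_contra hcon
  push Not at hcon
  have hp0 : (p : ℂ) ≠ 0 := by exact_mod_cast hp.ne_zero
  obtain ⟨ω, hω, a, β, hβ, hG⟩ := setup c1 c2 δ hs hm hp hp2 j D hD
  set G : ℂ × ℂ := (bin (δ 0 + a) (p ^ j), bin (δ 1 + a) (p ^ j)) with hGd
  obtain ⟨z, hz⟩ := hI.poly (H1 p (p ^ j) a) ((H1_natDegree _ _ _ hp.one_le).trans hcon)
    (fun N => H1_int hp _ _ N)
  have hWm := WW_mem hp hω hp2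
  obtain ⟨c, hc, hGp⟩ := pow_cong (p := p) (SS hp ω D hω) hWm hβ p
  rw [← hG] at hGp
  have hD0 : (D : ZMod p) ≠ 0 := by
    intro h
    exact hsq (by rw [h]; exact IsSquare.zero)
  obtain ⟨s, hs4⟩ := four_pow hp hp2
  obtain ⟨t, ht⟩ : ∃ t : ℤ, D ^ (p / 2) = -1 + p * t := by
    have h1 := ZMod.pow_div_two_eq_neg_one_or_one p hD0
    have h2 : (D : ZMod p) ^ (p / 2) = -1 := by
      rcases h1 with h1 | h1
      · exact absurd ((ZMod.euler_criterion p hD0).2 h1) hsq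
      · exact h1
    have h3 : ((D ^ (p / 2) + 1 : ℤ) : ZMod p) = 0 := by
      push_cast
      rw [h2]
      ring
    rw [ZMod.intCast_zmod_eq_zero_iff_dvd] at h3
    obtain ⟨t, ht⟩ := h3
    exact ⟨t, by linarith⟩
  have h4n : ¬ (p : ℤ) ∣ 4 ^ (p / 2) := by
    rw [hs4]
    intro h
    have h1 : (p : ℤ) ∣ 1 := (dvd_add_left (Dvd.intro s rfl)).1 h
    have h2 := Int.le_of_dvd one_pos h1
    have := hp.two_le
    omega
  set t' : ℂ := (t + s) * (((4 ^ (p / 2) : ℤ)) : ℂ)⁻¹ with ht'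
  have ht'm : t' ∈ Zp p hp :=
    mul_mem (add_mem (intCast_mem _ _) (intCast_mem _ _)) (Zp_inv hp _ h4n)
  have hDp : ((D : ℂ) / 4) ^ (p / 2) = -1 + p * t' := by
    have h40 : (((4 ^ (p / 2) : ℤ)) : ℂ) ≠ 0 := by
      push_cast
      exact pow_ne_zero _ (by norm_num)
    rw [ht', div_pow]
    have e1 : (D : ℂ) ^ (p / 2) = -1 + p * t := by exact_mod_cast ht
    have e2 : (((4 ^ (p / 2) : ℤ)) : ℂ) = 1 + p * s := by exact_mod_cast hs4
    have e3 : (4 : ℂ) ^ (p / 2) = (((4 ^ (p / 2) : ℤ)) : ℂ) := by push_cast; rfl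
    rw [e1, e3]
    field_simp
    rw [e2]
    ring
  have hWp := WW_pow hω hp hp2
  set γ : ℂ × ℂ := WW ω * (t', t') + c - β with hγ
  have hγm : γ ∈ SS hp ω D hω :=
    sub_mem (add_mem (mul_mem hWm (SS_diag hp hω ht'm)) hc) hβ
  have hsub : G ^ p - G = -2 * WW ω + (p : ℂ × ℂ) * γ := by
    rw [hGp, hWp, hDp, hG, hγ]
    have e1 : ((-1 + (p : ℂ) * t', -1 + (p : ℂ) * t') : ℂ × ℂ) = -1 + (p : ℂ × ℂ) * (t', t') := by
      ext <;> simp
    rw [e1]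
    ring
  set τ : ℂ × ℂ := WW ω * γ - 2 * (β * WW ω) + (p : ℂ × ℂ) * (β * γ) with hτ
  have hτm : τ ∈ SS hp ω D hω := by
    refine add_mem (sub_mem (mul_mem hWm hγm) ?_) (mul_mem (natCast_mem _ _) (mul_mem hβ hγm))
    have : (2 : ℂ × ℂ) = ((2 : ℕ) : ℂ × ℂ) := by norm_num
    rw [this]
    exact mul_mem (natCast_mem _ _) (mul_mem hβ hWm)
  have hprod : G * (G ^ p - G) = -2 * (WW ω * WW ω) + (p : ℂ × ℂ) * τ := by
    rw [hsub, hG, hτ]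
    ring
  rw [WW_sq hω] at hprod
  have e0 : (H1 p (p ^ j) a).eval (δ 0) = (G * (G ^ p - G)).1 * (1 / (p : ℂ)) := by
    unfold H1
    rw [eval_mul, eval_mul, eval_sub, eval_pow, eval_C, gP_eval, hGd]
    simp only [Prod.fst_mul, Prod.fst_sub, Prod.pow_fst]
    ring
  have e1 : (H1 p (p ^ j) a).eval (δ 1) = (G * (G ^ p - G)).2 * (1 / (p : ℂ)) := by
    unfold H1
    rw [eval_mul, eval_mul, eval_sub, eval_pow, eval_C, gP_eval, hGd]
    simp only [Prod.snd_mul, Prod.snd_sub, Prod.pow_snd]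
    ring
  rw [Fin.sum_univ_two, e0, e1, hprod] at hz
  have hfin : (D : ℂ) / p = (τ.1 + τ.2) - z := by
    rw [← hz]
    simp only [Prod.fst_add, Prod.snd_add, Prod.fst_mul, Prod.snd_mul, Prod.fst_neg, Prod.snd_neg,
      Prod.fst_ofNat, Prod.snd_ofNat, Prod.fst_natCast, Prod.snd_natCast]
    push_cast
    field_simp
    ring
  have hmem : (D : ℂ) / p ∈ Zp p hp := by
    rw [hfin]
    exact sub_mem (SS_trace hp hω hτm) (intCast_mem _ _)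
  have h9 := Zp_div hp D hmem
  exact hD0 ((ZMod.intCast_zmod_eq_zero_iff_dvd D p).2 h9)

/-- **Ramified primes.** -/
theorem ramified (n : ℕ) (c1 c2 : ℤ) (δ : Fin 2 → ℂ) (hs : δ 0 + δ 1 = c1) (hm : δ 0 * δ 1 = c2)
    (hI : Integral n (fun _ : Fin 2 => 1) δ)
    {p : ℕ} (hp : p.Prime) (hp2 : p ≠ 2) (j : ℕ) (D : ℤ)
    (hD : c1 ^ 2 - 4 * c2 = (p : ℤ) ^ (2 * j) * (p * D)) (hpD : ¬ (p : ℤ) ∣ D) :
    n < 2 * (p * p ^ j) := by
  haveI : Fact p.Prime := ⟨hp⟩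
  by_contra hcon
  push Not at hcon
  have hp0 : (p : ℂ) ≠ 0 := by exact_mod_cast hp.ne_zero
  obtain ⟨ω, hω, a, β, hβ, hG⟩ := setup c1 c2 δ hs hm hp hp2 j (p * D) hD
  set G : ℂ × ℂ := (bin (δ 0 + a) (p ^ j), bin (δ 1 + a) (p ^ j)) with hGd
  obtain ⟨z, hz⟩ := hI.poly (H2 p (p ^ j) a) ((H2_natDegree _ _ _ hp.one_le).trans hcon)
    (fun N => H2_int hp _ _ N)
  have hWm := WW_mem hp hω hp2
  obtain ⟨c, hc, hGp⟩ := pow_cong (p := p) (SS hp ω (p * D) hω) hWm hβ p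
  rw [← hG] at hGp
  have h1p : 1 ≤ p / 2 := by
    have h1 := hp.two_le
    have h3 : p ≠ 2 := hp2
    omega
  obtain ⟨m, hm1⟩ : ∃ m, p / 2 = m + 1 := ⟨p / 2 - 1, by omega⟩
  have h4inv : (4 : ℂ)⁻¹ ∈ Zp p hp := by
    have h1 := mul_mem (half_mem hp hp2) (half_mem hp hp2)
    have h2 : (2 : ℂ)⁻¹ * 2⁻¹ = 4⁻¹ := by norm_num
    rwa [h2] at h1
  set t' : ℂ := D * 4⁻¹ * ((((p * D : ℤ)) : ℂ) * 4⁻¹) ^ m with ht'
  have ht'm : t' ∈ Zp p hp :=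
    mul_mem (mul_mem (intCast_mem _ _) h4inv) (pow_mem (mul_mem (intCast_mem _ _) h4inv) m)
  have hDp : ((((p * D : ℤ)) : ℂ) / 4) ^ (p / 2) = p * t' := by
    rw [hm1, ht', pow_succ]
    push_cast
    ring
  have hWp := WW_pow hω hp hp2
  set γ : ℂ × ℂ := WW ω * (t', t') + c - β with hγ
  have hγm : γ ∈ SS hp ω (p * D) hω :=
    sub_mem (add_mem (mul_mem hWm (SS_diag hp hω ht'm)) hc) hβ
  have hsub : G ^ p - G = -WW ω + (p : ℂ × ℂ) * γ := by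
    rw [hGp, hWp, hDp, hG, hγ]
    have e1 : (((p : ℂ) * t', (p : ℂ) * t') : ℂ × ℂ) = (p : ℂ × ℂ) * (t', t') := by
      ext <;> simp
    rw [e1]
    ring
  have hprod : (G ^ p - G) ^ 2 = WW ω * WW ω - 2 * (p : ℂ × ℂ) * (WW ω * γ) +
      (p : ℂ × ℂ) ^ 2 * (γ * γ) := by
    rw [hsub]
    ring
  rw [WW_sq hω] at hprod
  obtain ⟨y, hy, hyt⟩ := SS_trace_mul hp hω hγm
  have e0 : (H2 p (p ^ j) a).eval (δ 0) = ((G ^ p - G) ^ 2).1 * (1 / (p : ℂ)) ^ 2 := by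
    unfold H2
    rw [eval_pow, eval_mul, eval_sub, eval_pow, eval_C, gP_eval, hGd]
    simp only [Prod.fst_sub, Prod.pow_fst]
    ring
  have e1 : (H2 p (p ^ j) a).eval (δ 1) = ((G ^ p - G) ^ 2).2 * (1 / (p : ℂ)) ^ 2 := by
    unfold H2
    rw [eval_pow, eval_mul, eval_sub, eval_pow, eval_C, gP_eval, hGd]
    simp only [Prod.snd_sub, Prod.pow_snd]
    ring
  rw [Fin.sum_univ_two, e0, e1, hprod] at hz
  have hγγ := SS_trace hp hω (mul_mem hγm hγm)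
  have hyt' : (ω / 2) * γ.1 + (-ω / 2) * γ.2 = y * (p * D) := by
    push_cast at hyt
    linear_combination (1 / 2 : ℂ) * hyt
  have hfin : (D : ℂ) / p = 2 * (z + 2 * (y * D) - ((γ * γ).1 + (γ * γ).2)) := by
    rw [← hz]
    simp only [WW, Prod.fst_add, Prod.snd_add, Prod.fst_mul, Prod.snd_mul, Prod.fst_sub,
      Prod.snd_sub, Prod.fst_ofNat, Prod.snd_ofNat, Prod.fst_natCast, Prod.snd_natCast,
      Prod.pow_fst, Prod.pow_snd]
    push_cast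
    field_simp
    linear_combination (16 : ℂ) * hyt'
  have hmem : (D : ℂ) / p ∈ Zp p hp := by
    rw [hfin]
    have h2m : (2 : ℂ) ∈ Zp p hp := by
      have : (2 : ℂ) = ((2 : ℕ) : ℂ) := by norm_num
      rw [this]
      exact natCast_mem _ _
    exact mul_mem h2m (sub_mem (add_mem (intCast_mem _ _) (mul_mem h2m (mul_mem hy
      (intCast_mem _ _)))) hγγ)
  exact hpD (Zp_div hp D hmem)

end Pool.Agent.Q49.RB
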