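import Pool.Agent.Q49.RB.Ind

set_option autoImplicit false

/-! Small values of shifted binomial coefficients near the middle. -/

namespace Pool.Agent.Q49.RB

open Finset

theorem prod_abs (h R : ℕ) :
    ∏ j ∈ range (2 * h), (|(h : ℝ) - j| + R) ≤ (∏ i ∈ range h, ((i : ℝ) + 1 + R)) ^ 2 := by
  rw [two_mul, prod_range_add, pow_two]
  refine mul_le_mul (le_of_eq ?_) ?_ (prod_nonneg fun _ _ => by positivity)
    (prod_nonneg fun _ _ => by positivity)
  · rw [← prod_range_reflect]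
    refine prod_congr rfl fun i hi => ?_
    rw [mem_range] at hi
    have e : ((h - 1 - i : ℕ) : ℝ) = h - 1 - i := by
      rw [Nat.cast_sub (by omega), Nat.cast_sub (by omega)]
      simp
    rw [e, abs_of_nonneg (by linarith [(Nat.cast_nonneg i : (0 : ℝ) ≤ i)])]
    ring
  · refine prod_le_prod (fun _ _ => by positivity) fun i _ => ?_
    push_cast
    have : (h : ℝ) - (h + i) = -i := by ring
    rw [this, abs_neg, abs_of_nonneg (Nat.cast_nonneg i)]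
    linarith

theorem prod_fact (h R : ℕ) :
    (∏ i ∈ range h, ((i : ℝ) + 1 + R)) * (R.factorial : ℝ) = ((h + R).factorial : ℝ) := by
  induction h with
  | zero => simp
  | succ h ih =>
    rw [prod_range_succ]
    have e : h + 1 + R = (h + R) + 1 := by ring
    rw [e, Nat.factorial_succ]
    push_cast
    rw [← ih]
    ring

theorem choose_bound (h R : ℕ) :
    (((h + R).choose R : ℕ) : ℝ) ≤ (5 / 4 : ℝ) ^ (h + R) * 4 ^ R := by
  have h1 : (((h + R).choose R : ℕ) : ℝ) * (1 / 4 : ℝ) ^ R ≤ (5 / 4 : ℝ) ^ (h + R) := by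
    have h2 := add_pow (1 / 4 : ℝ) 1 (h + R)
    have h3 : (1 / 4 : ℝ) + 1 = 5 / 4 := by norm_num
    rw [h3] at h2
    rw [h2]
    have h4 := single_le_sum (f := fun m => (1 / 4 : ℝ) ^ m * 1 ^ (h + R - m) *
      (((h + R).choose m : ℕ) : ℝ)) (s := range (h + R + 1)) (fun i _ => by positivity)
      (show R ∈ range (h + R + 1) by rw [mem_range]; omega)
    refine le_trans (le_of_eq ?_) h4
    simp only [one_pow]
    ring
  have h5 : (1 / 4 : ℝ) ^ R * 4 ^ R = 1 := by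
    rw [← mul_pow]
    norm_num
  calc (((h + R).choose R : ℕ) : ℝ) = (((h + R).choose R : ℕ) : ℝ) * (1 / 4 : ℝ) ^ R * 4 ^ R := by
        rw [mul_assoc, h5, mul_one]
    _ ≤ _ := mul_le_mul_of_nonneg_right h1 (by positivity)

/-- the size of `bin` near the middle -/
theorem bin_small (h R : ℕ) (hh : 0 < h) (z : ℂ) (hz : ‖z‖ ≤ R) :
    ‖bin (h + z) (2 * h)‖ ≤ 2 * h * (25 / 64 : ℝ) ^ h * 25 ^ R := by
  unfold bin
  rw [norm_div, norm_prod, Complex.norm_natCast]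
  have h1 : ∏ j ∈ range (2 * h), ‖(h : ℂ) + z - j‖ ≤ ∏ j ∈ range (2 * h), (|(h : ℝ) - j| + R) := by
    refine prod_le_prod (fun _ _ => norm_nonneg _) fun j _ => ?_
    have e : (h : ℂ) + z - j = (((h : ℝ) - j : ℝ) : ℂ) + z := by
      push_cast
      ring
    rw [e]
    refine (norm_add_le _ _).trans ?_
    rw [Complex.norm_real, Real.norm_eq_abs]
    linarith
  have h2 := h1.trans (prod_abs h R)
  have hRf : (0 : ℝ) < (R.factorial : ℝ) := by exact_mod_cast R.factorial_pos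
  have hhf : (0 : ℝ) < (h.factorial : ℝ) := by exact_mod_cast h.factorial_pos
  have h2f : (0 : ℝ) < ((2 * h).factorial : ℝ) := by exact_mod_cast (2 * h).factorial_pos
  -- the binomial coefficients
  have h3 : (∏ i ∈ range h, ((i : ℝ) + 1 + R)) =
      (((h + R).choose R : ℕ) : ℝ) * (h.factorial : ℝ) := by
    have e1 := prod_fact h R
    have e2 : ((h + R).choose R) * R.factorial * h.factorial = (h + R).factorial := by
      have := Nat.choose_mul_factorial_mul_factorial (Nat.le_add_left R h)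
      rwa [Nat.add_sub_cancel] at this
    have e3 : (((h + R).choose R : ℕ) : ℝ) * (R.factorial : ℝ) * (h.factorial : ℝ) =
        ((h + R).factorial : ℝ) := by exact_mod_cast e2
    have e4 : (∏ i ∈ range h, ((i : ℝ) + 1 + R)) * (R.factorial : ℝ) =
        (((h + R).choose R : ℕ) : ℝ) * (h.factorial : ℝ) * (R.factorial : ℝ) := by
      rw [e1, ← e3]
      ring
    exact mul_right_cancel₀ hRf.ne' e4
  have h4 : (4 : ℝ) ^ h * ((h.factorial : ℝ) ^ 2) ≤ 2 * h * ((2 * h).factorial : ℝ) := by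
    have e1 := Nat.four_pow_le_two_mul_self_mul_centralBinom h hh
    have e2 : h.centralBinom * h.factorial * h.factorial = (2 * h).factorial := by
      rw [Nat.centralBinom_eq_two_mul_choose]
      have := Nat.choose_mul_factorial_mul_factorial (show h ≤ 2 * h by omega)
      have e : 2 * h - h = h := by omega
      rwa [e] at this
    have e3 : (4 : ℝ) ^ h ≤ 2 * h * (h.centralBinom : ℝ) := by exact_mod_cast e1
    have e4 : (h.centralBinom : ℝ) * (h.factorial : ℝ) * (h.factorial : ℝ) =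
        ((2 * h).factorial : ℝ) := by exact_mod_cast e2
    rw [← e4]
    calc (4 : ℝ) ^ h * ((h.factorial : ℝ) ^ 2) ≤
        2 * h * (h.centralBinom : ℝ) * ((h.factorial : ℝ) ^ 2) :=
          mul_le_mul_of_nonneg_right e3 (by positivity)
      _ = _ := by ring
  have h5 := choose_bound h R
  have h6 : (((h + R).choose R : ℕ) : ℝ) ^ 2 ≤ ((5 / 4 : ℝ) ^ (h + R) * 4 ^ R) ^ 2 :=
    pow_le_pow_left₀ (Nat.cast_nonneg _) h5 2
  rw [div_le_iff₀ h2f]
  refine h2.trans ?_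
  rw [h3, mul_pow]
  have e5 : ((5 / 4 : ℝ) ^ (h + R) * 4 ^ R) ^ 2 = (25 / 64 : ℝ) ^ h * 25 ^ R * 4 ^ h := by
    have e6 : ((5 / 4 : ℝ) ^ (h + R) * 4 ^ R) ^ 2 = ((5 / 4 : ℝ) ^ 2) ^ h * (((5 / 4 : ℝ) * 4) ^ 2) ^ R := by
      rw [mul_pow, ← pow_mul, ← pow_mul, ← pow_mul, ← pow_mul, mul_pow, add_mul, pow_add]
      ring
    have e7 : (25 / 64 : ℝ) ^ h * 25 ^ R * 4 ^ h = ((25 / 64 : ℝ) * 4) ^ h * 25 ^ R := by
      rw [mul_pow]
      ring
    rw [e6, e7]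
    norm_num
  calc (((h + R).choose R : ℕ) : ℝ) ^ 2 * (h.factorial : ℝ) ^ 2 ≤
      ((5 / 4 : ℝ) ^ (h + R) * 4 ^ R) ^ 2 * (h.factorial : ℝ) ^ 2 :=
        mul_le_mul_of_nonneg_right h6 (by positivity)
    _ = (25 / 64 : ℝ) ^ h * 25 ^ R * (4 ^ h * (h.factorial : ℝ) ^ 2) := by
        rw [e5]
        ring
    _ ≤ (25 / 64 : ℝ) ^ h * 25 ^ R * (2 * h * ((2 * h).factorial : ℝ)) :=
        mul_le_mul_of_nonneg_left h4 (by positivity)
    _ = _ := by ring

theorem v_bound (v : ℕ) (hv : 128 ≤ v) : (v : ℝ) ^ 8 * (3 / 5 : ℝ) ^ v ≤ 1 := by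
  induction v, hv using Nat.le_induction with
  | base => norm_num
  | succ v hv ih =>
    have hv' : (128 : ℝ) ≤ v := by exact_mod_cast hv
    have h1 : ((v : ℝ) + 1) ≤ v * (129 / 128) := by linarith
    have h2 : ((v : ℝ) + 1) ^ 8 ≤ (v * (129 / 128)) ^ 8 :=
      pow_le_pow_left₀ (by positivity) h1 8
    push_cast
    rw [pow_succ]
    have h3 : (0 : ℝ) ≤ (3 / 5 : ℝ) ^ v := by positivity
    calc ((v : ℝ) + 1) ^ 8 * ((3 / 5 : ℝ) ^ v * (3 / 5)) ≤
        (v * (129 / 128)) ^ 8 * ((3 / 5 : ℝ) ^ v * (3 / 5)) :=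
          mul_le_mul_of_nonneg_right h2 (by positivity)
      _ = ((v : ℝ) ^ 8 * (3 / 5 : ℝ) ^ v) * ((129 / 128) ^ 8 * (3 / 5)) := by ring
      _ ≤ 1 * 1 := mul_le_mul ih (by norm_num) (by positivity) (by norm_num)
      _ = 1 := by norm_num

/-- the numerical estimate -/
theorem Y_bound (u h R : ℕ) (hu : 2 ≤ u) (hh : 128 * u ≤ h) (hR : 4 * R ≤ h + 4 * (u + 2)) :
    (u : ℝ) * (2 * h * (25 / 64 : ℝ) ^ h * 25 ^ R) < 1 := by
  set Y : ℝ := (u : ℝ) * (2 * h * (25 / 64 : ℝ) ^ h * 25 ^ R) with hY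
  have hY0 : 0 ≤ Y := by rw [hY]; positivity
  obtain ⟨v, hv⟩ : ∃ v, h = 64 * u + v := ⟨h - 64 * u, by omega⟩
  have hv1 : 64 * u ≤ v := by omega
  have hv128 : 128 ≤ v := by omega
  have h1 : Y ^ 4 < 1 := by
    have e1 : Y ^ 4 = (2 * u * h) ^ 4 * (((25 / 64 : ℝ) ^ 4) ^ h * 25 ^ (4 * R)) := by
      rw [hY, ← pow_mul, mul_comm 4 h, pow_mul, mul_comm 4 R, pow_mul]
      ring
    have e2 : (25 : ℝ) ^ (4 * R) ≤ 25 ^ (h + 4 * (u + 2)) := pow_le_pow_right₀ (by norm_num) hR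
    have e3 : ((25 / 64 : ℝ) ^ 4) ^ h * 25 ^ (h + 4 * (u + 2)) =
        ((25 / 64 : ℝ) ^ 4 * 25) ^ h * 25 ^ (4 * (u + 2)) := by
      rw [mul_pow, pow_add]
      ring
    have e4 : ((25 / 64 : ℝ) ^ 4 * 25) ^ h ≤ (3 / 5 : ℝ) ^ h :=
      pow_le_pow_left₀ (by positivity) (by norm_num) h
    have e5 : (3 / 5 : ℝ) ^ h = ((3 / 5 : ℝ) ^ 16) ^ (4 * u) * (3 / 5 : ℝ) ^ v := by
      rw [hv, pow_add, ← pow_mul]
      congr 2
      ring
    have e6 : (25 : ℝ) ^ (4 * (u + 2)) = 25 ^ (4 * u) * 25 ^ 8 := by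
      rw [← pow_add]
      congr 1
    have e7 : ((3 / 5 : ℝ) ^ 16) ^ (4 * u) * 25 ^ (4 * u) ≤ (1 / 128 : ℝ) ^ 8 := by
      rw [← mul_pow]
      calc ((3 / 5 : ℝ) ^ 16 * 25) ^ (4 * u) ≤ (1 / 128 : ℝ) ^ (4 * u) :=
            pow_le_pow_left₀ (by positivity) (by norm_num) _
        _ ≤ (1 / 128 : ℝ) ^ 8 := pow_le_pow_of_le_one (by norm_num) (by norm_num) (by omega)
    have e8 : (2 * u * h : ℝ) ≤ (v : ℝ) ^ 2 / 16 := by
      have a1 : (u : ℝ) ≤ v / 64 := by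
        have : (64 * u : ℝ) ≤ v := by exact_mod_cast hv1
        linarith
      have a2 : (h : ℝ) ≤ 2 * v := by
        have : h ≤ 2 * v := by omega
        exact_mod_cast this
      have a3 : (0 : ℝ) ≤ u := Nat.cast_nonneg _
      have a4 : (0 : ℝ) ≤ v := Nat.cast_nonneg _
      nlinarith [mul_le_mul a1 a2 (Nat.cast_nonneg h) (by positivity)]
    have e9 : (2 * u * h : ℝ) ^ 4 ≤ ((v : ℝ) ^ 2 / 16) ^ 4 := pow_le_pow_left₀ (by positivity) e8 4
    have e10 := v_bound v hv128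
    calc Y ^ 4 = (2 * u * h) ^ 4 * (((25 / 64 : ℝ) ^ 4) ^ h * 25 ^ (4 * R)) := e1
      _ ≤ (2 * u * h) ^ 4 * (((25 / 64 : ℝ) ^ 4) ^ h * 25 ^ (h + 4 * (u + 2))) := by gcongr
      _ = (2 * u * h) ^ 4 * (((25 / 64 : ℝ) ^ 4 * 25) ^ h * 25 ^ (4 * (u + 2))) := by rw [e3]
      _ ≤ (2 * u * h) ^ 4 * ((3 / 5 : ℝ) ^ h * 25 ^ (4 * (u + 2))) := by gcongr
      _ = (2 * u * h) ^ 4 * (3 / 5 : ℝ) ^ v *
          (((3 / 5 : ℝ) ^ 16) ^ (4 * u) * 25 ^ (4 * u)) * 25 ^ 8 := by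
          rw [e5, e6]
          ring
      _ ≤ ((v : ℝ) ^ 2 / 16) ^ 4 * (3 / 5 : ℝ) ^ v * ((1 / 128 : ℝ) ^ 8) * 25 ^ 8 := by gcongr
      _ = ((v : ℝ) ^ 8 * (3 / 5 : ℝ) ^ v) * ((1 / 16) ^ 4 * (1 / 128 : ℝ) ^ 8 * 25 ^ 8) := by ring
      _ ≤ 1 * ((1 / 16) ^ 4 * (1 / 128 : ℝ) ^ 8 * 25 ^ 8) :=
          mul_le_mul_of_nonneg_right e10 (by positivity)
      _ < 1 := by norm_num
  by_contra hcon
  push Not at hcon
  have := one_le_pow₀ hcon (n := 4)
  linarith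

/-- **Small Chern roots are integers.** -/
theorem roots_int_of_small {r : ℕ} (hr : 1 ≤ r) (n : ℕ) (hn : 2 ^ (r + 8) ≤ n) (δ : Fin r → ℂ)
    (hint : ∀ i, IsIntegral ℤ (δ i)) (hne : ∀ i, δ i ≠ 0) (c1 : ℤ) (hc1 : ∑ i, δ i = c1)
    (hsmall : ∑ i, ‖δ i‖ ≤ ((n : ℝ) - 1) / 4)
    (hI : ∀ k : ℤ, ∃ z : ℤ, ∑ S : Finset (Fin r), sg S * bin (k - ∑ i ∈ S, δ i) n = z) :
    ∀ i, ∃ z : ℤ, δ i = z := by
  classical
  set u := 2 ^ r with hu
  have hu2 : 2 ≤ u := by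
    rw [hu]
    calc 2 = 2 ^ 1 := by norm_num
      _ ≤ 2 ^ r := Nat.pow_le_pow_right (by norm_num) hr
  have hn' : 256 * u ≤ n := by
    rw [hu]
    calc 256 * 2 ^ r = 2 ^ (r + 8) := by rw [pow_add]; ring
      _ ≤ n := hn
  obtain ⟨h, hh⟩ : ∃ h, h = n / 2 := ⟨_, rfl⟩
  have hh2 : 2 * h ≤ n := by omega
  have hhu : 128 * u ≤ h := by omega
  have hhR : ((n : ℝ) - 1) / 4 ≤ h / 2 := by
    have : n ≤ 2 * h + 1 := by omega
    have h2 : (n : ℝ) ≤ 2 * h + 1 := by exact_mod_cast this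
    linarith
  -- integrality in dimension `2 h`
  have hI' : Integral n (fun S : Finset (Fin r) => (-1) ^ S.card) (fun S => -∑ i ∈ S, δ i) := by
    intro k
    obtain ⟨z, hz⟩ := hI k
    refine ⟨z, ?_⟩
    rw [← hz]
    refine sum_congr rfl fun S _ => ?_
    unfold sg
    push_cast
    rw [sub_eq_add_neg]
  have hI2 := hI'.le hh2
  set k1 : ℤ := h + c1 / 2 with hk1
  set R : ℕ := h / 4 + u + 2 with hR
  refine roots_int (2 * h) u (by omega) δ hint hne univ (fun S _ => mem_univ S) ?_ k1 ?_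
  · rw [card_univ, Fintype.card_finset, Fintype.card_fin]
  intro k hk hk'
  obtain ⟨z, hz⟩ := hI2 k
  have hz' : ∑ S : Finset (Fin r), sg S * bin (k - ∑ i ∈ S, δ i) (2 * h) = z := by
    rw [← hz]
    refine sum_congr rfl fun S _ => ?_
    unfold sg
    push_cast
    rw [sub_eq_add_neg]
  -- each term is small
  have hterm : ∀ S ∈ (univ : Finset (Finset (Fin r))),
      ‖sg S * bin (k - ∑ i ∈ S, δ i) (2 * h)‖ ≤ 2 * h * (25 / 64 : ℝ) ^ h * 25 ^ R := by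
    intro S _
    have e1 : ‖sg S‖ = 1 := by
      unfold sg
      simp
    rw [norm_mul, e1, one_mul]
    have e2 : (k : ℂ) - ∑ i ∈ S, δ i = h + ((k : ℂ) - h - ∑ i ∈ S, δ i) := by ring
    rw [e2]
    refine bin_small h R (by omega) _ ?_
    -- the distance from the centre
    have e3 : ‖(c1 : ℂ) / 2 - ∑ i ∈ S, δ i‖ ≤ h / 4 := by
      have e4 : (c1 : ℂ) / 2 - ∑ i ∈ S, δ i = (∑ i, (if i ∈ S then -δ i else δ i)) / 2 := by
        have e5 : ∑ i, (if i ∈ S then -δ i else δ i) = ∑ i, δ i - 2 * ∑ i ∈ S, δ i := by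
          have e6 : ∑ i ∈ S, δ i = ∑ i, (if i ∈ S then δ i else 0) := by
            rw [← sum_filter]
            simp
          rw [e6, mul_sum, ← sum_sub_distrib]
          refine sum_congr rfl fun i _ => ?_
          split_ifs <;> ring
        rw [e5, hc1]
        ring
      rw [e4, norm_div, Complex.norm_ofNat]
      have e7 : ‖∑ i, (if i ∈ S then -δ i else δ i)‖ ≤ ∑ i, ‖δ i‖ := by
        refine (norm_sum_le _ _).trans (sum_le_sum fun i _ => ?_)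
        split_ifs
        · rw [norm_neg]
        · exact le_rfl
      linarith
    have e8 : (k : ℂ) - h - ∑ i ∈ S, δ i = ((c1 : ℂ) / 2 - ∑ i ∈ S, δ i) +
        (((k : ℝ) - h - c1 / 2 : ℝ) : ℂ) := by
      push_cast
      ring
    rw [e8]
    refine (norm_add_le _ _).trans ?_
    rw [Complex.norm_real, Real.norm_eq_abs]
    have e9 : |(k : ℝ) - h - c1 / 2| ≤ u + 1 := by
      have a1 : (c1 : ℝ) / 2 - 1 ≤ ((c1 / 2 : ℤ) : ℝ) := by
        have : c1 ≤ 2 * (c1 / 2) + 1 := by omega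
        have h2 : (c1 : ℝ) ≤ 2 * ((c1 / 2 : ℤ) : ℝ) + 1 := by exact_mod_cast this
        linarith
      have a2 : ((c1 / 2 : ℤ) : ℝ) ≤ (c1 : ℝ) / 2 := by
        have : 2 * (c1 / 2) ≤ c1 := by omega
        have h2 : 2 * ((c1 / 2 : ℤ) : ℝ) ≤ (c1 : ℝ) := by exact_mod_cast this
        linarith
      have a3 : (h : ℝ) + ((c1 / 2 : ℤ) : ℝ) < k := by
        have : (h : ℤ) + c1 / 2 < k := hk
        exact_mod_cast this
      have a4 : (k : ℝ) ≤ h + ((c1 / 2 : ℤ) : ℝ) + u := by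
        have : k ≤ (h : ℤ) + c1 / 2 + (u : ℕ) := hk'
        exact_mod_cast this
      rw [abs_le]
      constructor <;> linarith
    have e10 : (h : ℝ) / 4 ≤ ((h / 4 : ℕ) : ℝ) + 1 := by
      have : h ≤ 4 * (h / 4) + 3 := by omega
      have h2 : (h : ℝ) ≤ 4 * ((h / 4 : ℕ) : ℝ) + 3 := by exact_mod_cast this
      linarith
    rw [hR]
    push_cast
    push_cast at e10
    linarith
  have hnorm : ‖((z : ℤ) : ℂ)‖ < 1 := by
    rw [← hz']
    refine (norm_sum_le _ _).trans_lt ?_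
    refine (sum_le_card_nsmul _ _ _ hterm).trans_lt ?_
    rw [card_univ, Fintype.card_finset, Fintype.card_fin, nsmul_eq_mul]
    have := Y_bound u h R hu2 hhu (by omega)
    exact_mod_cast this
  rw [hz']
  rw [Complex.norm_intCast] at hnorm
  have h0 : z = 0 := by
    have : |z| < 1 := by exact_mod_cast hnorm
    exact Int.abs_lt_one_iff.1 this
  rw [h0]
  simp

end Pool.Agent.Q49.RB
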