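import Pool.Agent.Q49.RB.T3

set_option autoImplicit false

/-! Consecutive zeros of the Euler characteristic of the ideal sheaf. -/

namespace Pool.Agent.Q49.RB

open Finset

/-- the weights at the points where the binomial coefficients are not zero vanish -/
theorem weight_zero {r : ℕ} (n m : ℕ) (hm : m ≤ n + 1) (δ : Fin r → ℂ)
    (F : Finset (Finset (Fin r))) (hF : F.card ≤ m) (k0 : ℤ)
    (h : ∀ k : ℤ, k0 < k → k ≤ k0 + m → ∑ S ∈ F, sg S * bin (k - ∑ i ∈ S, δ i) n = 0)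
    (x : ℂ) (hx : ∃ S ∈ F, ∑ i ∈ S, δ i = x) :
    (∑ S ∈ F.filter (fun S => ∑ i ∈ S, δ i = x), sg S) * bin ((k0 + 1 : ℤ) - x) (n + 1 - m) = 0 := by
  classical
  obtain ⟨V, hV⟩ : ∃ V : Finset ℂ, V = F.image fun S => ∑ i ∈ S, δ i := ⟨_, rfl⟩
  obtain ⟨S0, hS0, rfl⟩ := hx
  have hx0 : (∑ i ∈ S0, δ i) ∈ V := by
    rw [hV]
    exact mem_image_of_mem _ hS0
  have hcard : Fintype.card V ≤ m := by
    rw [Fintype.card_coe, hV]
    exact card_image_le.trans hF
  exact indep (ι := V) n m hm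
    (fun x => ∑ S ∈ F.filter (fun S => ∑ i ∈ S, δ i = x), sg S) (fun x => (x : ℂ))
    Subtype.val_injective hcard k0 (fun k hk hk' => by
      have := fibres F δ (fun x => bin (k - x) n) V hV
      rw [this]
      exact h k hk hk') ⟨_, hx0⟩

/-- **All Chern roots are integers**, second version. -/
theorem roots_int2 {r : ℕ} (n m : ℕ) (hm : m ≤ n + 1) (δ : Fin r → ℂ)
    (hint : ∀ i, IsIntegral ℤ (δ i)) (hne : ∀ i, δ i ≠ 0)
    (F : Finset (Finset (Fin r)))
    (hFS : ∀ S : Finset (Fin r), (∀ z : ℤ, ∑ i ∈ S, δ i ≠ z) → S ∈ F)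
    (hF : F.card ≤ m) (k0 : ℤ)
    (h : ∀ k : ℤ, k0 < k → k ≤ k0 + m → ∑ S ∈ F, sg S * bin (k - ∑ i ∈ S, δ i) n = 0) :
    ∀ i, ∃ z : ℤ, δ i = z := by
  classical
  by_contra hcon
  push Not at hcon
  obtain ⟨i1, hi1⟩ := hcon
  set W : Submodule ℚ ℂ := Submodule.span ℚ {(1 : ℂ)} with hW
  have hnotW : ∀ i, (∀ z : ℤ, δ i ≠ z) → W.mkQ (δ i) ≠ 0 := by
    intro i hi h0
    rw [Submodule.mkQ_apply, Submodule.Quotient.mk_eq_zero, hW, Submodule.mem_span_singleton] at h0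
    obtain ⟨q, hq⟩ := h0
    obtain ⟨k, hk⟩ := rational_int (δ i) (hint i) q (by
      rw [← hq, Algebra.smul_def, mul_one]
      rfl)
    exact hi k hk
  obtain ⟨f, hf⟩ := Module.exists_dual_forall_apply_ne_zero (K := ℚ)
    (fun i : {i // ∀ z : ℤ, δ i ≠ z} => W.mkQ (δ i)) (fun i => hnotW i i.2)
  obtain ⟨φ, hφ1, hφT, hφi⟩ : ∃ φ : ℂ →ₗ[ℚ] ℚ, φ 1 = 0 ∧ (∀ i, (∀ z : ℤ, δ i ≠ z) → φ (δ i) ≠ 0) ∧
      0 < φ (δ i1) := by
    have h1 : W.mkQ 1 = 0 := by
      rw [Submodule.mkQ_apply, Submodule.Quotient.mk_eq_zero, hW]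
      exact Submodule.mem_span_singleton_self 1
    rcases lt_or_gt_of_ne (hf ⟨i1, hi1⟩) with hlt | hgt
    · refine ⟨-(f.comp W.mkQ), ?_, fun i hi => ?_, ?_⟩
      · rw [LinearMap.neg_apply, LinearMap.comp_apply, h1, map_zero, neg_zero]
      · rw [LinearMap.neg_apply, LinearMap.comp_apply, neg_ne_zero]
        exact hf ⟨i, hi⟩
      · rw [LinearMap.neg_apply, LinearMap.comp_apply]
        linarith
    · refine ⟨f.comp W.mkQ, ?_, fun i hi => ?_, ?_⟩
      · rw [LinearMap.comp_apply, h1, map_zero]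
      · rw [LinearMap.comp_apply]
        exact hf ⟨i, hi⟩
      · rw [LinearMap.comp_apply]
        exact hgt
  have hφz : ∀ z : ℤ, φ (z : ℂ) = 0 := by
    intro z
    have : (z : ℂ) = (z : ℚ) • (1 : ℂ) := by
      rw [Algebra.smul_def, mul_one]
      simp
    rw [this, map_smul, hφ1, smul_zero]
  obtain ⟨N, hN0, hN⟩ : ∃ N : ℝ, 0 < N ∧ ∀ i, (∀ z : ℤ, δ i ≠ z) →
      |(δ i).re| < N * |((φ (δ i) : ℚ) : ℝ)| := by
    refine ⟨∑ i, |(δ i).re| / |((φ (δ i) : ℚ) : ℝ)| + 1, ?_, fun i hi => ?_⟩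
    · have : 0 ≤ ∑ i, |(δ i).re| / |((φ (δ i) : ℚ) : ℝ)| := sum_nonneg fun i _ => by positivity
      linarith
    · have h1 : 0 < |((φ (δ i) : ℚ) : ℝ)| := by
        rw [abs_pos]
        exact_mod_cast hφT i hi
      have h2 : |(δ i).re| / |((φ (δ i) : ℚ) : ℝ)| ≤
          ∑ i, |(δ i).re| / |((φ (δ i) : ℚ) : ℝ)| :=
        single_le_sum (f := fun i => |(δ i).re| / |((φ (δ i) : ℚ) : ℝ)|)
          (fun i _ => by positivity) (mem_univ i)
      rw [div_le_iff₀ h1] at h2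
      nlinarith
  set Φ : Fin r → ℝ := fun i => N * ((φ (δ i) : ℚ) : ℝ) + (δ i).re with hΦ
  have hsign : ∀ i, (∀ z : ℤ, δ i ≠ z) → (0 < Φ i ↔ 0 < φ (δ i)) ∧ Φ i ≠ 0 := by
    intro i hi
    have h1 := hN i hi
    have h2 := abs_lt.1 h1
    rcases lt_or_gt_of_ne (hφT i hi) with hlt | hgt
    · have h3 : ((φ (δ i) : ℚ) : ℝ) < 0 := by exact_mod_cast hlt
      rw [abs_of_neg h3] at h2
      have h4 : Φ i < 0 := by
        rw [hΦ]
        simp only
        linarith [h2.2]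
      exact ⟨⟨fun h => absurd h (by linarith), fun h => absurd h (by linarith)⟩, h4.ne⟩
    · have h3 : 0 < ((φ (δ i) : ℚ) : ℝ) := by exact_mod_cast hgt
      rw [abs_of_pos h3] at h2
      have h4 : 0 < Φ i := by
        rw [hΦ]
        simp only
        linarith [h2.1]
      exact ⟨⟨fun _ => hgt, fun _ => h4⟩, h4.ne'⟩
  have hΦne : ∀ i, Φ i ≠ 0 := by
    intro i
    by_cases hi : ∀ z : ℤ, δ i ≠ z
    · exact (hsign i hi).2
    · push Not at hi
      obtain ⟨z, hz⟩ := hi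
      rw [hΦ]
      simp only
      rw [hz, hφz]
      have : (z : ℂ) ≠ 0 := by
        rw [← hz]
        exact hne i
      have h0 : z ≠ 0 := by exact_mod_cast this
      simpa using h0
  set S0 := univ.filter (fun i => 0 < Φ i) with hS0
  have hi1S : i1 ∈ S0 := by
    rw [hS0, mem_filter]
    exact ⟨mem_univ _, (hsign i1 hi1).1.2 hφi⟩
  have huniq : ∀ S ∈ F, ∑ i ∈ S, δ i = ∑ i ∈ S0, δ i → S = S0 := by
    intro S _ hS
    apply uniq_max Φ hΦne S
    have e : ∀ T : Finset (Fin r), ∑ i ∈ T, Φ i =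
        N * ((φ (∑ i ∈ T, δ i) : ℚ) : ℝ) + (∑ i ∈ T, δ i).re := by
      intro T
      rw [hΦ]
      simp only
      rw [sum_add_distrib, ← mul_sum, map_sum, Complex.re_sum]
      push_cast
      rfl
    rw [← hS0, e S, e S0, hS]
  have h3 : 0 < φ (∑ i ∈ S0, δ i) := by
    rw [map_sum]
    refine sum_pos' (fun i hi => ?_) ⟨i1, hi1S, hφi⟩
    rw [hS0, mem_filter] at hi
    by_cases hT : ∀ z : ℤ, δ i ≠ z
    · exact ((hsign i hT).1.1 hi.2).le
    · push Not at hT
      obtain ⟨z', hz'⟩ := hT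
      rw [hz', hφz]
  have hnon : ∀ z : ℤ, ∑ i ∈ S0, δ i ≠ z := by
    intro z hz
    rw [hz, hφz] at h3
    exact lt_irrefl _ h3
  have h1 := occurs_once n m hm δ F hF k0 h S0 (hFS S0 hnon) huniq
  refine bin_ne_zero _ _ (fun z hz => hnon (k0 + 1 - z) ?_) h1
  push_cast at hz ⊢
  linear_combination -hz

theorem bin_neg (x : ℂ) (n : ℕ) : bin (-x) n = (-1) ^ n * bin (x + n - 1) n := by
  unfold bin
  rw [mul_div_assoc']
  congr 1
  rw [← prod_range_reflect (fun i => (x + n - 1 - (i : ℂ))) n]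
  have : ((-1 : ℂ)) ^ n = ∏ _i ∈ range n, (-1 : ℂ) := by simp
  rw [this, ← prod_mul_distrib]
  refine prod_congr rfl fun i hi => ?_
  rw [mem_range] at hi
  have e : ((n - 1 - i : ℕ) : ℂ) = n - 1 - i := by
    rw [Nat.cast_sub (by omega), Nat.cast_sub (by omega)]
    simp
  rw [e]
  ring

theorem bin_zero_of_lt (z : ℤ) (n : ℕ) (h0 : 0 ≤ z) (h1 : z < n) : bin (z : ℂ) n = 0 := by
  obtain ⟨N, rfl⟩ := Int.eq_ofNat_of_zero_le h0
  have := bin_nat N n
  rw [Nat.choose_eq_zero_of_lt (by exact_mod_cast h1)] at this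
  push_cast
  rw [this]
  simp

theorem bin_pos_ne (z : ℤ) (n : ℕ) (h1 : (n : ℤ) ≤ z) : bin (z : ℂ) n ≠ 0 := by
  obtain ⟨N, rfl⟩ := Int.eq_ofNat_of_zero_le (show 0 ≤ z by omega)
  have := bin_nat N n
  push_cast
  rw [this]
  have h2 : n ≤ N := by exact_mod_cast h1
  exact_mod_cast (Nat.choose_pos h2).ne'

/-- the alternating sum -/
noncomputable def PS {r : ℕ} (n : ℕ) (δ : Fin r → ℂ) (k : ℤ) : ℂ :=
  ∑ S : Finset (Fin r), sg S * bin (n + k - ∑ i ∈ S, δ i) n

theorem sg_compl {r : ℕ} (S : Finset (Fin r)) : sg Sᶜ = (-1) ^ r * sg S := by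
  unfold sg
  have h := card_compl_add_card S
  rw [Fintype.card_fin] at h
  have e : ((-1 : ℂ)) ^ r = (-1) ^ Sᶜ.card * (-1) ^ S.card := by
    rw [← pow_add, h]
  have e2 : ((-1 : ℂ)) ^ S.card * (-1) ^ S.card = 1 := by
    rw [← mul_pow]
    norm_num
  rw [e, mul_assoc, e2, mul_one]

/-- Serre duality -/
theorem PS_symm {r : ℕ} (n : ℕ) (δ : Fin r → ℂ) (b : ℤ) (hb : ∑ i, δ i = n + 1 + b) (k : ℤ) :
    PS n δ k = (-1) ^ (n + r) * PS n δ (b - k) := by
  classical
  unfold PS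
  rw [mul_sum]
  refine sum_bij (fun S _ => Sᶜ) (fun _ _ => mem_univ _) ?_ ?_ ?_
  · intro S _ T _ h
    exact compl_injective h
  · intro T _
    exact ⟨Tᶜ, mem_univ _, compl_compl T⟩
  · intro S _
    have h1 : ∑ i ∈ Sᶜ, δ i = n + 1 + b - ∑ i ∈ S, δ i := by
      rw [← hb, ← sum_add_sum_compl S δ]
      ring
    have h2 : (n : ℂ) + ((b - k : ℤ) : ℂ) - ∑ i ∈ Sᶜ, δ i = -(k + 1 - ∑ i ∈ S, δ i) := by
      rw [h1]
      push_cast
      ring
    rw [h2, bin_neg, sg_compl]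
    have h3 : (k : ℂ) + 1 - ∑ i ∈ S, δ i + n - 1 = n + k - ∑ i ∈ S, δ i := by ring
    rw [h3]
    have e : ((-1 : ℂ)) ^ (n + r) * ((-1) ^ r * sg S * ((-1) ^ n * bin (n + k - ∑ i ∈ S, δ i) n)) =
        ((-1) ^ (n + r) * (-1) ^ (n + r)) * (sg S * bin (n + k - ∑ i ∈ S, δ i) n) := by
      rw [pow_add]
      ring
    rw [e, ← mul_pow]
    norm_num

/-- **Fano case.** -/
theorem fano {r : ℕ} (hr : 2 ≤ r) (n : ℕ) (hn : 2 ^ r ≤ n + 3) (δ : Fin r → ℂ)
    (hint : ∀ i, IsIntegral ℤ (δ i)) (hne : ∀ i, δ i ≠ 0) (a s : ℕ) (ha : 1 ≤ a) (hs : 1 ≤ s)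
    (has : a + s ≤ n + 1) (hc1 : ∑ i, δ i = n + 1 - a)
    (hneg : ∀ k : ℤ, -(a : ℤ) < k → k < 0 → PS n δ k = 0)
    (hpos : ∀ k : ℤ, 0 ≤ k → k < s → PS n δ k = bin (n + k) n)
    (hlen : 2 ^ r ≤ a + 2 * s + 1) :
    ∃ d : Fin r → ℤ, (∀ i, (s : ℤ) ≤ d i) ∧ ∀ i, δ i = d i := by
  classical
  have hu4 : 4 ≤ 2 ^ r := by
    calc 4 = 2 ^ 2 := by norm_num
      _ ≤ 2 ^ r := Nat.pow_le_pow_right (by norm_num) hr
  haveI : Nonempty (Fin r) := ⟨⟨0, by omega⟩⟩
  obtain ⟨F, hFdef⟩ : ∃ F : Finset (Finset (Fin r)), F = (univ.erase ∅).erase univ := ⟨_, rfl⟩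
  have hne' : (univ : Finset (Fin r)) ≠ ∅ := univ_nonempty.ne_empty
  have hFcard : F.card = 2 ^ r - 2 := by
    rw [hFdef, card_erase_of_mem (by rw [mem_erase]; exact ⟨hne', mem_univ _⟩),
      card_erase_of_mem (mem_univ _), card_univ, Fintype.card_finset, Fintype.card_fin]
    omega
  -- the sum over F
  have hsumF : ∀ k : ℤ, ∑ S ∈ F, sg S * bin (n + k - ∑ i ∈ S, δ i) n =
      PS n δ k - bin (n + k) n - (-1) ^ r * bin (k + a - 1) n := by
    intro k
    have h1 : PS n δ k = ∑ S ∈ F, sg S * bin (n + k - ∑ i ∈ S, δ i) n +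
        sg (univ : Finset (Fin r)) * bin (n + k - ∑ i, δ i) n +
        sg (∅ : Finset (Fin r)) * bin (n + k - ∑ i ∈ (∅ : Finset (Fin r)), δ i) n := by
      unfold PS
      rw [hFdef]
      rw [sum_erase_add _ _ (by rw [mem_erase]; exact ⟨hne', mem_univ _⟩),
        sum_erase_add _ _ (mem_univ _)]
    have h2 : sg (∅ : Finset (Fin r)) = 1 := by simp [sg]
    have h3 : sg (univ : Finset (Fin r)) = (-1) ^ r := by simp [sg]
    rw [h1, h2, h3, hc1, sum_empty, sub_zero]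
    have h4 : (n : ℂ) + k - (n + 1 - a) = k + a - 1 := by ring
    rw [h4]
    ring
  have hzero : ∀ k : ℤ, -(a : ℤ) - s + 1 ≤ k → k < s →
      ∑ S ∈ F, sg S * bin (n + k - ∑ i ∈ S, δ i) n = 0 := by
    intro k hk1 hk2
    rw [hsumF]
    rcases le_or_gt 0 k with hk | hk
    · rw [hpos k hk hk2]
      have h1 : ((k : ℂ) + a - 1) = ((k + a - 1 : ℤ) : ℂ) := by push_cast; ring
      rw [h1, bin_zero_of_lt _ n (by omega) (by omega)]
      ring
    · have h0 : bin ((n : ℂ) + k) n = 0 := by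
        have h1 : ((n : ℂ) + k) = ((n + k : ℤ) : ℂ) := by push_cast; ring
        rw [h1, bin_zero_of_lt _ n (by omega) (by omega)]
      rcases lt_or_ge (-(a : ℤ)) k with hk' | hk'
      · rw [hneg k hk' hk, h0]
        have h1 : ((k : ℂ) + a - 1) = ((k + a - 1 : ℤ) : ℂ) := by push_cast; ring
        rw [h1, bin_zero_of_lt _ n (by omega) (by omega)]
        ring
      · have h2 := PS_symm n δ (-(a : ℤ)) (by rw [hc1]; push_cast; ring) k
        rw [h2, hpos (-(a : ℤ) - k) (by omega) (by omega), h0]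
        have h3 : ((k : ℂ) + a - 1) = -(1 - k - a) := by ring
        rw [h3, bin_neg]
        have h4 : (1 : ℂ) - k - a + n - 1 = n + ((-(a : ℤ) - k : ℤ) : ℂ) := by
          push_cast
          ring
        rw [h4, pow_add]
        ring
  obtain ⟨m, hm⟩ : ∃ m, m = 2 ^ r - 2 := ⟨_, rfl⟩
  have hm2 : 2 ≤ m := by omega
  set k0 : ℤ := n + s - 1 - m with hk0
  have hwin : ∀ k : ℤ, k0 < k → k ≤ k0 + m →
      ∑ S ∈ F, sg S * bin (k - ∑ i ∈ S, δ i) n = 0 := by
    intro k hk hk'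
    have h1 := hzero (k - n) (by omega) (by omega)
    have h2 : (n : ℂ) + ((k - n : ℤ) : ℂ) = k := by
      push_cast
      ring
    rw [h2] at h1
    exact h1
  have hFm : F.card ≤ m := by omega
  have hFmem : ∀ S : Finset (Fin r), S ≠ ∅ → S ≠ univ → S ∈ F := by
    intro S h1 h2
    rw [hFdef, mem_erase, mem_erase]
    exact ⟨h2, h1, mem_univ _⟩
  have hroots := roots_int2 n m (by omega) δ hint hne F (fun S hS => hFmem S (by
      rintro rfl
      exact hS 0 (by simp)) (by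
      rintro rfl
      exact hS (n + 1 - a) (by rw [hc1]; push_cast; ring))) hFm k0 hwin
  choose d hd using hroots
  have hsum : ∀ S : Finset (Fin r), ∑ i ∈ S, δ i = ((∑ i ∈ S, d i : ℤ) : ℂ) := by
    intro S
    push_cast
    exact sum_congr rfl fun i _ => hd i
  have hd0 : ∀ i, d i ≠ 0 := by
    intro i h
    exact hne i (by rw [hd, h]; simp)
  have hc1' : ∑ i, d i = n + 1 - a := by
    have h1 := hsum univ
    rw [hc1] at h1
    have : ((n + 1 - a : ℤ) : ℂ) = ((∑ i, d i : ℤ) : ℂ) := by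
      rw [← h1]
      push_cast
      ring
    exact_mod_cast this.symm
  -- a value of total weight nonzero is at least `s`
  have hval : ∀ x : ℤ, (∃ S ∈ F, ∑ i ∈ S, d i = x) →
      (∑ S ∈ F.filter (fun S => ∑ i ∈ S, δ i = (x : ℂ)), sg S) ≠ 0 → (s : ℤ) ≤ x := by
    intro x hx hw
    obtain ⟨S, hS, hSx⟩ := hx
    have h1 := weight_zero n m (by omega) δ F hFm k0 hwin (x : ℂ) ⟨S, hS, by rw [hsum, hSx]⟩
    have h2 := (mul_eq_zero.1 h1).resolve_left hw
    by_contra hcon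
    push Not at hcon
    have h3 : (((k0 + 1 : ℤ) : ℂ) - x) = ((k0 + 1 - x : ℤ) : ℂ) := by push_cast; ring
    rw [h3] at h2
    refine bin_pos_ne (k0 + 1 - x) (n + 1 - m) ?_ h2
    have : ((n + 1 - m : ℕ) : ℤ) = n + 1 - m := by omega
    omega
  -- no negative roots
  have hnonneg : ∀ i, 0 < d i := by
    by_contra hcon
    push Not at hcon
    obtain ⟨j, hj⟩ := hcon
    have hj' : d j < 0 := lt_of_le_of_ne hj (hd0 j)
    set S0 := univ.filter (fun i => d i < 0) with hS0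
    have hjS : j ∈ S0 := by
      rw [hS0, mem_filter]
      exact ⟨mem_univ _, hj'⟩
    have hneg0 : ∑ i ∈ S0, d i < 0 := by
      refine sum_neg' (fun i hi => ?_) ⟨j, hjS, hj'⟩
      rw [hS0, mem_filter] at hi
      exact hi.2.le
    have hS0F : S0 ∈ F := by
      refine hFmem S0 ?_ ?_
      · intro h
        rw [h] at hjS
        exact absurd hjS (notMem_empty _)
      · intro h
        rw [h, hc1'] at hneg0
        omega
    have h1 : F.filter (fun S => ∑ i ∈ S, δ i = ((∑ i ∈ S0, d i : ℤ) : ℂ)) = {S0} := by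
      ext S
      rw [mem_filter, mem_singleton]
      constructor
      · rintro ⟨_, h2⟩
        rw [hsum] at h2
        have h3 : ∑ i ∈ S, d i = ∑ i ∈ S0, d i := by exact_mod_cast h2
        have h4 := uniq_max (fun i => -(d i : ℝ)) (fun i => by
          rw [neg_ne_zero]
          exact_mod_cast hd0 i) S (by
            have h5 : univ.filter (fun i => 0 < -(d i : ℝ)) = S0 := by
              rw [hS0]
              refine filter_congr fun i _ => ?_
              rw [neg_pos]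
              exact_mod_cast Iff.rfl
            rw [h5, sum_neg_distrib, sum_neg_distrib]
            congr 1
            exact_mod_cast h3)
        rw [h4, hS0]
        refine filter_congr fun i _ => ?_
        rw [neg_pos]
        exact_mod_cast Iff.rfl
      · rintro rfl
        exact ⟨hS0F, hsum _⟩
    have h2 := hval (∑ i ∈ S0, d i) ⟨S0, hS0F, rfl⟩ (by
      rw [h1, sum_singleton]
      unfold sg
      exact pow_ne_zero _ (by norm_num))
    omega
  refine ⟨d, ?_, hd⟩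
  -- the smallest root
  obtain ⟨j, -, hj⟩ := exists_min_image (univ : Finset (Fin r)) d univ_nonempty
  have hsing : ({j} : Finset (Fin r)) ∈ F := by
    refine hFmem _ (singleton_ne_empty j) ?_
    intro h
    have h1 := congrArg card h
    rw [card_singleton, card_univ, Fintype.card_fin] at h1
    omega
  have hcard1 : ∀ S ∈ F.filter (fun S => ∑ i ∈ S, δ i = ((d j : ℤ) : ℂ)), sg S = -1 := by
    intro S hS
    rw [mem_filter, hsum] at hS
    have h1 : ∑ i ∈ S, d i = d j := by exact_mod_cast hS.2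
    have hSne : S.Nonempty := by
      rw [nonempty_iff_ne_empty]
      rintro rfl
      rw [sum_empty] at h1
      exact hd0 j h1.symm
    obtain ⟨i, hi⟩ := hSne
    have h2 : S.erase i = ∅ := by
      by_contra h
      obtain ⟨l, hl⟩ := nonempty_iff_ne_empty.2 h
      have h3 : 0 < ∑ l ∈ S.erase i, d l :=
        sum_pos (fun l _ => hnonneg l) ⟨l, hl⟩
      have h4 := add_sum_erase S d hi
      have h5 := hj i (mem_univ i)
      omega
    have h3 : S.card = 1 := by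
      rw [← card_erase_add_one hi, h2]
      simp
    unfold sg
    rw [h3, pow_one]
  have h1 := hval (d j) ⟨{j}, hsing, by simp⟩ (by
    rw [sum_congr rfl hcard1, sum_const, nsmul_eq_mul, mul_neg, mul_one, neg_ne_zero]
    rw [Nat.cast_ne_zero, ← Nat.pos_iff_ne_zero, card_pos]
    refine ⟨{j}, ?_⟩
    rw [mem_filter]
    exact ⟨hsing, by rw [hsum]; simp⟩)
  intro i
  exact h1.trans (hj i (mem_univ i))

end Pool.Agent.Q49.RB
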